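import Mathlib

/-! Definitions for the sharp Chang–Marshall inequality. -/

open MeasureTheory Complex Filter Topology Set Metric
open scoped ComplexConjugate Real

noncomputable section

namespace CM

/-- `w(r,θ) = conj(f z) * (z f'(z))`, `z = r e^{iθ}` -/
def Wf (f : ℂ → ℂ) (r θ : ℝ) : ℂ :=
  conj (f (circleMap 0 r θ)) * (circleMap 0 r θ * deriv f (circleMap 0 r θ))

/-- normalised Dirichlet energy of `f(r·)`, as a circle average of `Re (conj f · z f')` -/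
def Ef (f : ℂ → ℂ) (r : ℝ) : ℝ := (1 / (2 * π)) * ∫ θ in (0:ℝ)..(2 * π), (Wf f r θ).re

/-- circle average of `|z f'|^2` -/
def Gf (f : ℂ → ℂ) (r : ℝ) : ℝ :=
  (1 / (2 * π)) * ∫ θ in (0:ℝ)..(2 * π), ‖circleMap 0 r θ * deriv f (circleMap 0 r θ)‖ ^ 2

/-- the monotone quantity -/
def Psi (f : ℂ → ℂ) (r : ℝ) : ℝ :=
  (1 / (2 * π)) * ∫ θ in (0:ℝ)..(2 * π), Real.exp (‖f (circleMap 0 r θ)‖ ^ 2 / Ef f r)

/-- Taylor coefficients at 0 -/
def tc (f : ℂ → ℂ) (n : ℕ) : ℂ := iteratedDeriv n f 0 / (n.factorial : ℂ)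

end CM
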