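import Mathlib
import Pool.Agent.Helper714.CM.Defs

open MeasureTheory Complex Filter Topology Set Metric
open scoped ComplexConjugate Real

noncomputable section

namespace CM

namespace J1888

lemma wirt_two_pi_pos : (0:ℝ) < 2 * π := by positivity

/-- Wirtinger for mean zero functions -/
theorem wirt_mean_zero (γ γ' : ℝ → ℂ) (h : ∀ s, HasDerivAt γ (γ' s) s) (hc : Continuous γ')
    (hp : γ (2 * π) = γ 0) (h0 : ∫ s in (0:ℝ)..(2 * π), γ s = 0) :
    ∫ s in (0:ℝ)..(2 * π), ‖γ s‖ ^ 2 ≤ ∫ s in (0:ℝ)..(2 * π), ‖γ' s‖ ^ 2 := by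
  have hcγ : Continuous γ := continuous_iff_continuousAt.mpr fun s => (h s).continuousAt
  have hab := wirt_two_pi_pos
  have hmem : ∀ g : ℝ → ℂ, Continuous g → MemLp g 2 (volume.restrict (Ioc (0:ℝ) (2 * π))) := by
    intro g hg
    obtain ⟨C, hC⟩ := (isCompact_Icc (a := (0:ℝ)) (b := 2 * π)).exists_bound_of_continuousOn
      hg.continuousOn
    refine MemLp.of_bound hg.aestronglyMeasurable C ?_
    filter_upwards [ae_restrict_mem measurableSet_Ioc] with x hx
    exact hC x ⟨hx.1.le, hx.2⟩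
  have p1 := hasSum_sq_fourierCoeffOn hab (hmem γ hcγ)
  have p2 := hasSum_sq_fourierCoeffOn hab (hmem γ' hc)
  have hle : ∀ n : ℤ, ‖fourierCoeffOn hab γ n‖ ^ 2 ≤ ‖fourierCoeffOn hab γ' n‖ ^ 2 := by
    intro n
    by_cases hn : n = 0
    · subst hn
      have : fourierCoeffOn hab γ 0 = 0 := by
        rw [fourierCoeffOn_eq_integral]
        simp [h0]
      rw [this]
      simp
    · have e := fourierCoeffOn_of_hasDerivAt hab hn (f := γ) (f' := γ') (fun x _ => h x)
        (hc.intervalIntegrable _ _)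
      rw [hp, sub_self, mul_zero, zero_sub] at e
      have hn1 : (1:ℝ) ≤ |(n:ℝ)| := by
        have := Int.one_le_abs hn
        exact_mod_cast this
      rw [e, norm_mul, norm_neg, norm_mul]
      have e1 : ‖(1:ℂ) / (-2 * π * I * n)‖ * (‖((2 * π : ℝ) : ℂ) - ((0:ℝ):ℂ)‖ * ‖fourierCoeffOn hab γ' n‖)
          = ‖fourierCoeffOn hab γ' n‖ / |(n:ℝ)| := by
        rw [norm_div, norm_mul, norm_mul, norm_mul, norm_neg, Complex.norm_I, norm_one]
        simp only [Complex.ofReal_zero, sub_zero, Complex.norm_real, Real.norm_eq_abs,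
          Complex.norm_intCast, mul_one]
        rw [abs_of_pos hab, abs_of_pos Real.pi_pos]
        have : ‖(2:ℂ)‖ = 2 := by simp
        rw [this]
        have hn0 : |(n:ℝ)| ≠ 0 := by positivity
        field_simp
      rw [e1]
      apply pow_le_pow_left₀ (by positivity)
      exact div_le_self (norm_nonneg _) hn1
  have hfin := hasSum_le hle p1 p2
  rw [sub_zero, smul_eq_mul, smul_eq_mul] at hfin
  exact le_of_mul_le_mul_left hfin (by positivity)

/-- TARGET 1: Wirtinger type inequality for closed curves -/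
theorem wirt (γ γ' : ℝ → ℂ) (h : ∀ s, HasDerivAt γ (γ' s) s) (hc : Continuous γ')
    (hp : Function.Periodic γ (2 * π)) :
    ∫ s in (0:ℝ)..(2 * π), (conj (γ s) * γ' s).im ≤ ∫ s in (0:ℝ)..(2 * π), ‖γ' s‖ ^ 2 := by
  have hcγ : Continuous γ := continuous_iff_continuousAt.mpr fun s => (h s).continuousAt
  have hab := wirt_two_pi_pos
  have hp0 : γ (2 * π) = γ 0 := by have := hp 0; rwa [zero_add] at this
  set c : ℂ := (((2 * π : ℝ) : ℂ))⁻¹ * ∫ s in (0:ℝ)..(2 * π), γ s with hcdef
  have hpi : ((2 * π : ℝ) : ℂ) ≠ 0 := by exact_mod_cast hab.ne'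
  have hγ'0 : ∫ s in (0:ℝ)..(2 * π), γ' s = 0 := by
    rw [intervalIntegral.integral_eq_sub_of_hasDerivAt (fun s _ => h s) (hc.intervalIntegrable _ _),
      hp0, sub_self]
  set δ : ℝ → ℂ := fun s => γ s - c with hδ
  have hδd : ∀ s, HasDerivAt δ (γ' s) s := fun s => (h s).sub_const c
  have hδc : Continuous δ := hcγ.sub continuous_const
  have hδ0 : ∫ s in (0:ℝ)..(2 * π), δ s = 0 := by
    rw [intervalIntegral.integral_sub (hcγ.intervalIntegrable _ _) intervalIntegrable_const,
      intervalIntegral.integral_const, hcdef, sub_zero, Complex.real_smul]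
    field_simp
    ring
  have hW := wirt_mean_zero δ γ' hδd hc (by simp only [hδ, hp0]) hδ0
  have hcc : Continuous fun s => conj (γ s) * γ' s := (Complex.continuous_conj.comp hcγ).mul hc
  have hcd : Continuous fun s => conj (δ s) * γ' s := (Complex.continuous_conj.comp hδc).mul hc
  have himeq : ∫ s in (0:ℝ)..(2 * π), (conj (γ s) * γ' s).im
      = ∫ s in (0:ℝ)..(2 * π), (conj (δ s) * γ' s).im := by
    have e1 : ∀ s, (conj (γ s) * γ' s).im = (conj (δ s) * γ' s).im + (conj c * γ' s).im := by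
      intro s
      rw [← Complex.add_im]
      congr 1
      simp only [hδ, map_sub]
      ring
    have hc2 : Continuous fun s => (conj c * γ' s).im :=
      Complex.continuous_im.comp (continuous_const.mul hc)
    have hc3 : Continuous fun s => (conj (δ s) * γ' s).im := Complex.continuous_im.comp hcd
    simp_rw [e1]
    rw [intervalIntegral.integral_add (hc3.intervalIntegrable _ _) (hc2.intervalIntegrable _ _)]
    have e2 : ∫ s in (0:ℝ)..(2 * π), (conj c * γ' s).im = 0 := by
      have e3 : ∫ s in (0:ℝ)..(2 * π), (conj c * γ' s).im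
          = (∫ s in (0:ℝ)..(2 * π), conj c * γ' s).im := by
        have := Complex.imCLM.intervalIntegral_comp_comm (μ := volume)
          ((continuous_const.mul hc).intervalIntegrable (0:ℝ) (2 * π) : IntervalIntegrable
            (fun s => conj c * γ' s) volume 0 (2 * π))
        simpa using this
      rw [e3, intervalIntegral.integral_const_mul, hγ'0, mul_zero, Complex.zero_im]
    rw [e2, add_zero]
  rw [himeq]
  have hpt : ∀ s, (conj (δ s) * γ' s).im ≤ (‖δ s‖ ^ 2 + ‖γ' s‖ ^ 2) / 2 := by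
    intro s
    have h1 : (conj (δ s) * γ' s).im ≤ ‖conj (δ s) * γ' s‖ :=
      (le_abs_self _).trans (Complex.abs_im_le_norm _)
    rw [norm_mul, Complex.norm_conj] at h1
    nlinarith [sq_nonneg (‖δ s‖ - ‖γ' s‖)]
  have i1 : Continuous fun s => ‖δ s‖ ^ 2 := (hδc.norm).pow 2
  have i2 : Continuous fun s => ‖γ' s‖ ^ 2 := (hc.norm).pow 2
  calc ∫ s in (0:ℝ)..(2 * π), (conj (δ s) * γ' s).im
      ≤ ∫ s in (0:ℝ)..(2 * π), (‖δ s‖ ^ 2 + ‖γ' s‖ ^ 2) / 2 := by
        apply intervalIntegral.integral_mono_on hab.le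
          ((Complex.continuous_im.comp hcd).intervalIntegrable _ _)
          (((i1.add i2).div_const 2).intervalIntegrable _ _)
        intro s _
        exact hpt s
    _ = ((∫ s in (0:ℝ)..(2 * π), ‖δ s‖ ^ 2) + ∫ s in (0:ℝ)..(2 * π), ‖γ' s‖ ^ 2) / 2 := by
        rw [intervalIntegral.integral_div, intervalIntegral.integral_add
          (i1.intervalIntegrable _ _) (i2.intervalIntegrable _ _)]
    _ ≤ ∫ s in (0:ℝ)..(2 * π), ‖γ' s‖ ^ 2 := by linarith

end J1888

alias wirt := J1888.wirt

end CM
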