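import Mathlib
import Pool.Agent.Helper714.CM.Defs
import Pool.Agent.Helper714.CM.J1888

open MeasureTheory Complex Filter Topology Set Metric
open scoped ComplexConjugate Real

noncomputable section

namespace CM

namespace J1889

/-- TARGET 1 -/
theorem wirt_weighted (Γ Γ' : ℝ → ℂ) (h : ∀ s, HasDerivAt Γ (Γ' s) s) (hc : Continuous Γ')
    (hp : Function.Periodic Γ (2 * π)) (ρ : ℝ → ℝ) (hρ : Continuous ρ) (hpos : ∀ s, 0 < ρ s)
    (hρp : Function.Periodic ρ (2 * π)) :
    (2 * π) * ∫ s in (0:ℝ)..(2 * π), (conj (Γ s) * Γ' s).im ≤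
      (∫ s in (0:ℝ)..(2 * π), ρ s) * ∫ s in (0:ℝ)..(2 * π), ‖Γ' s‖ ^ 2 / ρ s := by
  have h2pi : (0:ℝ) < 2 * π := by positivity
  set S : ℝ := ∫ s in (0:ℝ)..(2 * π), ρ s with hS
  have hSpos : 0 < S := intervalIntegral.intervalIntegral_pos_of_pos (hρ.intervalIntegrable _ _) hpos h2pi
  set φ : ℝ → ℝ := fun θ => (2 * π / S) * ∫ s in (0:ℝ)..θ, ρ s with hφ
  have hφd : ∀ θ, HasDerivAt φ ((2 * π / S) * ρ θ) θ := by
    intro θ
    exact (intervalIntegral.integral_hasDerivAt_right (hρ.intervalIntegrable _ _)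
      (hρ.stronglyMeasurableAtFilter _ _) hρ.continuousAt).const_mul _
  have hφ' : ∀ θ, 0 < (2 * π / S) * ρ θ := fun θ => by
    have := hpos θ
    positivity
  have hφmono : StrictMono φ := by
    apply strictMono_of_deriv_pos
    intro θ
    rw [(hφd θ).deriv]
    exact hφ' θ
  have hφc : Continuous φ := continuous_iff_continuousAt.2 (fun θ => (hφd θ).continuousAt)
  have hφ0 : φ 0 = 0 := by simp [hφ]
  have hφp : ∀ θ, φ (θ + 2 * π) = φ θ + 2 * π := by
    intro θ
    show (2 * π / S) * ∫ s in (0:ℝ)..(θ + 2 * π), ρ s = (2 * π / S) * (∫ s in (0:ℝ)..θ, ρ s) + 2 * π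
    have h1 := intervalIntegral.integral_add_adjacent_intervals (hρ.intervalIntegrable (μ := volume) 0 θ)
      (hρ.intervalIntegrable (μ := volume) θ (θ + 2 * π))
    have h2 := hρp.intervalIntegral_add_eq θ 0
    rw [zero_add] at h2
    rw [← h1, h2, ← hS]
    field_simp
  have hφn : ∀ n : ℕ, φ (n * (2 * π)) = n * (2 * π) := by
    intro n
    induction n with
    | zero => simp [hφ0]
    | succ n ih =>
      have e : ((n + 1 : ℕ) : ℝ) * (2 * π) = (n : ℝ) * (2 * π) + 2 * π := by push_cast; ring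
      rw [e, hφp, ih]
  have hφn' : ∀ n : ℕ, φ (-(n * (2 * π))) = -(n * (2 * π)) := by
    intro n
    induction n with
    | zero => simp [hφ0]
    | succ n ih =>
      have h1 := hφp (-(((n + 1 : ℕ) : ℝ) * (2 * π)))
      have e : -(((n + 1 : ℕ) : ℝ) * (2 * π)) + 2 * π = -((n : ℝ) * (2 * π)) := by push_cast; ring
      rw [e, ih] at h1
      push_cast at h1 ⊢
      linarith
  have htop : Tendsto φ atTop atTop := by
    rw [tendsto_atTop_atTop]
    intro b
    obtain ⟨n, hn⟩ := exists_nat_ge (b / (2 * π))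
    refine ⟨n * (2 * π), fun a ha => ?_⟩
    calc b ≤ n * (2 * π) := by rwa [div_le_iff₀ h2pi] at hn
      _ = φ (n * (2 * π)) := (hφn n).symm
      _ ≤ φ a := hφmono.monotone ha
  have hbot : Tendsto φ atBot atBot := by
    rw [tendsto_atBot_atBot]
    intro b
    obtain ⟨n, hn⟩ := exists_nat_ge (-b / (2 * π))
    refine ⟨-(n * (2 * π)), fun a ha => ?_⟩
    calc φ a ≤ φ (-(n * (2 * π))) := hφmono.monotone ha
      _ = -(n * (2 * π)) := hφn' n
      _ ≤ b := by
        rw [div_le_iff₀ h2pi] at hn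
        linarith
  have hsurj : Function.Surjective φ := hφc.surjective htop hbot
  set e := hφmono.orderIsoOfSurjective φ hsurj with he
  set ψ : ℝ → ℝ := fun s => e.symm s with hψ
  have hφψ : ∀ s, φ (ψ s) = s := by
    intro s
    exact e.apply_symm_apply s
  have hψφ : ∀ s, ψ (φ s) = s := by
    intro s
    exact e.symm_apply_apply s
  have hψc : Continuous ψ := e.symm.continuous
  set ψ' : ℝ → ℝ := fun s => ((2 * π / S) * ρ (ψ s))⁻¹ with hψ'
  have hψd : ∀ s, HasDerivAt ψ (ψ' s) s := by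
    intro s
    exact HasDerivAt.of_local_left_inverse hψc.continuousAt (hφd (ψ s)) (hφ' _).ne'
      (Eventually.of_forall hφψ)
  have hψ'c : Continuous ψ' := by
    apply Continuous.inv₀ (by fun_prop)
    intro s
    exact (hφ' _).ne'
  have hψp : ∀ s, ψ (s + 2 * π) = ψ s + 2 * π := by
    intro s
    apply hφmono.injective
    rw [hφψ, hφp, hφψ]
  have hψ0 : ψ 0 = 0 := by
    apply hφmono.injective
    rw [hφψ, hφ0]
  have hψ2 : ψ (2 * π) = 2 * π := by
    have := hψp 0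
    rw [zero_add, hψ0, zero_add] at this
    exact this
  have hw := wirt (Γ ∘ ψ) (fun s => ψ' s • Γ' (ψ s))
    (fun s => (h (ψ s)).scomp s (hψd s)) (by fun_prop) (by
      intro s
      show Γ (ψ (s + 2 * π)) = Γ (ψ s)
      rw [hψp, hp])
  have hΓc : Continuous Γ := continuous_iff_continuousAt.2 (fun θ => (h θ).continuousAt)
  have c1 : (∫ s in (0:ℝ)..(2 * π), (conj ((Γ ∘ ψ) s) * (ψ' s • Γ' (ψ s))).im) =
      ∫ s in (0:ℝ)..(2 * π), (conj (Γ s) * Γ' s).im := by
    have h1 := intervalIntegral.integral_comp_mul_deriv (a := 0) (b := 2 * π) (f := ψ) (f' := ψ')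
      (g := fun θ => (conj (Γ θ) * Γ' θ).im) (fun x _ => hψd x) hψ'c.continuousOn (by fun_prop)
    rw [hψ0, hψ2] at h1
    rw [← h1]
    apply intervalIntegral.integral_congr
    intro s _
    show (conj (Γ (ψ s)) * (ψ' s • Γ' (ψ s))).im = (conj (Γ (ψ s)) * Γ' (ψ s)).im * ψ' s
    rw [Complex.real_smul, mul_left_comm, Complex.im_ofReal_mul]
    ring
  have c2 : (∫ s in (0:ℝ)..(2 * π), ‖ψ' s • Γ' (ψ s)‖ ^ 2) =
      (S / (2 * π)) * ∫ s in (0:ℝ)..(2 * π), ‖Γ' s‖ ^ 2 / ρ s := by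
    have h1 := intervalIntegral.integral_comp_mul_deriv (a := 0) (b := 2 * π) (f := ψ) (f' := ψ')
      (g := fun θ => (S / (2 * π)) * (‖Γ' θ‖ ^ 2 / ρ θ)) (fun x _ => hψd x) hψ'c.continuousOn (by
        apply Continuous.mul continuous_const
        apply Continuous.div (by fun_prop) hρ
        intro s; exact (hpos s).ne')
    rw [hψ0, hψ2] at h1
    rw [← intervalIntegral.integral_const_mul, ← h1]
    apply intervalIntegral.integral_congr
    intro s _
    show ‖ψ' s • Γ' (ψ s)‖ ^ 2 = (S / (2 * π)) * (‖Γ' (ψ s)‖ ^ 2 / ρ (ψ s)) * ψ' s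
    rw [norm_smul, mul_pow, Real.norm_eq_abs, sq_abs]
    simp only [hψ']
    have := (hpos (ψ s)).ne'
    field_simp
  rw [c1, c2] at hw
  calc (2 * π) * ∫ s in (0:ℝ)..(2 * π), (conj (Γ s) * Γ' s).im
      ≤ (2 * π) * ((S / (2 * π)) * ∫ s in (0:ℝ)..(2 * π), ‖Γ' s‖ ^ 2 / ρ s) :=
        mul_le_mul_of_nonneg_left hw h2pi.le
    _ = _ := by field_simp

/-- TARGET 2: isoperimetric inequality for closed `C^1` curves -/
theorem isoper (Γ Γ' : ℝ → ℂ) (h : ∀ s, HasDerivAt Γ (Γ' s) s) (hc : Continuous Γ')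
    (hp : Function.Periodic Γ (2 * π)) :
    (2 * π) * ∫ s in (0:ℝ)..(2 * π), (conj (Γ s) * Γ' s).im ≤
      (∫ s in (0:ℝ)..(2 * π), ‖Γ' s‖) ^ 2 := by
  have h2pi : (0:ℝ) < 2 * π := by positivity
  have hp' : Function.Periodic Γ' (2 * π) := by
    intro s
    have h1 : HasDerivAt (fun x => Γ (x + 2 * π)) (Γ' (s + 2 * π)) s := (h (s + 2 * π)).comp_add_const s (2 * π)
    have h2 : (fun x => Γ (x + 2 * π)) = Γ := funext hp
    rw [h2] at h1
    exact h1.unique (h s)
  set L : ℝ := ∫ s in (0:ℝ)..(2 * π), ‖Γ' s‖ with hL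
  have hL0 : 0 ≤ L := intervalIntegral.integral_nonneg h2pi.le (fun _ _ => norm_nonneg _)
  apply le_of_forall_pos_le_add
  intro δ hδ
  set ε : ℝ := δ / (2 * π * L + 1) with hε
  have hε0 : 0 < ε := by positivity
  have h1 := wirt_weighted Γ Γ' h hc hp (fun s => ‖Γ' s‖ + ε) (by fun_prop)
    (fun s => by positivity) (fun s => by show ‖Γ' (s + 2 * π)‖ + ε = _; rw [hp' s])
  have h2 : (∫ s in (0:ℝ)..(2 * π), (‖Γ' s‖ + ε)) = L + 2 * π * ε := by
    rw [intervalIntegral.integral_add (hc.norm.intervalIntegrable _ _) (by simp)]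
    simp
    rfl
  have h3 : (∫ s in (0:ℝ)..(2 * π), ‖Γ' s‖ ^ 2 / (‖Γ' s‖ + ε)) ≤ L := by
    apply intervalIntegral.integral_mono_on h2pi.le
    · apply Continuous.intervalIntegrable
      apply Continuous.div (by fun_prop) (by fun_prop)
      intro s
      positivity
    · exact hc.norm.intervalIntegrable _ _
    · intro s _
      rw [div_le_iff₀ (by positivity)]
      nlinarith [norm_nonneg (Γ' s)]
  calc (2 * π) * ∫ s in (0:ℝ)..(2 * π), (conj (Γ s) * Γ' s).im
      ≤ (∫ s in (0:ℝ)..(2 * π), (‖Γ' s‖ + ε)) * ∫ s in (0:ℝ)..(2 * π), ‖Γ' s‖ ^ 2 / (‖Γ' s‖ + ε) := h1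
    _ ≤ (L + 2 * π * ε) * L := by
        rw [h2]
        exact mul_le_mul_of_nonneg_left h3 (by positivity)
    _ = L ^ 2 + (2 * π * L) * ε := by ring
    _ ≤ L ^ 2 + δ := by
        have : (2 * π * L) * ε ≤ δ := by
          rw [hε, mul_div_assoc', div_le_iff₀ (by positivity)]
          nlinarith [mul_nonneg h2pi.le hL0]
        linarith

end J1889

alias wirt_weighted := J1889.wirt_weighted
alias isoper := J1889.isoper

end CM
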