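import Mathlib
import Pool.Agent.Helper714.CM.Defs
import Pool.Agent.Helper714.CM.J1889

open MeasureTheory Complex Filter Topology Set Metric
open scoped ComplexConjugate Real

noncomputable section

namespace CM

namespace J1905

theorem zero_of_int (f : ℝ → ℝ) (hf : Continuous f) (h0 : ∀ s, 0 ≤ f s)
    (hi : ∫ s in (0:ℝ)..(2 * π), f s = 0) : ∀ s ∈ Set.Icc (0:ℝ) (2 * π), f s = 0 := by
  intro s hs
  by_contra hne
  have hpos : 0 < f s := lt_of_le_of_ne (h0 s) (Ne.symm hne)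
  have := intervalIntegral.integral_pos (a := 0) (b := 2 * π) (f := f) (by positivity)
    hf.continuousOn (fun x _ => h0 x) ⟨s, hs, hpos⟩
  linarith

theorem isoper_part (F K : ℝ → ℂ) (hF : ∀ s, HasDerivAt F (Complex.I * K s) s) (hK : Continuous K)
    (hFp : Function.Periodic F (2 * π)) (hKp : Function.Periodic K (2 * π)) (E : ℝ) (hE : 0 < E)
    (hEK : ∫ s in (0:ℝ)..(2 * π), (conj (F s) * K s).re = 2 * π * E) :
    (∫ s in (0:ℝ)..(2 * π), Real.exp (‖F s‖ ^ 2 / E) * (conj (F s) * K s).re) * (2 * π * E) ≤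
      (∫ s in (0:ℝ)..(2 * π), ‖K s‖ * (‖F s‖ * Real.exp (‖F s‖ ^ 2 / (2 * E)))) ^ 2 := by
  have hFc : Continuous F := continuous_iff_continuousAt.2 (fun s => (hF s).continuousAt)
  set y : ℝ → ℝ := fun s => (conj (F s) * K s).re with hy
  have hyc : Continuous y := by
    apply Complex.continuous_re.comp
    exact (Complex.continuous_conj.comp hFc).mul hK
  have hyp : Function.Periodic y (2 * π) := by
    intro s; simp only [hy, hFp s, hKp s]
  set Θ : ℝ → ℝ := fun s => (1 / E) * ∫ x in (0:ℝ)..s, y x with hΘ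
  have hΘd : ∀ s, HasDerivAt Θ ((1 / E) * y s) s := by
    intro s
    exact ((hyc.integral_hasStrictDerivAt 0 s).hasDerivAt).const_mul (1 / E)
  have hΘp : ∀ s, Θ (s + 2 * π) = Θ s + 2 * π := by
    intro s
    simp only [hΘ]
    have h1 : ∫ x in (0:ℝ)..(s + 2 * π), y x = (∫ x in (0:ℝ)..s, y x) + 2 * π * E := by
      rw [← intervalIntegral.integral_add_adjacent_intervals (b := s)
        (hyc.intervalIntegrable _ _) (hyc.intervalIntegrable _ _)]
      congr 1
      rw [← hEK]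
      have := hyp.intervalIntegral_add_eq s 0
      rw [this]; simp [hy]
    rw [h1]
    field_simp
  set N : ℝ → ℝ := fun s => Complex.normSq (F s) with hN
  have hNd : ∀ s, HasDerivAt N (-2 * (conj (F s) * K s).im) s := by
    intro s
    have hre : HasDerivAt (fun t => (F t).re) ((Complex.I * K s).re) s := by
      exact (Complex.reCLM.hasFDerivAt.comp_hasDerivAt s (hF s))
    have him : HasDerivAt (fun t => (F t).im) ((Complex.I * K s).im) s := by
      exact (Complex.imCLM.hasFDerivAt.comp_hasDerivAt s (hF s))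
    have h2 := (hre.mul hre).add (him.mul him)
    have h3 : N = (fun t => (F t).re) * (fun t => (F t).re) + (fun t => (F t).im) * (fun t => (F t).im) := by
      funext t; simp [hN, Complex.normSq_apply]
    rw [h3]
    have h4 : -2 * (conj (F s) * K s).im = (Complex.I * K s).re * (F s).re + (F s).re * (Complex.I * K s).re +
        ((Complex.I * K s).im * (F s).im + (F s).im * (Complex.I * K s).im) := by
      simp only [Complex.mul_im, Complex.mul_re, Complex.conj_re, Complex.conj_im, Complex.I_re, Complex.I_im]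
      ring
    rw [h4]
    exact h2
  set Γ : ℝ → ℂ := fun s => Complex.exp ((N s / (2 * E) : ℝ) + (Θ s : ℝ) * Complex.I) with hΓ
  set Γ' : ℝ → ℂ := fun s => Γ s * ((Complex.I / E) * (conj (F s) * K s)) with hΓ'
  have hd : ∀ s, HasDerivAt Γ (Γ' s) s := by
    intro s
    have h1 : HasDerivAt (fun t : ℝ => ((N t / (2 * E) : ℝ) : ℂ))
        (((-2 * (conj (F s) * K s).im) / (2 * E) : ℝ) : ℂ) s :=
      ((hNd s).div_const (2 * E)).ofReal_comp
    have h2 : HasDerivAt (fun t : ℝ => ((Θ t : ℝ) : ℂ) * Complex.I)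
        ((((1 / E) * y s : ℝ) : ℂ) * Complex.I) s :=
      ((hΘd s).ofReal_comp).mul_const Complex.I
    have h3 := (h1.add h2).cexp
    have h4 : Γ' s = cexp ((((fun t : ℝ => ((N t / (2 * E) : ℝ) : ℂ)) + fun t : ℝ => ((Θ t : ℝ) : ℂ) * Complex.I) s)) *
      (((-2 * ((starRingEnd ℂ) (F s) * K s).im / (2 * E) : ℝ) : ℂ) + ((1 / E * y s : ℝ) : ℂ) * Complex.I) := by
      change Γ s * ((Complex.I / E) * (conj (F s) * K s)) = Γ s * _
      congr 1
      have hw : conj (F s) * K s = ((conj (F s) * K s).re : ℂ) + ((conj (F s) * K s).im : ℂ) * Complex.I :=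
        (Complex.re_add_im _).symm
      simp only [hy]
      generalize (conj (F s) * K s) = W at hw ⊢
      rw [hw]
      have hEC : (E : ℂ) ≠ 0 := by exact_mod_cast hE.ne'
      push_cast
      simp only [Complex.add_re, Complex.add_im, Complex.ofReal_re, Complex.ofReal_im, Complex.mul_re, Complex.mul_im,
        Complex.I_re, Complex.I_im]
      field_simp
      ring_nf
      simp only [Complex.I_sq]
      push_cast
      ring
    rw [h4]
    exact h3
  have hΓc : Continuous Γ := continuous_iff_continuousAt.2 (fun s => (hd s).continuousAt)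
  have hΓ'c : Continuous Γ' := by
    simp only [hΓ']
    exact hΓc.mul (continuous_const.mul ((Complex.continuous_conj.comp hFc).mul hK))
  have hper : Function.Periodic Γ (2 * π) := by
    intro s
    simp only [hΓ]
    rw [hΘp s]
    have : N (s + 2 * π) = N s := by simp only [hN, hFp s]
    rw [this]
    push_cast
    rw [add_mul, ← add_assoc, Complex.exp_add]
    rw [Complex.exp_two_pi_mul_I, mul_one]
  have hnΓ : ∀ s, ‖Γ s‖ = Real.exp (‖F s‖ ^ 2 / (2 * E)) := by
    intro s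
    simp only [hΓ]
    rw [Complex.norm_exp]
    congr 1
    have : (((N s / (2 * E) : ℝ) : ℂ) + ((Θ s : ℝ) : ℂ) * Complex.I).re = N s / (2 * E) := by
      simp only [Complex.add_re, Complex.ofReal_re, Complex.mul_re, Complex.ofReal_im, Complex.I_re, Complex.I_im]
      ring
    rw [this]
    simp only [hN, Complex.normSq_eq_norm_sq]
  have hnΓ' : ∀ s, ‖Γ' s‖ = (1 / E) * (‖K s‖ * (‖F s‖ * Real.exp (‖F s‖ ^ 2 / (2 * E)))) := by
    intro s
    simp only [hΓ', norm_mul, norm_div, Complex.norm_I, Complex.norm_real, RCLike.norm_conj, hnΓ]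
    rw [Real.norm_of_nonneg hE.le]
    ring
  have him : ∀ s, (conj (Γ s) * Γ' s).im = (1 / E) * (Real.exp (‖F s‖ ^ 2 / E) * y s) := by
    intro s
    have h1 : conj (Γ s) * Γ' s = ((‖Γ s‖ ^ 2 : ℝ) : ℂ) * ((Complex.I / E) * (conj (F s) * K s)) := by
      simp only [hΓ']
      rw [← mul_assoc, ← Complex.normSq_eq_conj_mul_self, Complex.normSq_eq_norm_sq]
    rw [h1, Complex.im_ofReal_mul, hnΓ]
    have h2 : ((Complex.I / E) * (conj (F s) * K s)).im = (1 / E) * y s := by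
      have : (Complex.I / (E:ℂ)) = (((1 / E : ℝ) : ℂ)) * Complex.I := by push_cast; ring
      rw [this, mul_assoc, Complex.im_ofReal_mul]
      simp only [hy, Complex.mul_im, Complex.mul_re, Complex.I_re, Complex.I_im]
      ring
    rw [h2]
    have h3 : Real.exp (‖F s‖ ^ 2 / (2 * E)) ^ 2 = Real.exp (‖F s‖ ^ 2 / E) := by
      rw [← Real.exp_nat_mul]
      congr 1
      push_cast
      field_simp
    rw [h3]
    ring
  have hiso := isoper Γ Γ' hd hΓ'c hper
  simp only [him, hnΓ', intervalIntegral.integral_const_mul] at hiso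
  set A := ∫ s in (0:ℝ)..(2 * π), Real.exp (‖F s‖ ^ 2 / E) * y s with hA
  set B := ∫ s in (0:ℝ)..(2 * π), ‖K s‖ * (‖F s‖ * Real.exp (‖F s‖ ^ 2 / (2 * E))) with hB
  have h5 : 2 * π * (1 / E * A) * E ^ 2 ≤ (1 / E * B) ^ 2 * E ^ 2 :=
    mul_le_mul_of_nonneg_right hiso (by positivity)
  have h6 : 2 * π * (1 / E * A) * E ^ 2 = A * (2 * π * E) := by field_simp
  have h7 : (1 / E * B) ^ 2 * E ^ 2 = B ^ 2 := by field_simp
  rw [h6, h7] at h5
  exact h5

/-- the Cauchy-Schwarz data -/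
theorem cs_part (F K : ℝ → ℂ) (hF : ∀ s, HasDerivAt F (Complex.I * K s) s) (hK : Continuous K)
    (E : ℝ) (hE : 0 < E)
    (hEK : ∫ s in (0:ℝ)..(2 * π), (conj (F s) * K s).re = 2 * π * E) :
    0 < (∫ s in (0:ℝ)..(2 * π), Real.exp (‖F s‖ ^ 2 / E) * ‖F s‖ ^ 2) ∧
    ∫ s in (0:ℝ)..(2 * π), (‖K s‖ - (∫ s in (0:ℝ)..(2 * π), ‖K s‖ * (‖F s‖ * Real.exp (‖F s‖ ^ 2 / (2 * E)))) /
        (∫ s in (0:ℝ)..(2 * π), Real.exp (‖F s‖ ^ 2 / E) * ‖F s‖ ^ 2) *
        (‖F s‖ * Real.exp (‖F s‖ ^ 2 / (2 * E)))) ^ 2 =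
      (∫ s in (0:ℝ)..(2 * π), ‖K s‖ ^ 2) -
      (∫ s in (0:ℝ)..(2 * π), ‖K s‖ * (‖F s‖ * Real.exp (‖F s‖ ^ 2 / (2 * E)))) ^ 2 /
        (∫ s in (0:ℝ)..(2 * π), Real.exp (‖F s‖ ^ 2 / E) * ‖F s‖ ^ 2) := by
  have hFc : Continuous F := continuous_iff_continuousAt.2 (fun s => (hF s).continuousAt)
  set u : ℝ → ℝ := fun s => ‖K s‖ with hu
  set w : ℝ → ℝ := fun s => ‖F s‖ * Real.exp (‖F s‖ ^ 2 / (2 * E)) with hw
  have huc : Continuous u := hK.norm
  have hwc : Continuous w := by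
    simp only [hw]
    exact hFc.norm.mul (Real.continuous_exp.comp ((hFc.norm.pow 2).div_const _))
  have hw2 : ∀ s, Real.exp (‖F s‖ ^ 2 / E) * ‖F s‖ ^ 2 = w s ^ 2 := by
    intro s
    simp only [hw]
    rw [mul_pow, ← Real.exp_nat_mul, mul_comm]
    congr 2
    push_cast
    field_simp
  simp only [hw2]
  have hpos : 0 < ∫ s in (0:ℝ)..(2 * π), w s ^ 2 := by
    have hnn : 0 ≤ ∫ s in (0:ℝ)..(2 * π), w s ^ 2 :=
      intervalIntegral.integral_nonneg (by positivity) (fun s _ => by positivity)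
    refine lt_of_le_of_ne hnn (fun h0 => ?_)
    have hz := zero_of_int (fun s => w s ^ 2) (hwc.pow 2) (fun s => by positivity) h0.symm
    have h1 : ∫ s in (0:ℝ)..(2 * π), (conj (F s) * K s).re = 0 := by
      rw [intervalIntegral.integral_congr (g := fun _ => (0:ℝ))]
      · simp
      · intro s hs
        rw [Set.uIcc_of_le (by positivity)] at hs
        have h2 := hz s hs
        have h3 : w s = 0 := by simpa using h2
        have h4 : F s = 0 := by
          simp only [hw] at h3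
          rcases mul_eq_zero.1 h3 with h | h
          · simpa using h
          · exact absurd h (Real.exp_pos _).ne'
        simp [h4]
    rw [h1] at hEK
    have : 0 < 2 * π * E := by positivity
    linarith
  refine ⟨hpos, ?_⟩
  set B := ∫ s in (0:ℝ)..(2 * π), w s ^ 2 with hB
  set A := ∫ s in (0:ℝ)..(2 * π), u s * w s with hA
  have h1 : ∀ s, (u s - A / B * w s) ^ 2 = (u s ^ 2 - 2 * (A / B) * (u s * w s)) + (A / B) ^ 2 * w s ^ 2 := by
    intro s; ring
  rw [show (fun s => (u s - A / B * w s) ^ 2) = (fun s => (u s ^ 2 - 2 * (A / B) * (u s * w s)) + (A / B) ^ 2 * w s ^ 2) from funext h1]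
  have c1 : Continuous fun s => u s ^ 2 := huc.pow 2
  have c2 : Continuous fun s => 2 * (A / B) * (u s * w s) := continuous_const.mul (huc.mul hwc)
  have c3 : Continuous fun s => (A / B) ^ 2 * w s ^ 2 := continuous_const.mul (hwc.pow 2)
  have c12 : Continuous fun s => u s ^ 2 - 2 * (A / B) * (u s * w s) := c1.sub c2
  rw [intervalIntegral.integral_add (c12.intervalIntegrable _ _) (c3.intervalIntegrable _ _),
    intervalIntegral.integral_sub (c1.intervalIntegrable _ _) (c2.intervalIntegrable _ _),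
    intervalIntegral.integral_const_mul, intervalIntegral.integral_const_mul, ← hA, ← hB]
  field_simp
  ring

/-- TARGET 1: the curve inequality. `F : ℝ → ℂ` closed curve, `K` continuous periodic with
`F' = i K`, total `∫ Re (conj F * K) = 2π E`, `E > 0`. -/
theorem key_ineq (F K : ℝ → ℂ) (hF : ∀ s, HasDerivAt F (Complex.I * K s) s) (hK : Continuous K)
    (hFp : Function.Periodic F (2 * π)) (hKp : Function.Periodic K (2 * π)) (E : ℝ) (hE : 0 < E)
    (hEK : ∫ s in (0:ℝ)..(2 * π), (conj (F s) * K s).re = 2 * π * E) :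
    (∫ s in (0:ℝ)..(2 * π), Real.exp (‖F s‖ ^ 2 / E) * (conj (F s) * K s).re) * (2 * π * E) ≤
      (∫ s in (0:ℝ)..(2 * π), ‖K s‖ ^ 2) *
        ∫ s in (0:ℝ)..(2 * π), Real.exp (‖F s‖ ^ 2 / E) * ‖F s‖ ^ 2 := by
  refine (isoper_part F K hF hK hFp hKp E hE hEK).trans ?_
  obtain ⟨hpos, hcs⟩ := cs_part F K hF hK E hE hEK
  set B := ∫ s in (0:ℝ)..(2 * π), Real.exp (‖F s‖ ^ 2 / E) * ‖F s‖ ^ 2 with hB
  set A := ∫ s in (0:ℝ)..(2 * π), ‖K s‖ * (‖F s‖ * Real.exp (‖F s‖ ^ 2 / (2 * E))) with hA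
  have hnn : 0 ≤ ∫ s in (0:ℝ)..(2 * π), (‖K s‖ - A / B * (‖F s‖ * Real.exp (‖F s‖ ^ 2 / (2 * E)))) ^ 2 :=
    intervalIntegral.integral_nonneg (by positivity) (fun s _ => by positivity)
  rw [hcs] at hnn
  have : A ^ 2 / B ≤ ∫ s in (0:ℝ)..(2 * π), ‖K s‖ ^ 2 := by linarith
  rwa [div_le_iff₀ hpos] at this

/-- TARGET 2: equality case gives proportionality (from Cauchy-Schwarz) -/
theorem key_ineq_eq (F K : ℝ → ℂ) (hF : ∀ s, HasDerivAt F (Complex.I * K s) s)
    (hK : Continuous K)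
    (hFp : Function.Periodic F (2 * π)) (hKp : Function.Periodic K (2 * π)) (E : ℝ) (hE : 0 < E)
    (hEK : ∫ s in (0:ℝ)..(2 * π), (conj (F s) * K s).re = 2 * π * E)
    (heq : (∫ s in (0:ℝ)..(2 * π), Real.exp (‖F s‖ ^ 2 / E) * (conj (F s) * K s).re)
        * (2 * π * E) =
      (∫ s in (0:ℝ)..(2 * π), ‖K s‖ ^ 2) *
        ∫ s in (0:ℝ)..(2 * π), Real.exp (‖F s‖ ^ 2 / E) * ‖F s‖ ^ 2) :
    ∃ C : ℝ, ∀ s : ℝ, ‖K s‖ = C * (‖F s‖ * Real.exp (‖F s‖ ^ 2 / (2 * E))) := by
  have hle := isoper_part F K hF hK hFp hKp E hE hEK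
  have hFc : Continuous F := continuous_iff_continuousAt.2 (fun s => (hF s).continuousAt)
  obtain ⟨hpos, hcs⟩ := cs_part F K hF hK E hE hEK
  rw [heq] at hle
  set B := ∫ s in (0:ℝ)..(2 * π), Real.exp (‖F s‖ ^ 2 / E) * ‖F s‖ ^ 2 with hB
  set A := ∫ s in (0:ℝ)..(2 * π), ‖K s‖ * (‖F s‖ * Real.exp (‖F s‖ ^ 2 / (2 * E))) with hA
  have hc : Continuous (fun s => (‖K s‖ - A / B * (‖F s‖ * Real.exp (‖F s‖ ^ 2 / (2 * E)))) ^ 2) := by
    apply Continuous.pow
    exact hK.norm.sub (continuous_const.mul (hFc.norm.mul (Real.continuous_exp.comp ((hFc.norm.pow 2).div_const _))))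
  have hnn : 0 ≤ ∫ s in (0:ℝ)..(2 * π), (‖K s‖ - A / B * (‖F s‖ * Real.exp (‖F s‖ ^ 2 / (2 * E)))) ^ 2 :=
    intervalIntegral.integral_nonneg (by positivity) (fun s _ => by positivity)
  have hz : ∫ s in (0:ℝ)..(2 * π), (‖K s‖ - A / B * (‖F s‖ * Real.exp (‖F s‖ ^ 2 / (2 * E)))) ^ 2 = 0 := by
    apply le_antisymm _ hnn
    rw [hcs]
    have : (∫ s in (0:ℝ)..(2 * π), ‖K s‖ ^ 2) ≤ A ^ 2 / B := by
      rw [le_div_iff₀ hpos]; exact hle
    linarith
  have h0 := zero_of_int _ hc (fun s => by positivity) hz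
  refine ⟨A / B, fun s => ?_⟩
  have hper : Function.Periodic (fun s => ‖K s‖ - A / B * (‖F s‖ * Real.exp (‖F s‖ ^ 2 / (2 * E)))) (2 * π) := by
    intro t
    simp only [hFp t, hKp t]
  obtain ⟨t, ht, hst⟩ := hper.exists_mem_Ico₀ (by positivity) s
  have h1 := h0 t ⟨ht.1, ht.2.le⟩
  have h2 : ‖K t‖ - A / B * (‖F t‖ * Real.exp (‖F t‖ ^ 2 / (2 * E))) = 0 := by
    exact pow_eq_zero_iff (by norm_num) |>.1 h1
  have h3 : ‖K s‖ - A / B * (‖F s‖ * Real.exp (‖F s‖ ^ 2 / (2 * E))) = 0 := by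
    rw [← h2]; exact hst
  linarith

end J1905

alias key_ineq := J1905.key_ineq
alias key_ineq_eq := J1905.key_ineq_eq

end CM
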