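import Mathlib
import Pool.Agent.Helper714.CM.Defs

open MeasureTheory Complex Filter Topology Set Metric
open scoped ComplexConjugate Real

noncomputable section

namespace CM

namespace J1906

/-- TARGET 0: differentiation under the integral sign for jointly continuous derivative -/
theorem hasDerivAt_param (F F' : ℝ → ℝ → ℝ) (a b r₀ δ : ℝ) (hδ : 0 < δ)
    (hF : ∀ r ∈ ball r₀ δ, ∀ θ, HasDerivAt (fun r => F r θ) (F' r θ) r)
    (hcF : ∀ r ∈ ball r₀ δ, Continuous (F r))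
    (hcF' : ContinuousOn (Function.uncurry F') (ball r₀ δ ×ˢ univ)) :
    HasDerivAt (fun r => ∫ θ in a..b, F r θ) (∫ θ in a..b, F' r₀ θ) r₀ := by
  have hδ2 : 0 < δ / 2 := by positivity
  have hsub : closedBall r₀ (δ / 2) ⊆ ball r₀ δ := closedBall_subset_ball (by linarith)
  obtain ⟨C, hC⟩ := ((isCompact_closedBall r₀ (δ / 2)).prod (isCompact_uIcc (a := a) (b := b))).exists_bound_of_continuousOn
    (hcF'.mono (prod_mono hsub (subset_univ _)))
  have hF'c : ∀ r ∈ ball r₀ δ, Continuous (F' r) := by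
    intro r hr
    have h1 : Continuous fun θ : ℝ => ((r, θ) : ℝ × ℝ) := by fun_prop
    have h2 := hcF'.comp h1.continuousOn (s := univ) (fun θ _ => ⟨hr, mem_univ _⟩)
    exact continuousOn_univ.mp h2
  refine (intervalIntegral.hasDerivAt_integral_of_dominated_loc_of_deriv_le
    (s := ball r₀ (δ / 2)) (bound := fun _ => C) (ball_mem_nhds _ hδ2) ?_ ?_ ?_ ?_ ?_ ?_).2
  · filter_upwards [ball_mem_nhds r₀ hδ] with r hr
    exact (hcF r hr).aestronglyMeasurable
  · exact (hcF r₀ (mem_ball_self hδ)).intervalIntegrable _ _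
  · exact (hF'c r₀ (mem_ball_self hδ)).aestronglyMeasurable
  · refine Filter.Eventually.of_forall fun θ hθ r hr => ?_
    exact hC (r, θ) ⟨ball_subset_closedBall hr, uIoc_subset_uIcc hθ⟩
  · exact intervalIntegrable_const
  · refine Filter.Eventually.of_forall fun θ _ r hr => ?_
    exact hF r (ball_subset_ball (by linarith) hr) θ

/-- continuity of parametric integrals -/
theorem continuousAt_param (F : ℝ → ℝ → ℝ) (a b r₀ δ : ℝ) (hδ : 0 < δ)
    (hcF : ContinuousOn (Function.uncurry F) (ball r₀ δ ×ˢ univ)) :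
    ContinuousAt (fun r => ∫ θ in a..b, F r θ) r₀ := by
  have hδ2 : 0 < δ / 2 := by positivity
  have hsub : closedBall r₀ (δ / 2) ⊆ ball r₀ δ := closedBall_subset_ball (by linarith)
  obtain ⟨C, hC⟩ := ((isCompact_closedBall r₀ (δ / 2)).prod (isCompact_uIcc (a := a) (b := b))).exists_bound_of_continuousOn
    (hcF.mono (prod_mono hsub (subset_univ _)))
  have hFc : ∀ r ∈ ball r₀ δ, Continuous (F r) := by
    intro r hr
    have h1 : Continuous fun θ : ℝ => ((r, θ) : ℝ × ℝ) := by fun_prop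
    have h2 := hcF.comp h1.continuousOn (s := univ) (fun θ _ => ⟨hr, mem_univ _⟩)
    exact continuousOn_univ.mp h2
  refine intervalIntegral.continuousAt_of_dominated_interval (bound := fun _ => C) ?_ ?_ ?_ ?_
  · filter_upwards [ball_mem_nhds r₀ hδ] with r hr
    exact (hFc r hr).aestronglyMeasurable
  · filter_upwards [ball_mem_nhds r₀ hδ2] with r hr
    refine Filter.Eventually.of_forall fun θ hθ => ?_
    exact hC (r, θ) ⟨ball_subset_closedBall hr, uIoc_subset_uIcc hθ⟩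
  · exact intervalIntegrable_const
  · refine Filter.Eventually.of_forall fun θ _ => ?_
    have h1 : ContinuousAt (Function.uncurry F) (r₀, θ) :=
      hcF.continuousAt ((isOpen_ball.prod isOpen_univ).mem_nhds ⟨mem_ball_self hδ, mem_univ _⟩)
    have h2 : ContinuousAt (fun r : ℝ => ((r, θ) : ℝ × ℝ)) r₀ := by fun_prop
    exact ContinuousAt.comp (f := fun r : ℝ => ((r, θ) : ℝ × ℝ)) h1 h2

/-- `∂_r W` -/
def Wr (f : ℂ → ℂ) (r θ : ℝ) : ℂ :=
  conj (deriv f (circleMap 0 r θ) * Complex.exp (θ * I)) * (circleMap 0 r θ * deriv f (circleMap 0 r θ))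
   + conj (f (circleMap 0 r θ)) * (Complex.exp (θ * I) * deriv f (circleMap 0 r θ)
      + circleMap 0 r θ * (deriv (deriv f) (circleMap 0 r θ) * Complex.exp (θ * I)))

/-- `∂_θ W` -/
def Wth (f : ℂ → ℂ) (r θ : ℝ) : ℂ :=
  conj (deriv f (circleMap 0 r θ) * (circleMap 0 r θ * I)) * (circleMap 0 r θ * deriv f (circleMap 0 r θ))
   + conj (f (circleMap 0 r θ)) * ((circleMap 0 r θ * I) * deriv f (circleMap 0 r θ)
      + circleMap 0 r θ * (deriv (deriv f) (circleMap 0 r θ) * (circleMap 0 r θ * I)))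

lemma cm_eq (r θ : ℝ) : circleMap 0 r θ = r * Complex.exp (θ * I) := by
  simp [circleMap]

lemma cm_mem {r : ℝ} (hr : r ∈ Ioo (0 : ℝ) 1) (θ : ℝ) : circleMap 0 r θ ∈ ball (0 : ℂ) 1 := by
  rw [mem_ball_zero_iff, norm_circleMap_zero, abs_of_pos hr.1]
  exact hr.2

lemma cm_cont : Continuous (fun q : ℝ × ℝ => circleMap 0 q.1 q.2) := by
  unfold circleMap; fun_prop

lemma cm_hasDerivAt_r (r θ : ℝ) : HasDerivAt (fun r : ℝ => circleMap 0 r θ) (Complex.exp (θ * I)) r := by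
  have h1 : HasDerivAt (fun r : ℝ => (r : ℂ)) 1 r := Complex.ofRealCLM.hasDerivAt
  have h2 := h1.mul_const (Complex.exp (θ * I))
  rw [one_mul] at h2
  exact h2.congr_of_eventuallyEq (Filter.Eventually.of_forall fun r => cm_eq r θ)

lemma identity (f : ℂ → ℂ) (r θ : ℝ) :
    r * (Wr f r θ).re = 2 * ‖circleMap 0 r θ * deriv f (circleMap 0 r θ)‖ ^ 2 + (Wth f r θ).im := by
  have h : (r : ℂ) * Wr f r θ = 2 * (conj (circleMap 0 r θ * deriv f (circleMap 0 r θ))
      * (circleMap 0 r θ * deriv f (circleMap 0 r θ))) + (-I) * Wth f r θ := by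
    unfold Wr Wth
    rw [cm_eq]
    generalize deriv f (↑r * cexp (↑θ * I)) = f1
    generalize deriv (deriv f) (↑r * cexp (↑θ * I)) = f2
    generalize f (↑r * cexp (↑θ * I)) = f0
    generalize cexp (↑θ * I) = e
    simp only [map_mul, Complex.conj_I, Complex.conj_ofReal]
    linear_combination (conj f0 * (r * e * f1 + (r * e) ^ 2 * f2)
      - conj f1 * (r * conj e) * (r * e) * f1) * Complex.I_sq
  have h2 := congrArg Complex.re h
  rw [Complex.re_ofReal_mul, Complex.add_re, Complex.conj_mul'] at h2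
  rw [h2]
  have h3 : (2 * ((‖circleMap 0 r θ * deriv f (circleMap 0 r θ)‖ : ℂ)) ^ 2).re
      = 2 * ‖circleMap 0 r θ * deriv f (circleMap 0 r θ)‖ ^ 2 := by
    norm_cast
  rw [h3]
  simp

lemma f_hasDerivAt {f : ℂ → ℂ} (hf : DifferentiableOn ℂ f (ball 0 1)) {z : ℂ} (hz : z ∈ ball (0 : ℂ) 1) :
    HasDerivAt f (deriv f z) z :=
  (hf.differentiableAt (isOpen_ball.mem_nhds hz)).hasDerivAt

/-- general chain rule for `W` along a curve -/
lemma W_chain {f : ℂ → ℂ} (hf : DifferentiableOn ℂ f (ball 0 1)) (c : ℝ → ℂ) (c' : ℂ) (t : ℝ)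
    (hc : HasDerivAt c c' t) (hm : c t ∈ ball (0 : ℂ) 1) :
    HasDerivAt (fun t => conj (f (c t)) * (c t * deriv f (c t)))
      (conj (deriv f (c t) * c') * (c t * deriv f (c t))
        + conj (f (c t)) * (c' * deriv f (c t) + c t * (deriv (deriv f) (c t) * c'))) t := by
  have hf' : DifferentiableOn ℂ (deriv f) (ball 0 1) := hf.deriv isOpen_ball
  have h1 : HasDerivAt (fun t => f (c t)) (deriv f (c t) * c') t :=
    (f_hasDerivAt hf hm).comp t hc
  have h2 : HasDerivAt (fun t => deriv f (c t)) (deriv (deriv f) (c t) * c') t :=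
    (f_hasDerivAt hf' hm).comp t hc
  have h3 : HasDerivAt (fun t => conj (f (c t))) (conj (deriv f (c t) * c')) t := h1.star
  exact h3.mul (hc.mul h2)

lemma W_r {f : ℂ → ℂ} (hf : DifferentiableOn ℂ f (ball 0 1)) {r : ℝ} (hr : r ∈ Ioo (0 : ℝ) 1) (θ : ℝ) :
    HasDerivAt (fun r => Wf f r θ) (Wr f r θ) r :=
  W_chain hf (fun r => circleMap 0 r θ) _ r (cm_hasDerivAt_r r θ) (cm_mem hr θ)

lemma W_th {f : ℂ → ℂ} (hf : DifferentiableOn ℂ f (ball 0 1)) {r : ℝ} (hr : r ∈ Ioo (0 : ℝ) 1) (θ : ℝ) :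
    HasDerivAt (fun θ => Wf f r θ) (Wth f r θ) θ :=
  W_chain hf (fun θ => circleMap 0 r θ) _ θ (hasDerivAt_circleMap 0 r θ) (cm_mem hr θ)

lemma re_hasDerivAt {g : ℝ → ℂ} {g' : ℂ} {t : ℝ} (h : HasDerivAt g g' t) :
    HasDerivAt (fun t => (g t).re) g'.re t :=
  Complex.reCLM.hasFDerivAt.comp_hasDerivAt t h

lemma im_hasDerivAt {g : ℝ → ℂ} {g' : ℂ} {t : ℝ} (h : HasDerivAt g g' t) :
    HasDerivAt (fun t => (g t).im) g'.im t :=
  Complex.imCLM.hasFDerivAt.comp_hasDerivAt t h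

/-- joint continuity of the basic building blocks -/
lemma jc {g : ℂ → ℂ} (hg : ContinuousOn g (ball 0 1)) {s : Set ℝ} (hs : s ⊆ Ioo 0 1) :
    ContinuousOn (fun q : ℝ × ℝ => g (circleMap 0 q.1 q.2)) (s ×ˢ univ) :=
  hg.comp cm_cont.continuousOn (fun q hq => cm_mem (hs hq.1) q.2)

lemma jW {f : ℂ → ℂ} (hf : DifferentiableOn ℂ f (ball 0 1)) {s : Set ℝ} (hs : s ⊆ Ioo 0 1) :
    ContinuousOn (Function.uncurry (Wf f)) (s ×ˢ univ) := by
  have h0 := jc hf.continuousOn hs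
  have h1 := jc (hf.deriv isOpen_ball).continuousOn hs
  have hz : ContinuousOn (fun q : ℝ × ℝ => circleMap 0 q.1 q.2) (s ×ˢ univ) := cm_cont.continuousOn
  exact (Complex.continuous_conj.comp_continuousOn h0).mul (hz.mul h1)

lemma jWr {f : ℂ → ℂ} (hf : DifferentiableOn ℂ f (ball 0 1)) {s : Set ℝ} (hs : s ⊆ Ioo 0 1) :
    ContinuousOn (Function.uncurry (Wr f)) (s ×ˢ univ) := by
  have h0 := jc hf.continuousOn hs
  have h1 := jc (hf.deriv isOpen_ball).continuousOn hs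
  have h2 := jc ((hf.deriv isOpen_ball).deriv isOpen_ball).continuousOn hs
  have hz : ContinuousOn (fun q : ℝ × ℝ => circleMap 0 q.1 q.2) (s ×ˢ univ) := cm_cont.continuousOn
  have he : ContinuousOn (fun q : ℝ × ℝ => Complex.exp (q.2 * I)) (s ×ˢ univ) := by fun_prop
  exact ((Complex.continuous_conj.comp_continuousOn (h1.mul he)).mul (hz.mul h1)).add
    ((Complex.continuous_conj.comp_continuousOn h0).mul ((he.mul h1).add (hz.mul (h2.mul he))))

lemma sec_cont {β : Type*} [TopologicalSpace β] {F : ℝ → ℝ → β} {s : Set ℝ}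
    (hF : ContinuousOn (Function.uncurry F) (s ×ˢ univ)) {r : ℝ} (hr : r ∈ s) : Continuous (F r) := by
  have h1 : Continuous fun θ : ℝ => ((r, θ) : ℝ × ℝ) := by fun_prop
  have h2 := hF.comp h1.continuousOn (s := univ) (fun θ _ => ⟨hr, mem_univ _⟩)
  exact continuousOn_univ.mp h2

lemma exists_ball {r : ℝ} (hr : r ∈ Ioo (0 : ℝ) 1) : ∃ δ > 0, ball r δ ⊆ Ioo (0 : ℝ) 1 :=
  Metric.isOpen_iff.mp isOpen_Ioo r hr

/-- TARGET 1 -/
theorem Ef_hasDerivAt (f : ℂ → ℂ) (hf : DifferentiableOn ℂ f (ball 0 1)) (r : ℝ) (hr : 0 < r)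
    (hr1 : r < 1) : HasDerivAt (Ef f) (2 * Gf f r / r) r := by
  have hrI : r ∈ Ioo (0 : ℝ) 1 := ⟨hr, hr1⟩
  obtain ⟨δ, hδ, hb⟩ := exists_ball hrI
  have h1 : HasDerivAt (fun r => ∫ θ in (0 : ℝ)..(2 * π), (Wf f r θ).re)
      (∫ θ in (0 : ℝ)..(2 * π), (Wr f r θ).re) r := by
    refine hasDerivAt_param (fun r θ => (Wf f r θ).re) (fun r θ => (Wr f r θ).re) _ _ r δ hδ ?_ ?_ ?_
    · intro r' hr' θ
      exact re_hasDerivAt (W_r hf (hb hr') θ)
    · intro r' hr'
      exact Complex.continuous_re.comp (sec_cont (jW hf hb) hr')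
    · exact Complex.continuous_re.comp_continuousOn (jWr hf hb)
  have hcWr : Continuous fun θ => (Wr f r θ).re :=
    Complex.continuous_re.comp (sec_cont (jWr hf hb) (mem_ball_self hδ))
  have hcD : Continuous fun θ : ℝ => ‖circleMap 0 r θ * deriv f (circleMap 0 r θ)‖ ^ 2 := by
    have h2 : Continuous fun θ : ℝ => deriv f (circleMap 0 r θ) :=
      sec_cont (F := fun r θ => deriv f (circleMap 0 r θ))
        (jc (hf.deriv isOpen_ball).continuousOn hb) (mem_ball_self hδ)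
    exact (((continuous_circleMap 0 r).mul h2).norm).pow 2
  have hWth : (fun θ => (Wth f r θ).im) = fun θ => r * (Wr f r θ).re
      - 2 * ‖circleMap 0 r θ * deriv f (circleMap 0 r θ)‖ ^ 2 := by
    funext θ
    rw [identity]; ring
  have hcWth : Continuous fun θ => (Wth f r θ).im := by
    rw [hWth]
    exact (continuous_const.mul hcWr).sub (continuous_const.mul hcD)
  have hint0 : ∫ θ in (0 : ℝ)..(2 * π), (Wth f r θ).im = 0 := by
    rw [intervalIntegral.integral_eq_sub_of_hasDerivAt (f := fun θ => (Wf f r θ).im)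
      (fun θ _ => im_hasDerivAt (W_th hf hrI θ)) (hcWth.intervalIntegrable _ _)]
    have hp : circleMap 0 r (2 * π) = circleMap 0 r 0 := by
      simp [circleMap]
    simp only [Wf, hp, sub_self]
  have hkey : r * ∫ θ in (0 : ℝ)..(2 * π), (Wr f r θ).re
      = 2 * ∫ θ in (0 : ℝ)..(2 * π), ‖circleMap 0 r θ * deriv f (circleMap 0 r θ)‖ ^ 2 := by
    rw [← intervalIntegral.integral_const_mul, ← intervalIntegral.integral_const_mul]
    have h2 : (fun θ => r * (Wr f r θ).re) = fun θ =>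
        2 * ‖circleMap 0 r θ * deriv f (circleMap 0 r θ)‖ ^ 2 + (Wth f r θ).im := by
      funext θ
      exact identity f r θ
    have hc2D : Continuous fun θ : ℝ => 2 * ‖circleMap 0 r θ * deriv f (circleMap 0 r θ)‖ ^ 2 :=
      continuous_const.mul hcD
    rw [h2, intervalIntegral.integral_add (hc2D.intervalIntegrable _ _)
      (hcWth.intervalIntegrable _ _), hint0, add_zero]
  have h3 := h1.const_mul (1 / (2 * π))
  have h4 : (1 / (2 * π)) * (∫ θ in (0 : ℝ)..(2 * π), (Wr f r θ).re) = 2 * Gf f r / r := by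
    rw [eq_div_iff hr.ne', Gf, mul_assoc, mul_comm _ r, hkey]
    ring
  rw [h4] at h3
  exact h3

lemma Ef_continuousOn (f : ℂ → ℂ) (hf : DifferentiableOn ℂ f (ball 0 1)) :
    ContinuousOn (Ef f) (Ioo 0 1) := fun r hr =>
  (Ef_hasDerivAt f hf r hr.1 hr.2).continuousAt.continuousWithinAt

lemma Gf_continuousOn (f : ℂ → ℂ) (hf : DifferentiableOn ℂ f (ball 0 1)) :
    ContinuousOn (Gf f) (Ioo 0 1) := by
  intro r hr
  obtain ⟨δ, hδ, hb⟩ := exists_ball hr
  apply ContinuousAt.continuousWithinAt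
  have hz : ContinuousOn (fun q : ℝ × ℝ => circleMap 0 q.1 q.2) (ball r δ ×ˢ univ) :=
    cm_cont.continuousOn
  have hcc : ContinuousOn (fun q : ℝ × ℝ => ‖circleMap 0 q.1 q.2 * deriv f (circleMap 0 q.1 q.2)‖ ^ 2)
      (ball r δ ×ˢ univ) := (hz.mul (jc (hf.deriv isOpen_ball).continuousOn hb)).norm.pow 2
  have h1 := continuousAt_param (fun r θ => ‖circleMap 0 r θ * deriv f (circleMap 0 r θ)‖ ^ 2)
    0 (2 * π) r δ hδ hcc
  exact continuousAt_const.mul h1

lemma X_r {f : ℂ → ℂ} (hf : DifferentiableOn ℂ f (ball 0 1)) {r : ℝ} (hr : r ∈ Ioo (0 : ℝ) 1) (θ : ℝ) :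
    HasDerivAt (fun r => ‖f (circleMap 0 r θ)‖ ^ 2) (2 * (Wf f r θ).re / r) r := by
  have h1 : HasDerivAt (fun r : ℝ => f (circleMap 0 r θ))
      (deriv f (circleMap 0 r θ) * Complex.exp (θ * I)) r :=
    (f_hasDerivAt hf (cm_mem hr θ)).comp r (cm_hasDerivAt_r r θ)
  have h2 : HasDerivAt (fun r : ℝ => conj (f (circleMap 0 r θ)))
      (conj (deriv f (circleMap 0 r θ) * Complex.exp (θ * I))) r := h1.star
  have h3 : HasDerivAt (fun r : ℝ => (conj (f (circleMap 0 r θ)) * f (circleMap 0 r θ)).re)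
      (conj (deriv f (circleMap 0 r θ) * Complex.exp (θ * I)) * f (circleMap 0 r θ)
      + conj (f (circleMap 0 r θ)) * (deriv f (circleMap 0 r θ) * Complex.exp (θ * I))).re r :=
    re_hasDerivAt (h2.mul h1)
  have h4 : (fun r : ℝ => (conj (f (circleMap 0 r θ)) * f (circleMap 0 r θ)).re)
      = fun r : ℝ => ‖f (circleMap 0 r θ)‖ ^ 2 := by
    funext r
    rw [Complex.conj_mul']
    norm_cast
  rw [h4] at h3
  have h5 : (conj (deriv f (circleMap 0 r θ) * Complex.exp (θ * I)) * f (circleMap 0 r θ)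
      + conj (f (circleMap 0 r θ)) * (deriv f (circleMap 0 r θ) * Complex.exp (θ * I))).re
      = 2 * (Wf f r θ).re / r := by
    rw [eq_div_iff hr.1.ne']
    have h6 : ∀ a b : ℂ, (conj a * b).re = (conj b * a).re := by
      intro a b
      simp only [Complex.mul_re, Complex.conj_re, Complex.conj_im]
      ring
    rw [Complex.add_re, h6]
    have h7 : Wf f r θ = (r : ℂ) * (conj (f (circleMap 0 r θ))
        * (deriv f (circleMap 0 r θ) * Complex.exp (θ * I))) := by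
      unfold Wf
      rw [show circleMap 0 r θ * deriv f (circleMap 0 r θ)
        = (r : ℂ) * Complex.exp (θ * I) * deriv f (circleMap 0 r θ) by
          rw [← cm_eq]]
      ring
    rw [h7, Complex.re_ofReal_mul]
    ring
  rw [h5] at h3
  exact h3

/-- TARGET 2 -/
theorem Psi_hasDerivAt (f : ℂ → ℂ) (hf : DifferentiableOn ℂ f (ball 0 1)) (r : ℝ) (hr : 0 < r)
    (hr1 : r < 1) (hE : 0 < Ef f r) :
    HasDerivAt (Psi f) ((1 / (2 * π)) * (2 / (r * Ef f r ^ 2)) *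
      ∫ θ in (0:ℝ)..(2 * π), Real.exp (‖f (circleMap 0 r θ)‖ ^ 2 / Ef f r) *
        ((Wf f r θ).re * Ef f r - ‖f (circleMap 0 r θ)‖ ^ 2 * Gf f r)) r := by
  have hrI : r ∈ Ioo (0 : ℝ) 1 := ⟨hr, hr1⟩
  have hEc := Ef_continuousOn f hf
  have hGc := Gf_continuousOn f hf
  obtain ⟨δ, hδ, hb, hEp⟩ : ∃ δ > 0, ball r δ ⊆ Ioo (0 : ℝ) 1 ∧ ∀ r' ∈ ball r δ, 0 < Ef f r' := by
    have h1 : ∀ᶠ r' in 𝓝 r, 0 < Ef f r' :=
      (hEc.continuousAt (isOpen_Ioo.mem_nhds hrI)).eventually (lt_mem_nhds hE)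
    have h2 : ∀ᶠ r' in 𝓝 r, r' ∈ Ioo (0 : ℝ) 1 := isOpen_Ioo.mem_nhds hrI
    obtain ⟨δ, hδ, hb⟩ := Metric.eventually_nhds_iff_ball.mp (h1.and h2)
    exact ⟨δ, hδ, fun r' hr' => (hb r' hr').2, fun r' hr' => (hb r' hr').1⟩
  set F' : ℝ → ℝ → ℝ := fun r θ => Real.exp (‖f (circleMap 0 r θ)‖ ^ 2 / Ef f r) *
    ((2 * (Wf f r θ).re / r * Ef f r - ‖f (circleMap 0 r θ)‖ ^ 2 * (2 * Gf f r / r)) / Ef f r ^ 2)
    with hF'
  have hz : ContinuousOn (fun q : ℝ × ℝ => f (circleMap 0 q.1 q.2)) (ball r δ ×ˢ univ) :=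
    jc hf.continuousOn hb
  have hE2 : ContinuousOn (fun q : ℝ × ℝ => Ef f q.1) (ball r δ ×ˢ univ) :=
    (hEc.mono hb).comp continuousOn_fst (fun q hq => hq.1)
  have hG2 : ContinuousOn (fun q : ℝ × ℝ => Gf f q.1) (ball r δ ×ˢ univ) :=
    (hGc.mono hb).comp continuousOn_fst (fun q hq => hq.1)
  have hW2 : ContinuousOn (fun q : ℝ × ℝ => (Wf f q.1 q.2).re) (ball r δ ×ˢ univ) :=
    Complex.continuous_re.comp_continuousOn (jW hf hb)
  have hne : ∀ q ∈ (ball r δ ×ˢ univ : Set (ℝ × ℝ)), Ef f q.1 ≠ 0 := fun q hq => (hEp _ hq.1).ne'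
  have hner : ∀ q ∈ (ball r δ ×ˢ univ : Set (ℝ × ℝ)), q.1 ≠ 0 := fun q hq => (hb hq.1).1.ne'
  have hexp : ContinuousOn (fun q : ℝ × ℝ => Real.exp (‖f (circleMap 0 q.1 q.2)‖ ^ 2 / Ef f q.1))
      (ball r δ ×ˢ univ) :=
    Real.continuous_exp.comp_continuousOn ((hz.norm.pow 2).div hE2 hne)
  have h1 := hasDerivAt_param (fun r θ => Real.exp (‖f (circleMap 0 r θ)‖ ^ 2 / Ef f r)) F'
    0 (2 * π) r δ hδ ?_ ?_ ?_
  · have h2 := h1.const_mul (1 / (2 * π))
    have h3 : (1 / (2 * π)) * (∫ θ in (0 : ℝ)..(2 * π), F' r θ)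
        = (1 / (2 * π)) * (2 / (r * Ef f r ^ 2)) *
      ∫ θ in (0:ℝ)..(2 * π), Real.exp (‖f (circleMap 0 r θ)‖ ^ 2 / Ef f r) *
        ((Wf f r θ).re * Ef f r - ‖f (circleMap 0 r θ)‖ ^ 2 * Gf f r) := by
      rw [mul_assoc, ← intervalIntegral.integral_const_mul (2 / (r * Ef f r ^ 2))]
      congr 1
      apply intervalIntegral.integral_congr
      intro θ _
      simp only [hF']
      have hr0 := hr.ne'
      have hE0 := hE.ne'
      field_simp
    rw [h3] at h2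
    exact h2
  · intro r' hr' θ
    have h2 := X_r hf (hb hr') θ
    have h3 := Ef_hasDerivAt f hf r' (hb hr').1 (hb hr').2
    exact (h2.div h3 (hEp r' hr').ne').exp
  · intro r' hr'
    exact sec_cont (F := fun r θ => Real.exp (‖f (circleMap 0 r θ)‖ ^ 2 / Ef f r)) hexp hr'
  · refine hexp.mul (ContinuousOn.div ?_ (hE2.pow 2) (fun q hq => pow_ne_zero 2 (hne q hq)))
    refine ContinuousOn.sub ?_ ?_
    · exact ((continuousOn_const.mul hW2).div continuousOn_fst hner).mul hE2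
    · exact (hz.norm.pow 2).mul ((continuousOn_const.mul hG2).div continuousOn_fst hner)

end J1906

alias Ef_hasDerivAt := J1906.Ef_hasDerivAt
alias Psi_hasDerivAt := J1906.Psi_hasDerivAt

end CM
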