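import Mathlib
import Pool.Agent.Helper714.CM.Defs
import Pool.Agent.Helper714.CM.J1906

open MeasureTheory Complex Filter Topology Set Metric
open scoped ComplexConjugate Real

noncomputable section

namespace CM

namespace J1908

/-- TARGET 1 -/
theorem Ef_tendsto_zero (f : ℂ → ℂ) (hf : DifferentiableOn ℂ f (ball 0 1)) :
    Tendsto (Ef f) (𝓝[>] 0) (𝓝 0) := by
  have hd : DifferentiableOn ℂ (deriv f) (ball 0 1) := hf.deriv isOpen_ball
  have hsub : closedBall (0:ℂ) (1/2) ⊆ ball 0 1 := closedBall_subset_ball (by norm_num)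
  obtain ⟨C1, hC1⟩ := (isCompact_closedBall (0:ℂ) (1/2)).exists_bound_of_continuousOn (hf.continuousOn.mono hsub)
  obtain ⟨C2, hC2⟩ := (isCompact_closedBall (0:ℂ) (1/2)).exists_bound_of_continuousOn (hd.continuousOn.mono hsub)
  have hC1n : 0 ≤ C1 := (norm_nonneg _).trans (hC1 0 (by simp))
  have hC2n : 0 ≤ C2 := (norm_nonneg _).trans (hC2 0 (by simp))
  have hlim : Tendsto (fun r : ℝ => C1 * (r * C2)) (𝓝[>] 0) (𝓝 0) := by
    have : Tendsto (fun r : ℝ => C1 * (r * C2)) (𝓝 0) (𝓝 (C1 * (0 * C2))) := by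
      apply Continuous.tendsto
      fun_prop
    simp only [zero_mul, mul_zero] at this
    exact this.mono_left nhdsWithin_le_nhds
  apply squeeze_zero_norm' _ hlim
  have hev : ∀ᶠ r : ℝ in 𝓝[>] 0, r ∈ Ioo (0:ℝ) (1/2) := Ioo_mem_nhdsGT (by norm_num)
  filter_upwards [hev] with r hr
  have h1 : ∀ θ ∈ uIoc (0:ℝ) (2 * π), ‖(Wf f r θ).re‖ ≤ C1 * (r * C2) := by
    intro θ _
    have hz : circleMap 0 r θ ∈ closedBall (0:ℂ) (1/2) := by
      rw [mem_closedBall_zero_iff, norm_circleMap_zero, abs_of_pos hr.1]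
      exact hr.2.le
    refine (abs_re_le_norm _).trans ?_
    unfold Wf
    rw [norm_mul, norm_mul, Complex.norm_conj, norm_circleMap_zero, abs_of_pos hr.1]
    have := hr.1.le
    gcongr
    · exact hC1 _ hz
    · exact hC2 _ hz
  have h2 := intervalIntegral.norm_integral_le_of_norm_le_const h1
  unfold Ef
  rw [norm_mul, Real.norm_of_nonneg (by positivity)]
  rw [sub_zero, abs_of_pos Real.two_pi_pos] at h2
  calc 1 / (2 * π) * ‖∫ θ in (0:ℝ)..(2 * π), (Wf f r θ).re‖ ≤ 1 / (2 * π) * (C1 * (r * C2) * (2 * π)) := by gcongr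
    _ = C1 * (r * C2) := by field_simp

theorem Gf_nonneg (f : ℂ → ℂ) (r : ℝ) : 0 ≤ Gf f r := by
  unfold Gf
  apply mul_nonneg (by positivity)
  apply intervalIntegral.integral_nonneg Real.two_pi_pos.le
  intro u _
  positivity

theorem Ef_mono (f : ℂ → ℂ) (hf : DifferentiableOn ℂ f (ball 0 1)) : MonotoneOn (Ef f) (Ioo 0 1) := by
  apply monotoneOn_of_deriv_nonneg (convex_Ioo 0 1)
  · intro x hx
    exact (Ef_hasDerivAt f hf x hx.1 hx.2).continuousAt.continuousWithinAt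
  · intro x hx
    rw [interior_Ioo] at hx
    exact (Ef_hasDerivAt f hf x hx.1 hx.2).differentiableAt.differentiableWithinAt
  · intro x hx
    rw [interior_Ioo] at hx
    rw [(Ef_hasDerivAt f hf x hx.1 hx.2).deriv]
    have := Gf_nonneg f x
    have := hx.1
    positivity

theorem Ef_nonneg (f : ℂ → ℂ) (hf : DifferentiableOn ℂ f (ball 0 1)) (r : ℝ) (hr : 0 < r)
    (hr1 : r < 1) : 0 ≤ Ef f r := by
  apply le_of_tendsto (Ef_tendsto_zero f hf)
  have hev : ∀ᶠ s : ℝ in 𝓝[>] 0, s ∈ Ioo (0:ℝ) r := Ioo_mem_nhdsGT hr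
  filter_upwards [hev] with s hs
  exact Ef_mono f hf ⟨hs.1, hs.2.trans hr1⟩ ⟨hr, hr1⟩ hs.2.le

theorem circle_mem {r : ℝ} (hr : 0 < r) (hr1 : r < 1) (θ : ℝ) : circleMap 0 r θ ∈ ball (0:ℂ) 1 := by
  rw [mem_ball_zero_iff, norm_circleMap_zero, abs_of_pos hr]
  exact hr1

theorem cont_deriv (f : ℂ → ℂ) (hf : DifferentiableOn ℂ f (ball 0 1)) (r : ℝ) (hr : 0 < r)
    (hr1 : r < 1) : Continuous (fun θ : ℝ => ‖circleMap 0 r θ * deriv f (circleMap 0 r θ)‖ ^ 2) := by
  have hd : DifferentiableOn ℂ (deriv f) (ball 0 1) := hf.deriv isOpen_ball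
  have h1 : Continuous (fun θ : ℝ => deriv f (circleMap 0 r θ)) :=
    hd.continuousOn.comp_continuous (continuous_circleMap 0 r) (circle_mem hr hr1)
  exact (((continuous_circleMap 0 r).mul h1).norm).pow 2

/-- TARGET 2: positivity -/
theorem Ef_pos (f : ℂ → ℂ) (hf : DifferentiableOn ℂ f (ball 0 1)) (h0 : f 0 = 0)
    (hne : ∃ z ∈ ball (0:ℂ) 1, f z ≠ 0) (r : ℝ) (hr : 0 < r) (hr1 : r < 1) : 0 < Ef f r := by
  rcases (Ef_nonneg f hf r hr hr1).lt_or_eq with h | h
  · exact h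
  exfalso
  have hz : ∀ s ∈ Ioo (0:ℝ) r, Ef f s = 0 := by
    intro s hs
    apply le_antisymm _ (Ef_nonneg f hf s hs.1 (hs.2.trans hr1))
    rw [h]
    exact Ef_mono f hf ⟨hs.1, hs.2.trans hr1⟩ ⟨hr, hr1⟩ hs.2.le
  have hG : ∀ s ∈ Ioo (0:ℝ) r, Gf f s = 0 := by
    intro s hs
    have h1 := Ef_hasDerivAt f hf s hs.1 (hs.2.trans hr1)
    have h2 : HasDerivAt (Ef f) 0 s := by
      apply (hasDerivAt_const s (0:ℝ)).congr_of_eventuallyEq
      filter_upwards [isOpen_Ioo.mem_nhds hs] with t ht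
      exact hz t ht
    have h3 := h1.unique h2
    have := hs.1
    field_simp at h3
    linarith
  have hD : ∀ z ∈ ball (0:ℂ) r, z ≠ 0 → deriv f z = 0 := by
    intro z hz hz0
    by_contra hne
    have hs : ‖z‖ ∈ Ioo (0:ℝ) r := ⟨norm_pos_iff.2 hz0, mem_ball_zero_iff.1 hz⟩
    have hmem : z ∈ circleMap 0 ‖z‖ '' Ioc 0 (2 * π) := by
      rw [image_circleMap_Ioc]
      simp
    obtain ⟨θ, hθ, hzθ⟩ := hmem
    have h1 := hG _ hs
    unfold Gf at h1
    have h2 : 0 < ∫ θ in (0:ℝ)..(2 * π), ‖circleMap 0 ‖z‖ θ * deriv f (circleMap 0 ‖z‖ θ)‖ ^ 2 := by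
      apply intervalIntegral.integral_pos Real.two_pi_pos
      · exact (cont_deriv f hf _ hs.1 (hs.2.trans hr1)).continuousOn
      · intro x _
        positivity
      · refine ⟨θ, ⟨hθ.1.le, hθ.2⟩, ?_⟩
        rw [hzθ]
        have := mul_ne_zero hz0 hne
        positivity
    have : 0 < 1 / (2 * π) * ∫ θ in (0:ℝ)..(2 * π), ‖circleMap 0 ‖z‖ θ * deriv f (circleMap 0 ‖z‖ θ)‖ ^ 2 := by
      positivity
    linarith
  have hd : DifferentiableOn ℂ (deriv f) (ball 0 1) := hf.deriv isOpen_ball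
  have hev : deriv f =ᶠ[𝓝 ((r / 2 : ℝ) : ℂ)] fun _ => 0 := by
    have hop : IsOpen (ball (0:ℂ) r \ {0}) := isOpen_ball.sdiff isClosed_singleton
    have hm : ((r / 2 : ℝ) : ℂ) ∈ ball (0:ℂ) r \ {0} := by
      refine ⟨?_, ?_⟩
      · rw [mem_ball_zero_iff, Complex.norm_real, Real.norm_of_nonneg (by positivity)]
        linarith
      · simp only [mem_singleton_iff, ofReal_eq_zero]
        positivity
    filter_upwards [hop.mem_nhds hm] with z hz
    exact hD z hz.1 hz.2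
  have hDz : EqOn (deriv f) (fun _ => 0) (ball 0 1) := by
    apply AnalyticOnNhd.eqOn_of_preconnected_of_eventuallyEq (hd.analyticOnNhd isOpen_ball)
      (fun _ _ => analyticAt_const) (convex_ball 0 1).isPreconnected _ hev
    rw [mem_ball_zero_iff, Complex.norm_real, Real.norm_of_nonneg (by positivity)]
    linarith
  obtain ⟨z, hz, hfz⟩ := hne
  apply hfz
  rw [← h0]
  exact isOpen_ball.is_const_of_deriv_eq_zero (convex_ball 0 1).isPreconnected hf hDz hz (by simp)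

theorem Gf_eq (f : ℂ → ℂ) (r : ℝ) (hr : 0 < r) :
    2 * Gf f r / r = (1 / π) * ∫ θ in (-π)..π, r * ‖deriv f (circleMap 0 r θ)‖ ^ 2 := by
  have hp : Function.Periodic (fun θ : ℝ => ‖circleMap 0 r θ * deriv f (circleMap 0 r θ)‖ ^ 2) (2 * π) := by
    intro θ
    simp only [periodic_circleMap 0 r θ]
  have h1 := hp.intervalIntegral_add_eq 0 (-π)
  have h2 : -π + 2 * π = π := by ring
  rw [zero_add, h2] at h1
  unfold Gf
  rw [h1]
  have h3 : ∀ θ : ℝ, ‖circleMap 0 r θ * deriv f (circleMap 0 r θ)‖ ^ 2 = r * (r * ‖deriv f (circleMap 0 r θ)‖ ^ 2) := by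
    intro θ
    rw [norm_mul, norm_circleMap_zero, abs_of_pos hr]
    ring
  simp only [h3]
  rw [intervalIntegral.integral_const_mul]
  field_simp

/-- TARGET 3: upper bound by the Dirichlet integral -/
theorem Ef_le_dirichlet (f : ℂ → ℂ) (hf : DifferentiableOn ℂ f (ball 0 1)) (r : ℝ) (hr : 0 < r)
    (hr1 : r < 1) :
    ENNReal.ofReal (π * Ef f r) ≤ ∫⁻ z in ball (0:ℂ) 1, ENNReal.ofReal (‖deriv f z‖ ^ 2) := by
  have hd : DifferentiableOn ℂ (deriv f) (ball 0 1) := hf.deriv isOpen_ball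
  set X := ∫⁻ z in ball (0:ℂ) 1, ENNReal.ofReal (‖deriv f z‖ ^ 2) with hX
  have hlim : Tendsto (fun s : ℝ => ENNReal.ofReal (π * (Ef f r - Ef f s))) (𝓝[>] 0) (𝓝 (ENNReal.ofReal (π * Ef f r))) := by
    have h1 : Tendsto (fun s : ℝ => π * (Ef f r - Ef f s)) (𝓝[>] 0) (𝓝 (π * (Ef f r - 0))) :=
      ((Ef_tendsto_zero f hf).const_sub (Ef f r)).const_mul π
    rw [sub_zero] at h1
    exact ENNReal.tendsto_ofReal h1
  apply le_of_tendsto hlim
  have hev : ∀ᶠ s : ℝ in 𝓝[>] 0, s ∈ Ioo (0:ℝ) r := Ioo_mem_nhdsGT hr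
  filter_upwards [hev] with s hs
  -- the continuous density
  set g : ℝ × ℝ → ℝ := fun p => p.1 * ‖deriv f (circleMap 0 p.1 p.2)‖ ^ 2 with hg
  set K : Set (ℝ × ℝ) := Icc s r ×ˢ Icc (-π) π with hK
  have hcm : Continuous (fun p : ℝ × ℝ => circleMap 0 p.1 p.2) := by
    unfold circleMap
    fun_prop
  have hgc : ContinuousOn g K := by
    apply ContinuousOn.mul continuousOn_fst
    apply ContinuousOn.pow
    apply ContinuousOn.norm
    apply hd.continuousOn.comp hcm.continuousOn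
    intro p hp
    exact circle_mem (hs.1.trans_le hp.1.1) (hp.1.2.trans_lt hr1) _
  have hKc : IsCompact K := isCompact_Icc.prod isCompact_Icc
  have hgi : IntegrableOn g K := hgc.integrableOn_compact hKc
  have hgi' : IntegrableOn g (Ioc s r ×ˢ Ioc (-π) π) := hgi.mono_set (prod_mono Ioc_subset_Icc_self Ioc_subset_Icc_self)
  have hgi2 : Integrable g ((volume.restrict (Ioc s r)).prod (volume.restrict (Ioc (-π) π))) := by
    rw [Measure.prod_restrict]
    exact hgi'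
  have hint : ∫ p in Ioc s r ×ˢ Ioc (-π) π, g p = π * (Ef f r - Ef f s) := by
    have e1 : ∫ p in Ioc s r ×ˢ Ioc (-π) π, g p = ∫ t in Ioc s r, ∫ θ in Ioc (-π) π, g (t, θ) := by
      exact setIntegral_prod g hgi'
    have e2 : ∀ t ∈ Ioc s r, ∫ θ in Ioc (-π) π, g (t, θ) = π * (2 * Gf f t / t) := by
      intro t ht
      rw [Gf_eq f t (hs.1.trans ht.1), intervalIntegral.integral_of_le (by linarith [Real.pi_pos])]
      field_simp
      rfl
    rw [e1, setIntegral_congr_fun measurableSet_Ioc e2]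
    rw [integral_const_mul, ← intervalIntegral.integral_of_le hs.2.le]
    congr 1
    apply intervalIntegral.integral_eq_sub_of_hasDerivAt
    · intro x hx
      rw [uIcc_of_le hs.2.le] at hx
      exact Ef_hasDerivAt f hf x (hs.1.trans_le hx.1) (hx.2.trans_lt hr1)
    · rw [intervalIntegrable_iff_integrableOn_Ioc_of_le hs.2.le]
      have h5 := hgi2.integral_prod_left
      have h6 : IntegrableOn (fun t => π * (2 * Gf f t / t)) (Ioc s r) := by
        apply (integrableOn_congr_fun e2 measurableSet_Ioc).1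
        exact h5
      have h7 := h6.const_mul (1 / π)
      apply (integrableOn_congr_fun _ measurableSet_Ioc).1 h7
      intro t _
      simp only
      field_simp
  rw [← hint]
  have hg0 : 0 ≤ᵐ[volume.restrict (Ioc s r ×ˢ Ioc (-π) π)] g := by
    rw [EventuallyLE, ae_restrict_iff' (measurableSet_Ioc.prod measurableSet_Ioc)]
    refine ae_of_all _ fun p hp => ?_
    have : 0 < p.1 := hs.1.trans hp.1.1
    simp only [Pi.zero_apply, hg]
    positivity
  rw [ofReal_integral_eq_lintegral_ofReal hgi' hg0]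
  rw [hX, ← lintegral_indicator measurableSet_ball, ← Complex.lintegral_comp_polarCoord_symm]
  have hae : (Ioc s r ×ˢ Ioc (-π) π : Set (ℝ × ℝ)) =ᵐ[volume] (Ioc s r ×ˢ Ioo (-π) π : Set (ℝ × ℝ)) := by
    have : (Ioo (-π) π : Set ℝ) =ᵐ[volume] Ioc (-π) π := Ioo_ae_eq_Ioc
    exact Measure.set_prod_ae_eq (ae_eq_refl _) this.symm
  rw [setLIntegral_congr hae]
  have hsub : Ioc s r ×ˢ Ioo (-π) π ⊆ polarCoord.target := by
    intro p hp
    rw [polarCoord_target]
    exact ⟨hs.1.trans hp.1.1, hp.2⟩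
  refine le_trans (setLIntegral_mono_ae' (measurableSet_Ioc.prod measurableSet_Ioo) ?_) (lintegral_mono_set hsub)
  refine ae_of_all _ fun p hp => ?_
  have hp0 : 0 < p.1 := hs.1.trans hp.1.1
  have hp1 : (Complex.polarCoord.symm p : ℂ) = circleMap 0 p.1 p.2 := by
    rw [Complex.polarCoord_symm_apply, circleMap, zero_add, exp_mul_I]
    push_cast
    ring
  rw [hp1, indicator_of_mem (circle_mem hp0 (hp.1.2.trans_lt hr1) _), smul_eq_mul, ← ENNReal.ofReal_mul hp0.le]

end J1908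

alias Ef_tendsto_zero := J1908.Ef_tendsto_zero
alias Ef_pos := J1908.Ef_pos
alias Ef_le_dirichlet := J1908.Ef_le_dirichlet

end CM
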