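import Mathlib
import Pool.Agent.Helper714.CM.Defs

open MeasureTheory Complex Filter Topology Set Metric
open scoped ComplexConjugate Real

noncomputable section

namespace CM

namespace J1909

theorem avg_tendsto (F : ℝ → ℝ → ℝ) (L : ℝ) (hc : ∀ᶠ r in 𝓝[>] (0:ℝ), Continuous (F r))
    (hu : ∀ ε > 0, ∀ᶠ r in 𝓝[>] (0:ℝ), ∀ θ, |F r θ - L| ≤ ε) :
    Tendsto (fun r => (1 / (2 * π)) * ∫ θ in (0:ℝ)..(2 * π), F r θ) (𝓝[>] 0) (𝓝 L) := by
  have hpi := Real.pi_pos
  rw [Metric.tendsto_nhds]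
  intro ε hε
  filter_upwards [hc, hu (ε / 2) (by positivity)] with r h1 h2
  rw [Real.dist_eq]
  have e : (1 / (2 * π)) * (∫ θ in (0:ℝ)..(2 * π), F r θ) - L =
      (1 / (2 * π)) * ∫ θ in (0:ℝ)..(2 * π), (F r θ - L) := by
    rw [intervalIntegral.integral_sub (h1.intervalIntegrable _ _) (by simp),
      intervalIntegral.integral_const]
    simp only [sub_zero, smul_eq_mul]
    field_simp
  rw [e, abs_mul, abs_of_pos (by positivity)]
  have h3 := intervalIntegral.norm_integral_le_of_norm_le_const (a := (0:ℝ)) (b := 2 * π)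
    (f := fun θ => F r θ - L) (C := ε / 2) (fun θ _ => by rw [Real.norm_eq_abs]; exact h2 θ)
  rw [Real.norm_eq_abs, sub_zero, abs_of_pos (show 0 < 2 * π by positivity)] at h3
  calc 1 / (2 * π) * |∫ θ in (0:ℝ)..(2 * π), (F r θ - L)|
      ≤ 1 / (2 * π) * (ε / 2 * (2 * π)) := by gcongr
    _ = ε / 2 := by field_simp
    _ < ε := by linarith

theorem ev_circle {p : ℂ → Prop} (hp : ∀ᶠ z in 𝓝 (0:ℂ), p z) :
    ∀ᶠ r in 𝓝[>] (0:ℝ), ∀ θ, p (circleMap 0 r θ) := by
  obtain ⟨δ, hδ, h⟩ := Metric.eventually_nhds_iff_ball.mp hp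
  have : ∀ᶠ r in 𝓝[>] (0:ℝ), r ∈ Ioo (0:ℝ) δ := Ioo_mem_nhdsGT hδ
  filter_upwards [this] with r hr θ
  apply h
  rw [mem_ball_zero_iff, norm_circleMap_zero, abs_of_pos hr.1]
  exact hr.2

/-- TARGET -/
theorem Psi_tendsto (f : ℂ → ℂ) (hf : DifferentiableOn ℂ f (ball 0 1)) (h0 : f 0 = 0)
    (hne : ∃ z ∈ ball (0:ℂ) 1, f z ≠ 0) :
    ∃ m : ℕ, 1 ≤ m ∧ Tendsto (Psi f) (𝓝[>] 0) (𝓝 (Real.exp (1 / m))) ∧
      (m = 1 → deriv f 0 ≠ 0) := by
  have hfa : AnalyticOnNhd ℂ f (ball 0 1) := hf.analyticOnNhd isOpen_ball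
  have hf0 : AnalyticAt ℂ f 0 := hfa 0 (by simp)
  have hnz : ¬ ∀ᶠ z in 𝓝 (0:ℂ), f z = 0 := by
    intro hz
    obtain ⟨z, hz1, hz2⟩ := hne
    have := hfa.eqOn_zero_of_preconnected_of_eventuallyEq_zero
      (convex_ball (0:ℂ) 1).isPreconnected (z₀ := 0) (by simp) hz
    exact hz2 (this hz1)
  obtain ⟨m, g, hg, hg0, hfg⟩ := hf0.exists_eventuallyEq_pow_smul_nonzero_iff.mpr hnz
  simp only [sub_zero, smul_eq_mul] at hfg
  have hm : 1 ≤ m := by
    by_contra hm
    have hm0 : m = 0 := by omega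
    have := hfg.self_of_nhds
    rw [h0, hm0, pow_zero, one_mul] at this
    exact hg0 this.symm
  obtain ⟨δ, hδ, hball⟩ := Metric.eventually_nhds_iff_ball.mp
    (hg.eventually_analyticAt.and hfg)
  have hder : ∀ z ∈ ball (0:ℂ) δ,
      z * deriv f z = z ^ m * (m * g z + z * deriv g z) := by
    intro z hz
    have h1 : f =ᶠ[𝓝 z] fun w => w ^ m * g w := by
      filter_upwards [isOpen_ball.mem_nhds hz] with w hw
      exact (hball w hw).2
    have h2 : HasDerivAt (fun w => w ^ m * g w) (m * z ^ (m - 1) * g z + z ^ m * deriv g z) z :=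
      (hasDerivAt_pow m z).mul (hball z hz).1.differentiableAt.hasDerivAt
    rw [h1.deriv_eq, h2.deriv]
    have h3 : z ^ m = z * z ^ (m - 1) := by
      rw [← pow_succ', Nat.sub_add_cancel hm]
    rw [h3]; ring
  set φ : ℂ → ℝ := fun z => (conj (g z) * (m * g z + z * deriv g z)).re with hφ
  have hφc : ∀ z ∈ ball (0:ℂ) δ, ContinuousAt φ z := by
    intro z hz
    have h1 : ContinuousAt g z := (hball z hz).1.continuousAt
    have h2 : ContinuousAt (deriv g) z := (hball z hz).1.deriv.continuousAt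
    apply Complex.continuous_re.continuousAt.comp
    apply ContinuousAt.mul
    · exact Complex.continuous_conj.continuousAt.comp h1
    · exact (continuousAt_const.mul h1).add (continuousAt_id.mul h2)
  have hgc : ∀ z ∈ ball (0:ℂ) δ, ContinuousAt g z := fun z hz => (hball z hz).1.continuousAt
  have h0b : (0:ℂ) ∈ ball (0:ℂ) δ := mem_ball_self hδ
  have hφ0 : φ 0 = m * ‖g 0‖ ^ 2 := by
    simp only [hφ, zero_mul, add_zero]
    have : conj (g 0) * (m * g 0) = ((m * ‖g 0‖ ^ 2 : ℝ) : ℂ) := by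
      push_cast
      rw [← Complex.conj_mul']
      ring
    rw [this, Complex.ofReal_re]
  set e : ℝ → ℝ := fun r => (1 / (2 * π)) * ∫ θ in (0:ℝ)..(2 * π), φ (circleMap 0 r θ) with he
  have hrδ : ∀ᶠ r in 𝓝[>] (0:ℝ), r ∈ Ioo (0:ℝ) δ := Ioo_mem_nhdsGT hδ
  have hmemb : ∀ r ∈ Ioo (0:ℝ) δ, ∀ θ, circleMap 0 r θ ∈ ball (0:ℂ) δ := by
    intro r hr θ
    rw [mem_ball_zero_iff, norm_circleMap_zero, abs_of_pos hr.1]
    exact hr.2
  have hetend : Tendsto e (𝓝[>] 0) (𝓝 (φ 0)) := by
    apply avg_tendsto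
    · filter_upwards [hrδ] with r hr
      rw [continuous_iff_continuousAt]
      intro θ
      exact (hφc _ (hmemb r hr θ)).comp (continuous_circleMap 0 r).continuousAt
    · intro ε hε
      apply ev_circle (p := fun z => |φ z - φ 0| ≤ ε)
      have := Metric.tendsto_nhds.mp (hφc 0 h0b) ε hε
      filter_upwards [this] with z hz
      rw [Real.dist_eq] at hz
      exact hz.le
  have hEf : ∀ r ∈ Ioo (0:ℝ) δ, Ef f r = (r ^ 2) ^ m * e r := by
    intro r hr
    have hint : ∫ θ in (0:ℝ)..(2 * π), (Wf f r θ).re =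
        (r ^ 2) ^ m * ∫ θ in (0:ℝ)..(2 * π), φ (circleMap 0 r θ) := by
      rw [← intervalIntegral.integral_const_mul]
      apply intervalIntegral.integral_congr
      intro θ _
      simp only
      set z := circleMap 0 r θ with hz
      have hzb := hmemb r hr θ
      rw [← hz] at hzb
      have hnz' : ‖z‖ = r := by rw [hz, norm_circleMap_zero, abs_of_pos hr.1]
      unfold Wf
      rw [← hz, hder z hzb, (hball z hzb).2]
      have : conj (z ^ m * g z) * (z ^ m * (m * g z + z * deriv g z)) =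
          (((r ^ 2) ^ m : ℝ) : ℂ) * (conj (g z) * (m * g z + z * deriv g z)) := by
        rw [map_mul, map_pow]
        have h3 : conj z * z = ((r ^ 2 : ℝ) : ℂ) := by
          rw [Complex.conj_mul', hnz']; push_cast; rfl
        calc conj z ^ m * conj (g z) * (z ^ m * (m * g z + z * deriv g z))
            = (conj z * z) ^ m * (conj (g z) * (m * g z + z * deriv g z)) := by ring
          _ = _ := by rw [h3]; push_cast; rfl
      rw [this, Complex.re_ofReal_mul]
    unfold Ef
    rw [hint, he]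
    simp only
    ring
  have hg0n : 0 < ‖g 0‖ := norm_pos_iff.mpr hg0
  have hm0 : (0:ℝ) < m := by exact_mod_cast hm
  have hφ0pos : 0 < φ 0 := by rw [hφ0]; positivity
  refine ⟨m, hm, ?_, ?_⟩
  · have hPsi : ∀ᶠ r in 𝓝[>] (0:ℝ), (1 / (2 * π)) * ∫ θ in (0:ℝ)..(2 * π),
        Real.exp (‖g (circleMap 0 r θ)‖ ^ 2 / e r) = Psi f r := by
      filter_upwards [hrδ] with r hr
      unfold Psi
      congr 1
      apply intervalIntegral.integral_congr
      intro θ _
      simp only
      congr 1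
      rw [hEf r hr, (hball _ (hmemb r hr θ)).2, norm_mul, norm_pow, norm_circleMap_zero,
        abs_of_pos hr.1, mul_pow]
      have hr0 : 0 < r := hr.1
      have : (r ^ m) ^ 2 = (r ^ 2) ^ m := by rw [← pow_mul, ← pow_mul, mul_comm]
      rw [this]
      rw [mul_div_mul_left _ _ (by positivity)]
    refine Tendsto.congr' hPsi ?_
    have hlim : Real.exp (1 / m) = Real.exp (‖g 0‖ ^ 2 / φ 0) := by
      congr 1
      rw [hφ0]
      field_simp
    rw [hlim]
    apply avg_tendsto (fun r θ => Real.exp (‖g (circleMap 0 r θ)‖ ^ 2 / e r))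
    · filter_upwards [hrδ] with r hr
      rw [continuous_iff_continuousAt]
      intro θ
      apply Real.continuous_exp.continuousAt.comp
      apply ContinuousAt.div_const
      apply ContinuousAt.pow
      apply ContinuousAt.norm
      exact (hgc _ (hmemb r hr θ)).comp (continuous_circleMap 0 r).continuousAt
    · intro ε hε
      have hcont : ContinuousAt (fun q : ℂ × ℝ => Real.exp (‖g q.1‖ ^ 2 / q.2)) (0, φ 0) := by
        apply Real.continuous_exp.continuousAt.comp
        apply ContinuousAt.div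
        · apply ContinuousAt.pow
          apply ContinuousAt.norm
          exact ContinuousAt.comp (x := ((0:ℂ), φ 0)) (f := Prod.fst) (g := g) (hgc 0 h0b)
            continuousAt_fst
        · exact continuousAt_snd
        · exact hφ0pos.ne'
      have h1 := Metric.tendsto_nhds.mp hcont ε hε
      rw [nhds_prod_eq, Filter.eventually_prod_iff] at h1
      obtain ⟨pa, hpa, pb, hpb, hab⟩ := h1
      filter_upwards [ev_circle hpa, hetend.eventually hpb] with r h2 h3 θ
      have h4 := hab (h2 θ) h3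
      rw [Real.dist_eq] at h4
      exact h4.le
  · intro hm1
    have h1 : f =ᶠ[𝓝 0] fun w => w ^ m * g w := hfg
    have h2 : HasDerivAt (fun w => w ^ m * g w)
        (m * (0:ℂ) ^ (m - 1) * g 0 + (0:ℂ) ^ m * deriv g 0) 0 :=
      (hasDerivAt_pow m 0).mul hg.differentiableAt.hasDerivAt
    rw [h1.deriv_eq, h2.deriv, hm1]
    simpa using hg0

end J1909

alias Psi_tendsto := J1909.Psi_tendsto

end CM
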