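import Mathlib
import Pool.Agent.Helper714.CM.Defs

open MeasureTheory Complex Filter Topology Set Metric
open scoped ComplexConjugate Real

noncomputable section

namespace CM

namespace J1921

lemma radial_of_angle (f : ℂ → ℂ) (hf : DifferentiableOn ℂ f (ball 0 1)) (θ : ℝ)
    (h : ∫⁻ r in Ioo (1/2 : ℝ) 1, ENNReal.ofReal ‖deriv f (circleMap 0 r θ)‖ < ⊤) :
    ∃ w : ℂ, Tendsto (fun r : ℝ => f (circleMap 0 r θ)) (𝓝[<] 1) (𝓝 w) := by
  obtain ⟨G, hG⟩ : ∃ G : ℝ → ℂ, G = fun r => deriv f (circleMap 0 r θ) * exp (θ * I) := ⟨_, rfl⟩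
  have hexp : ‖exp (θ * I)‖ = 1 := norm_exp_ofReal_mul_I θ
  have hcm : ∀ r : ℝ, circleMap 0 r θ = r * exp (θ * I) := fun r => by simp [circleMap]
  have hcont : Continuous (fun r : ℝ => circleMap 0 r θ) := by
    simp only [hcm]
    exact (continuous_ofReal).mul continuous_const
  have hder : ∀ r ∈ Ioo (0:ℝ) 1, HasDerivAt (fun r : ℝ => f (circleMap 0 r θ)) (G r) r := by
    intro r hr
    have hz : circleMap 0 r θ ∈ ball (0:ℂ) 1 := by
      rw [mem_ball_zero_iff, norm_circleMap_zero, abs_of_pos hr.1]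
      exact hr.2
    have h1 : HasDerivAt f (deriv f (circleMap 0 r θ)) (circleMap 0 r θ) :=
      (hf.differentiableAt (isOpen_ball.mem_nhds hz)).hasDerivAt
    have h2 : HasDerivAt (fun r : ℝ => circleMap 0 r θ) (exp (θ * I)) r := by
      have h3 : HasDerivAt (fun r : ℝ => (r : ℂ) * exp (θ * I)) (1 * exp (θ * I)) r :=
        (by simpa using (HasDerivAt.ofReal_comp (hasDerivAt_id r)) : HasDerivAt (fun r : ℝ => (r : ℂ)) 1 r).mul_const _
      rw [one_mul] at h3
      have h4 : (fun r : ℝ => circleMap 0 r θ) = fun r : ℝ => (r : ℂ) * exp (θ * I) := by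
        funext r; exact hcm r
      rw [h4]; exact h3
    have h5 := h1.scomp r h2
    have h6 : G r = exp (θ * I) • deriv f (circleMap 0 r θ) := by
      rw [hG, smul_eq_mul]
      exact mul_comm _ _
    rw [h6]
    exact h5
  have hmeas : Measurable G := by
    rw [hG]
    exact ((measurable_deriv f).comp hcont.measurable).mul_const _
  have hint : IntegrableOn G (Ioo (1/2:ℝ) 1) := by
    refine ⟨hmeas.aestronglyMeasurable, ?_⟩
    rw [hasFiniteIntegral_iff_norm]
    have : ∀ r, ‖G r‖ = ‖deriv f (circleMap 0 r θ)‖ := by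
      intro r; rw [hG]; simp only [norm_mul, hexp, mul_one]
    simp only [this]
    exact h
  have hint2 : IntegrableOn G (uIcc (1/2:ℝ) 1) := by
    rw [uIcc_of_le (by norm_num), integrableOn_Icc_iff_integrableOn_Ioo]
    exact hint
  have hprim := intervalIntegral.continuousOn_primitive_interval hint2
  refine ⟨f (circleMap 0 (1/2) θ) + ∫ t in (1/2:ℝ)..1, G t, ?_⟩
  have h1 : Tendsto (fun x => ∫ t in (1/2:ℝ)..x, G t) (𝓝[<] 1) (𝓝 (∫ t in (1/2:ℝ)..1, G t)) := by
    have h2 := hprim 1 (by rw [uIcc_of_le (by norm_num)]; constructor <;> norm_num)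
    refine h2.mono_left ?_
    rw [uIcc_of_le (by norm_num)]
    have h3 : 𝓝[Ioo (1/2:ℝ) 1] 1 = 𝓝[<] 1 := nhdsWithin_Ioo_eq_nhdsLT (by norm_num)
    rw [← h3]
    exact nhdsWithin_mono 1 Ioo_subset_Icc_self
  refine Tendsto.congr' ?_ (tendsto_const_nhds.add h1)
  have h4 : Ioo (1/2:ℝ) 1 ∈ 𝓝[<] (1:ℝ) := Ioo_mem_nhdsLT (by norm_num)
  filter_upwards [h4] with r hr
  have h5 : ∫ t in (1/2:ℝ)..r, G t = f (circleMap 0 r θ) - f (circleMap 0 (1/2) θ) := by
    apply intervalIntegral.integral_eq_sub_of_hasDerivAt (f := fun r : ℝ => f (circleMap 0 r θ))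
    · intro x hx
      rw [uIcc_of_le hr.1.le] at hx
      exact hder x ⟨by linarith [hx.1], by linarith [hx.2, hr.2]⟩
    · rw [intervalIntegrable_iff_integrableOn_Ioc_of_le hr.1.le]
      apply hint2.mono_set
      rw [uIcc_of_le (by norm_num)]
      intro x hx
      exact ⟨hx.1.le, by linarith [hx.2, hr.2]⟩
  rw [h5]
  ring

/-- TARGET 1: radial limits exist for a.e. angle, for functions with finite Dirichlet integral -/
theorem radial_limit_ae (f : ℂ → ℂ) (hf : DifferentiableOn ℂ f (ball 0 1))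
    (hD : ∫⁻ z in ball (0:ℂ) 1, ENNReal.ofReal (‖deriv f z‖ ^ 2) < ⊤) :
    ∀ᵐ θ ∂(volume.restrict (Ioc 0 (2 * π))),
      ∃ w : ℂ, Tendsto (fun r : ℝ => f (circleMap 0 r θ)) (𝓝[<] 1) (𝓝 w) := by
  -- polar coordinates
  obtain ⟨F, hF⟩ : ∃ F : ℂ → ENNReal,
      F = (ball (0:ℂ) 1).indicator (fun z => ENNReal.ofReal (‖deriv f z‖ ^ 2)) := ⟨_, rfl⟩
  have hFm : Measurable F := by
    rw [hF]
    exact (((measurable_deriv f).norm.pow_const 2).ennreal_ofReal).indicator measurableSet_ball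
  have hFi : ∫⁻ z, F z < ⊤ := by
    rw [hF, lintegral_indicator measurableSet_ball]
    exact hD
  rw [← Complex.lintegral_comp_polarCoord_symm] at hFi
  have hsymm : ∀ p : ℝ × ℝ, Complex.polarCoord.symm p = circleMap 0 p.1 p.2 := by
    intro p
    rw [Complex.polarCoord_symm_apply, circleMap, exp_mul_I]
    push_cast
    ring
  simp only [hsymm, smul_eq_mul] at hFi
  have hcm : Continuous (fun p : ℝ × ℝ => circleMap 0 p.1 p.2) := by
    have : (fun p : ℝ × ℝ => circleMap 0 p.1 p.2) = fun p : ℝ × ℝ => (p.1 : ℂ) * exp (p.2 * I) := by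
      funext p; simp [circleMap]
    rw [this]
    fun_prop
  have hHm : Measurable (fun p : ℝ × ℝ => ENNReal.ofReal p.1 * F (circleMap 0 p.1 p.2)) :=
    (measurable_fst.ennreal_ofReal).mul (hFm.comp hcm.measurable)
  have htar : polarCoord.target = Ioi (0:ℝ) ×ˢ Ioo (-π) π := rfl
  rw [htar, Measure.volume_eq_prod, ← Measure.prod_restrict, lintegral_prod_symm' _ hHm] at hFi
  have hae := ae_lt_top (hHm.lintegral_prod_left') hFi.ne
  -- good angles in (-π, π)
  have hgood : ∀ᵐ θ ∂(volume.restrict (Ioo (-π) π)),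
      ∃ w : ℂ, Tendsto (fun r : ℝ => f (circleMap 0 r θ)) (𝓝[<] 1) (𝓝 w) := by
    filter_upwards [hae] with θ hθ
    apply radial_of_angle f hf θ
    have hmeas2 : Measurable (fun r : ℝ => ENNReal.ofReal r * F (circleMap 0 r θ)) :=
      hHm.comp (measurable_id.prodMk measurable_const)
    calc ∫⁻ r in Ioo (1/2 : ℝ) 1, ENNReal.ofReal ‖deriv f (circleMap 0 r θ)‖
        ≤ ∫⁻ r in Ioo (1/2 : ℝ) 1, (1 + 2 * (ENNReal.ofReal r * F (circleMap 0 r θ))) := by
          apply setLIntegral_mono' measurableSet_Ioo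
          intro r hr
          have hz : circleMap 0 r θ ∈ ball (0:ℂ) 1 := by
            rw [mem_ball_zero_iff, norm_circleMap_zero, abs_of_pos (by linarith [hr.1])]
            exact hr.2
          rw [hF, indicator_of_mem hz, ← ENNReal.ofReal_mul (by linarith [hr.1])]
          have h2 : (2:ENNReal) = ENNReal.ofReal 2 := by simp
          have h1 : (1:ENNReal) = ENNReal.ofReal 1 := by simp
          rw [h2, ← ENNReal.ofReal_mul (by norm_num), h1, ← ENNReal.ofReal_add (by norm_num)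
            (by have := hr.1; positivity)]
          apply ENNReal.ofReal_le_ofReal
          have h3 := norm_nonneg (deriv f (circleMap 0 r θ))
          have h4 := hr.1
          nlinarith [sq_nonneg (‖deriv f (circleMap 0 r θ)‖ - 1), sq_nonneg ‖deriv f (circleMap 0 r θ)‖]
      _ = (∫⁻ r in Ioo (1/2 : ℝ) 1, 1) + 2 * ∫⁻ r in Ioo (1/2 : ℝ) 1, ENNReal.ofReal r * F (circleMap 0 r θ) := by
          rw [lintegral_add_left measurable_const, lintegral_const_mul _ hmeas2]
      _ < ⊤ := by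
          apply ENNReal.add_lt_top.mpr
          constructor
          · simp
          · apply ENNReal.mul_lt_top (by simp)
            refine lt_of_le_of_lt ?_ hθ
            exact lintegral_mono_set (fun r hr => show (0:ℝ) < r by linarith [hr.1])
  -- transfer to (0, 2π]
  rw [ae_restrict_iff' measurableSet_Ioo] at hgood
  rw [ae_restrict_iff' measurableSet_Ioc]
  have hshift : ∀ᵐ θ : ℝ, θ + (-(2 * π)) ∈ Ioo (-π) π →
      ∃ w : ℂ, Tendsto (fun r : ℝ => f (circleMap 0 r (θ + (-(2 * π))))) (𝓝[<] 1) (𝓝 w) := by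
    rw [ae_iff] at hgood ⊢
    have h5 := measure_preimage_add_right (volume : Measure ℝ) (-(2 * π))
      {a | ¬(a ∈ Ioo (-π) π → ∃ w : ℂ, Tendsto (fun r : ℝ => f (circleMap 0 r a)) (𝓝[<] 1) (𝓝 w))}
    rw [hgood] at h5
    exact h5
  have hpi : ∀ᵐ θ : ℝ, θ ≠ π := by
    rw [ae_iff]
    simp
  filter_upwards [hgood, hshift, hpi] with θ h1 h2 h3 h4
  by_cases h5 : θ < π
  · exact h1 ⟨by linarith [h4.1, Real.pi_pos], h5⟩
  · have h6 : π < θ := lt_of_le_of_ne (not_lt.mp h5) (Ne.symm h3)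
    obtain ⟨w, hw⟩ := h2 ⟨by linarith, by linarith [h4.2, Real.pi_pos]⟩
    refine ⟨w, ?_⟩
    have h7 : ∀ r : ℝ, circleMap 0 r (θ + (-(2 * π))) = circleMap 0 r θ := by
      intro r
      have := periodic_circleMap 0 r (θ + (-(2 * π)))
      rw [← this]
      congr 1
      ring
    simp only [h7] at hw
    exact hw

end J1921

alias radial_limit_ae := J1921.radial_limit_ae

end CM
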