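import Mathlib
import Pool.Agent.Helper714.CM.Defs

open MeasureTheory Complex Filter Topology Set Metric
open scoped ComplexConjugate Real

noncomputable section

namespace CM

namespace J1922

/-- TARGET: Fatou -/
theorem fatou_bv (f : ℂ → ℂ) (hf : DifferentiableOn ℂ f (ball 0 1)) (b : ℝ → ℂ)
    (hb : ∀ᵐ θ ∂(volume.restrict (Ioc 0 (2 * π))),
      Tendsto (fun r : ℝ => f (circleMap 0 r θ)) (𝓝[<] 1) (𝓝 (b θ)))
    (c r₀ : ℝ) (hr₀ : r₀ < 1)
    (hc : ∀ r ∈ Ioo r₀ 1, 0 < r → ∫ θ in (0:ℝ)..(2 * π), Real.exp (‖f (circleMap 0 r θ)‖ ^ 2) ≤ c) :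
    ∫⁻ θ in Ioc 0 (2 * π), ENNReal.ofReal (Real.exp (‖b θ‖ ^ 2)) ≤ ENNReal.ofReal c := by
  have hmax : max r₀ 0 < 1 := max_lt hr₀ one_pos
  obtain ⟨a, ha⟩ : ∃ a, a = max r₀ 0 := ⟨_, rfl⟩
  rw [← ha] at hmax
  have ha1 : r₀ ≤ a := ha ▸ le_max_left _ _
  have ha0 : 0 ≤ a := ha ▸ le_max_right _ _
  let ρ : ℕ → ℝ := fun n => 1 - (1 - a) / (n + 2)
  have hρ1 : ∀ n, ρ n < 1 := by
    intro n
    have : 0 < (1 - a) / ((n:ℝ) + 2) := by
      apply div_pos (by linarith) (by positivity)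
    simp only [ρ]; linarith
  have hρa : ∀ n, a < ρ n := by
    intro n
    have : (1 - a) / ((n:ℝ) + 2) < 1 - a := by
      rw [div_lt_iff₀ (by positivity)]
      have hn : (0:ℝ) ≤ n := Nat.cast_nonneg n
      nlinarith
    simp only [ρ]; linarith
  have hρt : Tendsto ρ atTop (𝓝[<] 1) := by
    rw [tendsto_nhdsWithin_iff]
    refine ⟨?_, Eventually.of_forall hρ1⟩
    have h1 : Tendsto (fun n : ℕ => (n:ℝ) + 2) atTop atTop :=
      tendsto_atTop_add_const_right _ _ tendsto_natCast_atTop_atTop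
    have h2 : Tendsto (fun n : ℕ => (1 - a) / ((n:ℝ) + 2)) atTop (𝓝 0) := h1.const_div_atTop _
    have h3 := h2.const_sub 1
    rw [sub_zero] at h3
    exact h3
  have hcont : ∀ n, Continuous (fun θ : ℝ => Real.exp (‖f (circleMap 0 (ρ n) θ)‖ ^ 2)) := by
    intro n
    have h1 : Continuous (fun θ : ℝ => f (circleMap 0 (ρ n) θ)) := by
      refine hf.continuousOn.comp_continuous (continuous_circleMap 0 (ρ n)) ?_
      intro θ
      rw [mem_ball_zero_iff, norm_circleMap_zero, abs_of_pos (lt_of_le_of_lt ha0 (hρa n))]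
      exact hρ1 n
    exact Real.continuous_exp.comp (h1.norm.pow 2)
  let F : ℕ → ℝ → ENNReal := fun n θ => ENNReal.ofReal (Real.exp (‖f (circleMap 0 (ρ n) θ)‖ ^ 2))
  have hFm : ∀ n, Measurable (F n) := fun n => (hcont n).measurable.ennreal_ofReal
  have hlim : ∀ᵐ θ ∂(volume.restrict (Ioc 0 (2 * π))),
      ENNReal.ofReal (Real.exp (‖b θ‖ ^ 2)) = liminf (fun n => F n θ) atTop := by
    filter_upwards [hb] with θ hθ
    have h1 : Tendsto (fun n => f (circleMap 0 (ρ n) θ)) atTop (𝓝 (b θ)) := hθ.comp hρt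
    have h2 : Tendsto (fun n => F n θ) atTop (𝓝 (ENNReal.ofReal (Real.exp (‖b θ‖ ^ 2)))) := by
      apply ENNReal.tendsto_ofReal
      apply (Real.continuous_exp.tendsto _).comp
      exact h1.norm.pow 2
    exact h2.liminf_eq.symm
  rw [lintegral_congr_ae hlim]
  refine (lintegral_liminf_le hFm).trans ?_
  have hle : ∀ n, ∫⁻ θ in Ioc 0 (2 * π), F n θ ≤ ENNReal.ofReal c := by
    intro n
    have hint : IntegrableOn (fun θ : ℝ => Real.exp (‖f (circleMap 0 (ρ n) θ)‖ ^ 2)) (Ioc 0 (2 * π)) volume :=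
      ((hcont n).integrableOn_Icc (a := 0) (b := 2 * π)).mono_set Ioc_subset_Icc_self
    rw [← ofReal_integral_eq_lintegral_ofReal hint
      (Eventually.of_forall fun θ => (Real.exp_pos _).le)]
    apply ENNReal.ofReal_le_ofReal
    have := hc (ρ n) ⟨lt_of_le_of_lt ha1 (hρa n), hρ1 n⟩ (lt_of_le_of_lt ha0 (hρa n))
    rwa [intervalIntegral.integral_of_le (by positivity)] at this
  calc liminf (fun n => ∫⁻ θ in Ioc 0 (2 * π), F n θ) atTop
      ≤ liminf (fun _ : ℕ => ENNReal.ofReal c) atTop :=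
        Filter.liminf_le_liminf (Eventually.of_forall hle)
    _ = ENNReal.ofReal c := Filter.liminf_const _

end J1922

alias fatou_bv := J1922.fatou_bv

end CM
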