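import Mathlib
import Pool.Agent.Helper714.CM.Defs

open MeasureTheory Complex Filter Topology Set Metric
open scoped ComplexConjugate Real

noncomputable section

namespace CM

namespace J1923

lemma hasSum_tc {F : ℂ → ℂ} {R : ℝ} (hF : DifferentiableOn ℂ F (ball 0 R)) {z : ℂ}
    (hz : z ∈ ball (0 : ℂ) R) : HasSum (fun k : ℕ => tc F k * z ^ k) (F z) := by
  have h := Complex.hasSum_taylorSeries_on_ball hF hz
  have e : (fun k : ℕ => tc F k * z ^ k) =
      fun n : ℕ => (n.factorial : ℂ)⁻¹ • (z - 0) ^ n • iteratedDeriv n F 0 := by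
    funext k
    unfold tc
    simp only [smul_eq_mul, sub_zero]
    ring
  rw [e]
  exact h

lemma summable_tc {F : ℂ → ℂ} {R : ℝ} (hF : DifferentiableOn ℂ F (ball 0 R)) {r : ℝ}
    (hr : 0 < r) (hrR : r < R) : Summable (fun k : ℕ => ‖tc F k‖ * r ^ k) := by
  have hz : (r : ℂ) ∈ ball (0 : ℂ) R := by
    simp [abs_of_pos hr, hrR]
  have h := (hasSum_tc hF hz).summable.norm
  refine h.congr (fun k => ?_)
  rw [norm_mul, norm_pow, Complex.norm_real, Real.norm_eq_abs, abs_of_pos hr]

lemma circ_mem {r R : ℝ} (hr : 0 < r) (hrR : r < R) (θ : ℝ) :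
    circleMap 0 r θ ∈ ball (0 : ℂ) R := by
  rw [mem_ball_zero_iff, norm_circleMap_zero, abs_of_pos hr]
  exact hrR

lemma integral_pow_conj (r : ℝ) (k j : ℕ) :
    ∫ θ in (0:ℝ)..(2 * π), circleMap 0 r θ ^ k * conj (circleMap 0 r θ) ^ j =
      if j = k then (2 * π : ℂ) * (r : ℂ) ^ (2 * k) else 0 := by
  have h1 : ∀ θ : ℝ, circleMap 0 r θ ^ k * conj (circleMap 0 r θ) ^ j =
      (r : ℂ) ^ (k + j) * Complex.exp ((((k : ℂ) - j) * I) * θ) := by
    intro θ
    rw [circleMap_zero, map_mul, Complex.conj_ofReal, ← Complex.exp_conj, mul_pow, mul_pow,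
      ← Complex.exp_nat_mul, ← Complex.exp_nat_mul]
    have : ((k : ℂ) - j) * I * θ = k * (θ * I) + j * (conj ((θ : ℂ) * I)) := by
      simp only [map_mul, Complex.conj_ofReal, Complex.conj_I]
      ring
    rw [this, Complex.exp_add]
    ring
  simp only [h1]
  rw [intervalIntegral.integral_const_mul]
  by_cases hjk : j = k
  · subst hjk
    simp only [sub_self, zero_mul, Complex.exp_zero, if_pos]
    rw [intervalIntegral.integral_const]
    simp only [sub_zero, Complex.real_smul, mul_one]
    push_cast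
    ring
  · rw [if_neg hjk]
    have hc : ((k : ℂ) - j) * I ≠ 0 := by
      apply mul_ne_zero _ Complex.I_ne_zero
      rw [sub_ne_zero]
      exact_mod_cast (fun h : k = j => hjk h.symm)
    rw [integral_exp_mul_complex hc]
    have h2 : Complex.exp (((k : ℂ) - j) * I * ((2 * π : ℝ) : ℂ)) = 1 := by
      rw [Complex.exp_eq_one_iff]
      refine ⟨(k : ℤ) - j, ?_⟩
      push_cast
      ring
    rw [h2]
    simp

lemma cont_circle {H : ℂ → ℂ} {R : ℝ} (hH : DifferentiableOn ℂ H (ball 0 R)) {r : ℝ}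
    (hr : 0 < r) (hrR : r < R) : Continuous (fun θ : ℝ => H (circleMap 0 r θ)) :=
  hH.continuousOn.comp_continuous (continuous_circleMap 0 r) (circ_mem hr hrR)

lemma integral_pow_conj_H {H : ℂ → ℂ} {R : ℝ} (hH : DifferentiableOn ℂ H (ball 0 R)) {r : ℝ}
    (hr : 0 < r) (hrR : r < R) (k : ℕ) :
    ∫ θ in (0:ℝ)..(2 * π), circleMap 0 r θ ^ k * conj (H (circleMap 0 r θ)) =
      (2 * π : ℂ) * (conj (tc H k) * (r : ℂ) ^ (2 * k)) := by
  have hs := summable_tc hH hr hrR
  have key : HasSum (fun j : ℕ => ∫ θ in (0:ℝ)..(2 * π),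
      circleMap 0 r θ ^ k * (conj (tc H j) * conj (circleMap 0 r θ) ^ j))
      (∫ θ in (0:ℝ)..(2 * π), circleMap 0 r θ ^ k * conj (H (circleMap 0 r θ))) := by
    apply intervalIntegral.hasSum_integral_of_dominated_convergence
      (fun j _ => r ^ k * (‖tc H j‖ * r ^ j))
    · intro j
      apply Continuous.aestronglyMeasurable
      have := continuous_circleMap (0 : ℂ) r
      fun_prop
    · intro j
      refine Filter.Eventually.of_forall (fun θ _ => ?_)
      rw [norm_mul, norm_mul, norm_pow, norm_pow, RCLike.norm_conj, RCLike.norm_conj,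
        norm_circleMap_zero, abs_of_pos hr]
    · exact Filter.Eventually.of_forall (fun θ _ => hs.mul_left _)
    · exact intervalIntegrable_const
    · refine Filter.Eventually.of_forall (fun θ _ => ?_)
      have h1 := hasSum_tc hH (circ_mem hr hrR θ)
      have h2 : HasSum (fun j => conj (tc H j * circleMap 0 r θ ^ j))
          (conj (H (circleMap 0 r θ))) := by
        have := h1.map (starRingEnd ℂ) Complex.continuous_conj
        exact this
      have h3 := h2.mul_left (circleMap 0 r θ ^ k)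
      have e : (fun j : ℕ => circleMap 0 r θ ^ k * (conj (tc H j) * conj (circleMap 0 r θ) ^ j)) =
          fun j : ℕ => circleMap 0 r θ ^ k * conj (tc H j * circleMap 0 r θ ^ j) := by
        funext j
        rw [map_mul, map_pow]
      rw [e]
      exact h3
  have h4 : ∀ j, (∫ θ in (0:ℝ)..(2 * π),
      circleMap 0 r θ ^ k * (conj (tc H j) * conj (circleMap 0 r θ) ^ j)) =
      if j = k then (2 * π : ℂ) * (conj (tc H k) * (r : ℂ) ^ (2 * k)) else 0 := by
    intro j
    have : ∀ θ : ℝ, circleMap 0 r θ ^ k * (conj (tc H j) * conj (circleMap 0 r θ) ^ j) =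
        conj (tc H j) * (circleMap 0 r θ ^ k * conj (circleMap 0 r θ) ^ j) := by
      intro θ
      ring
    simp only [this]
    rw [intervalIntegral.integral_const_mul, integral_pow_conj]
    split_ifs with h
    · subst h
      ring
    · ring
  simp only [h4] at key
  exact key.unique (hasSum_ite_eq k _)

/-- TARGET 1: Parseval on a circle. -/
theorem parseval_circle (F H : ℂ → ℂ) (R : ℝ) (hF : DifferentiableOn ℂ F (ball 0 R))
    (hH : DifferentiableOn ℂ H (ball 0 R)) (r : ℝ) (hr : 0 < r) (hrR : r < R) :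
    HasSum (fun k : ℕ => tc F k * conj (tc H k) * (r : ℂ) ^ (2 * k))
      ((1 / (2 * π) : ℝ) • ∫ θ in (0:ℝ)..(2 * π),
        F (circleMap 0 r θ) * conj (H (circleMap 0 r θ))) := by
  have hs := summable_tc hF hr hrR
  have hHc := cont_circle hH hr hrR
  obtain ⟨M, hM⟩ : ∃ M : ℝ, ∀ θ ∈ Icc (0 : ℝ) (2 * π), ‖H (circleMap 0 r θ)‖ ≤ M := by
    obtain ⟨M, hM⟩ := (isCompact_Icc (a := (0 : ℝ)) (b := 2 * π)).exists_bound_of_continuousOn
      hHc.continuousOn
    exact ⟨M, hM⟩
  have key : HasSum (fun k : ℕ => ∫ θ in (0:ℝ)..(2 * π),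
      (tc F k * circleMap 0 r θ ^ k) * conj (H (circleMap 0 r θ)))
      (∫ θ in (0:ℝ)..(2 * π), F (circleMap 0 r θ) * conj (H (circleMap 0 r θ))) := by
    apply intervalIntegral.hasSum_integral_of_dominated_convergence
      (fun k _ => ‖tc F k‖ * r ^ k * M)
    · intro k
      apply Continuous.aestronglyMeasurable
      have := continuous_circleMap (0 : ℂ) r
      have h2 : Continuous (fun θ : ℝ => conj (H (circleMap 0 r θ))) :=
        Complex.continuous_conj.comp hHc
      fun_prop
    · intro k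
      refine Filter.Eventually.of_forall (fun θ hθ => ?_)
      rw [norm_mul, norm_mul, norm_pow, RCLike.norm_conj, norm_circleMap_zero, abs_of_pos hr]
      apply mul_le_mul_of_nonneg_left _ (by positivity)
      apply hM
      rw [uIoc_of_le (by positivity)] at hθ
      exact ⟨hθ.1.le, hθ.2⟩
    · exact Filter.Eventually.of_forall (fun θ _ => hs.mul_right _)
    · exact intervalIntegrable_const
    · refine Filter.Eventually.of_forall (fun θ _ => ?_)
      exact (hasSum_tc hF (circ_mem hr hrR θ)).mul_right _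
  have h4 : ∀ k, (∫ θ in (0:ℝ)..(2 * π),
      (tc F k * circleMap 0 r θ ^ k) * conj (H (circleMap 0 r θ))) =
      (2 * π : ℂ) * (tc F k * conj (tc H k) * (r : ℂ) ^ (2 * k)) := by
    intro k
    have : ∀ θ : ℝ, (tc F k * circleMap 0 r θ ^ k) * conj (H (circleMap 0 r θ)) =
        tc F k * (circleMap 0 r θ ^ k * conj (H (circleMap 0 r θ))) := by
      intro θ
      ring
    simp only [this]
    rw [intervalIntegral.integral_const_mul, integral_pow_conj_H hH hr hrR]
    ring
  simp only [h4] at key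
  have h5 := key.const_smul (1 / (2 * π) : ℝ)
  have hpi : (π : ℂ) ≠ 0 := by exact_mod_cast Real.pi_ne_zero
  have e : (fun k : ℕ => tc F k * conj (tc H k) * (r : ℂ) ^ (2 * k)) =
      fun k : ℕ => (1 / (2 * π) : ℝ) •
        ((2 * π : ℂ) * (tc F k * conj (tc H k) * (r : ℂ) ^ (2 * k))) := by
    funext k
    rw [Complex.real_smul]
    push_cast
    field_simp
  rw [e]
  exact h5

end J1923

alias parseval_circle := J1923.parseval_circle

end CM
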