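import Mathlib
import Pool.Agent.Helper714.CM.Defs

open MeasureTheory Complex Filter Topology Set Metric
open scoped ComplexConjugate Real

noncomputable section

namespace CM

namespace J1924

theorem hx1924_circ (g : ℂ → ℂ) (z : ℂ) (s r : ℝ) (hr0 : 0 < r) (hrs : r < s)
    (hg : DifferentiableOn ℂ g (ball z s)) :
    ∫ θ in Ioo (-π) π, g (circleMap z r θ) = (2 * π) • g z := by
  have hd : DiffContOnCl ℂ g (ball z |r|) := by
    apply DifferentiableOn.diffContOnCl
    rw [abs_of_pos hr0]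
    exact hg.mono ((closure_ball_subset_closedBall).trans (closedBall_subset_ball hrs))
  have h1 := hd.circleAverage
  rw [Real.circleAverage_eq_integral_add (-π)] at h1
  have h2 : ∫ θ in (0:ℝ)..2 * π, g (circleMap z r (θ + -π))
      = ∫ θ in (-π)..π, g (circleMap z r θ) := by
    rw [intervalIntegral.integral_comp_add_right (fun θ => g (circleMap z r θ))]
    congr 1 <;> ring
  rw [h2, intervalIntegral.integral_of_le (by linarith [Real.pi_pos]),
    integral_Ioc_eq_integral_Ioo] at h1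
  rw [← h1, smul_smul, mul_inv_cancel₀ (by positivity), one_smul]

theorem hx1924_area (g : ℂ → ℂ) (hgm : Measurable g) (z : ℂ) (s : ℝ) (hs : 0 < s)
    (hg : DifferentiableOn ℂ g (ball z s)) :
    ENNReal.ofReal (π * s^2) * ‖g z‖ₑ ≤ ∫⁻ w in ball z s, ‖g w‖ₑ := by
  set F : ℂ → ENNReal := (ball z s).indicator (fun w => ‖g w‖ₑ) with hF
  have hFm : Measurable F := hgm.enorm.indicator measurableSet_ball
  have h1 : ∫⁻ w in ball z s, ‖g w‖ₑ = ∫⁻ w, F (z + w) := by
    rw [lintegral_add_left_eq_self F z, hF, lintegral_indicator measurableSet_ball]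
  rw [h1, ← Complex.lintegral_comp_polarCoord_symm (fun w => F (z + w))]
  have htar : polarCoord.target = Ioi (0:ℝ) ×ˢ Ioo (-π) π := rfl
  rw [htar, Measure.volume_eq_prod, setLIntegral_prod]
  swap
  · apply Measurable.aemeasurable
    apply Measurable.mul
    · exact (measurable_fst).ennreal_ofReal
    · apply hFm.comp
      apply Measurable.const_add
      have : (Complex.polarCoord.symm : ℝ × ℝ → ℂ) = fun a : ℝ × ℝ =>
          (a.1 : ℂ) * (Real.cos a.2 + Real.sin a.2 * Complex.I) := by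
        funext a; exact Complex.polarCoord_symm_apply a
      rw [this]
      fun_prop
  calc ENNReal.ofReal (π * s^2) * ‖g z‖ₑ
      = ∫⁻ r in Ioo (0:ℝ) s, ENNReal.ofReal r * (ENNReal.ofReal (2 * π) * ‖g z‖ₑ) := by
        rw [lintegral_mul_const _ ENNReal.measurable_ofReal]
        have h2 : ∫⁻ r in Ioo (0:ℝ) s, ENNReal.ofReal r = ENNReal.ofReal (s^2/2) := by
          rw [← ofReal_integral_eq_lintegral_ofReal]
          · rw [← integral_Ioc_eq_integral_Ioo, ← intervalIntegral.integral_of_le hs.le,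
              integral_id]
            congr 1
            ring
          · exact (intervalIntegrable_iff_integrableOn_Ioo_of_le hs.le).mp
              intervalIntegral.intervalIntegrable_id
          · filter_upwards [ae_restrict_mem measurableSet_Ioo] with r hr using hr.1.le
        rw [h2, ← mul_assoc, ← ENNReal.ofReal_mul (by positivity)]
        congr 2
        ring
    _ ≤ ∫⁻ r in Ioo (0:ℝ) s, ∫⁻ θ in Ioo (-π) π,
          ENNReal.ofReal (r, θ).1 • F (z + Complex.polarCoord.symm (r, θ)) := by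
        apply setLIntegral_mono' measurableSet_Ioo
        intro r hr
        have h3 : ∀ θ : ℝ, F (z + Complex.polarCoord.symm (r, θ)) = ‖g (circleMap z r θ)‖ₑ := by
          intro θ
          have e1 : z + Complex.polarCoord.symm (r, θ) = circleMap z r θ := by
            rw [Complex.polarCoord_symm_apply, circleMap, Complex.exp_mul_I]
            push_cast
            rfl
          rw [e1, hF, indicator_of_mem]
          rw [mem_ball, dist_eq_norm, circleMap_sub_center, norm_circleMap_zero,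
            abs_of_pos hr.1]
          exact hr.2
        simp_rw [h3, smul_eq_mul]
        rw [lintegral_const_mul _ (by
          apply Measurable.enorm
          exact hgm.comp (by fun_prop))]
        gcongr
        calc ENNReal.ofReal (2 * π) * ‖g z‖ₑ = ‖∫ θ in Ioo (-π) π, g (circleMap z r θ)‖ₑ := by
              rw [hx1924_circ g z s r hr.1 hr.2 hg, enorm_smul,
                Real.enorm_of_nonneg (by positivity)]
          _ ≤ _ := enorm_integral_le_lintegral_enorm _
    _ ≤ _ := lintegral_mono_set Ioo_subset_Ioi_self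

/-- TARGET 1: little Bloch -/
theorem little_bloch (f : ℂ → ℂ) (hf : DifferentiableOn ℂ f (ball 0 1))
    (hD : ∫⁻ z in ball (0:ℂ) 1, ENNReal.ofReal (‖deriv f z‖ ^ 2) < ⊤) (ε : ℝ) (hε : 0 < ε) :
    ∃ ρ : ℝ, 0 < ρ ∧ ρ < 1 ∧ ∀ z : ℂ, ρ < ‖z‖ → ‖z‖ < 1 → (1 - ‖z‖) * ‖deriv f z‖ ≤ ε := by
  have hg : DifferentiableOn ℂ (deriv f) (ball 0 1) := hf.deriv isOpen_ball
  set S : ℕ → Set ℂ := fun n => {w | 1 - 1/((n:ℝ)+1) < ‖w‖} with hS
  have hSm : ∀ n, MeasurableSet (S n) := fun n => measurableSet_lt measurable_const measurable_norm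
  have hanti : Antitone S := by
    intro m n hmn w hw
    have h1 : 1 - 1/((n:ℝ)+1) < ‖w‖ := hw
    show 1 - 1/((m:ℝ)+1) < ‖w‖
    have h2 : 1/((n:ℝ)+1) ≤ 1/((m:ℝ)+1) := by
      apply one_div_le_one_div_of_le (by positivity)
      have : (m:ℝ) ≤ n := by exact_mod_cast hmn
      linarith
    linarith
  have hint : (volume.restrict (ball (0:ℂ) 1)) (⋂ n, S n) = 0 := by
    rw [Measure.restrict_apply (MeasurableSet.iInter hSm)]
    have : (⋂ n, S n) ∩ ball (0:ℂ) 1 = ∅ := by
      rw [Set.eq_empty_iff_forall_notMem]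
      rintro w ⟨h1, h2⟩
      rw [mem_ball_zero_iff] at h2
      obtain ⟨n, hn⟩ := exists_nat_one_div_lt (show (0:ℝ) < 1 - ‖w‖ by linarith)
      have h3 : 1 - 1/((n:ℝ)+1) < ‖w‖ := mem_iInter.mp h1 n
      linarith
    rw [this, measure_empty]
  have hten : Tendsto ((volume.restrict (ball (0:ℂ) 1)) ∘ S) atTop (𝓝 0) := by
    rw [← hint]
    apply tendsto_measure_iInter_atTop (fun n => (hSm n).nullMeasurableSet) hanti
    refine ⟨0, ?_⟩
    have : (volume.restrict (ball (0:ℂ) 1)) (S 0) ≤ volume (ball (0:ℂ) 1) := by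
      rw [Measure.restrict_apply (hSm 0)]
      exact measure_mono inter_subset_right
    exact (this.trans_lt measure_ball_lt_top).ne
  have hten2 := tendsto_setLIntegral_zero hD.ne hten
  have hcpos : (0:ENNReal) < ENNReal.ofReal (π * ε^2 / 4) := by
    rw [ENNReal.ofReal_pos]; positivity
  obtain ⟨n, hn⟩ := (hten2.eventually (gt_mem_nhds hcpos)).exists
  set a : ℝ := 1/((n:ℝ)+1) with ha
  have ha0 : 0 < a := by positivity
  have ha1 : a ≤ 1 := by
    rw [ha, div_le_one (by positivity)]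
    have : (0:ℝ) ≤ n := Nat.cast_nonneg n
    linarith
  refine ⟨1 - a/2, by linarith, by linarith, ?_⟩
  intro z hz1 hz2
  set δ : ℝ := 1 - ‖z‖ with hδ
  have hδ0 : 0 < δ := by linarith
  have hδ1 : δ < a/2 := by linarith
  have hsub : ball z (δ/2) ⊆ S n ∩ ball 0 1 := by
    intro w hw
    rw [mem_ball, dist_eq_norm] at hw
    constructor
    · show 1 - 1/((n:ℝ)+1) < ‖w‖
      have : ‖z‖ ≤ ‖w‖ + ‖w - z‖ := by
        calc ‖z‖ = ‖w - (w - z)‖ := by congr 1; ring
          _ ≤ _ := norm_sub_le _ _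
      rw [← ha]
      linarith
    · rw [mem_ball_zero_iff]
      have : ‖w‖ ≤ ‖z‖ + ‖w - z‖ := by
        calc ‖w‖ = ‖z + (w - z)‖ := by congr 1; ring
          _ ≤ _ := norm_add_le _ _
      linarith
  have harea := hx1924_area (fun w => deriv f w ^ 2) ((measurable_deriv f).pow_const 2) z (δ/2)
    (by positivity) ((hg.mono (hsub.trans inter_subset_right)).pow 2)
  have h5 : ∫⁻ w in ball z (δ/2), ‖deriv f w ^ 2‖ₑ ≤ ENNReal.ofReal (π * ε^2 / 4) := by
    calc ∫⁻ w in ball z (δ/2), ‖deriv f w ^ 2‖ₑ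
        ≤ ∫⁻ w in S n ∩ ball 0 1, ‖deriv f w ^ 2‖ₑ := lintegral_mono_set hsub
      _ = ∫⁻ w in S n ∩ ball 0 1, ENNReal.ofReal (‖deriv f w‖ ^ 2) := by
          congr 1
          funext w
          rw [← norm_pow, ofReal_norm]
      _ = ∫⁻ w in S n, ENNReal.ofReal (‖deriv f w‖ ^ 2) ∂(volume.restrict (ball (0:ℂ) 1)) := by
          rw [Measure.restrict_restrict (hSm n)]
      _ ≤ _ := hn.le
  have h6 := harea.trans h5
  rw [← ofReal_norm, ← ENNReal.ofReal_mul (by positivity),
    ENNReal.ofReal_le_ofReal_iff (by positivity), norm_pow] at h6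
  have h7 : (δ * ‖deriv f z‖)^2 ≤ ε^2 := by
    have h8 : π * ((δ * ‖deriv f z‖)^2) ≤ π * ε^2 := by nlinarith
    exact le_of_mul_le_mul_left h8 Real.pi_pos
  exact le_of_sq_le_sq h7 hε.le

/-- TARGET 2: a radial limit is a nontangential limit -/
theorem nontangential_of_radial (f : ℂ → ℂ) (hf : DifferentiableOn ℂ f (ball 0 1))
    (hD : ∫⁻ z in ball (0:ℂ) 1, ENNReal.ofReal (‖deriv f z‖ ^ 2) < ⊤) (θ : ℝ) (w : ℂ)
    (hw : Tendsto (fun r : ℝ => f (circleMap 0 r θ)) (𝓝[<] 1) (𝓝 w)) (M : ℝ) :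
    Tendsto f (𝓝[{z : ℂ | ‖z‖ < 1 ∧ ‖z - circleMap 0 1 θ‖ ≤ M * (1 - ‖z‖)}] (circleMap 0 1 θ))
      (𝓝 w) := by
  set T : Set ℂ := {z : ℂ | ‖z‖ < 1 ∧ ‖z - circleMap 0 1 θ‖ ≤ M * (1 - ‖z‖)} with hT
  set e : ℂ := circleMap 0 1 θ with he
  have hne : ‖e‖ = 1 := by rw [he, norm_circleMap_zero, abs_one]
  have hnorm : Tendsto (fun z : ℂ => ‖z‖) (𝓝 e) (𝓝 1) := by
    rw [← hne]; exact continuous_norm.tendsto e
  have hnorm' : Tendsto (fun z : ℂ => ‖z‖) (𝓝[T] e) (𝓝[<] 1) := by
    apply tendsto_nhdsWithin_of_tendsto_nhds_of_eventually_within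
    · exact hnorm.mono_left nhdsWithin_le_nhds
    · filter_upwards [self_mem_nhdsWithin] with z hz using hz.1
  have hrad : Tendsto (fun z : ℂ => f (circleMap 0 ‖z‖ θ)) (𝓝[T] e) (𝓝 w) := hw.comp hnorm'
  set K : ℝ := |M| + 1 with hK
  have hK0 : 0 < K := by positivity
  have hdiff : Tendsto (fun z : ℂ => f z - f (circleMap 0 ‖z‖ θ)) (𝓝[T] e) (𝓝 0) := by
    rw [Metric.tendsto_nhds]
    intro η hη
    obtain ⟨ρ, hρ0, hρ1, hρ⟩ := little_bloch f hf hD (η / (2 * K)) (by positivity)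
    have hev : ∀ᶠ z : ℂ in 𝓝 e, ρ < ‖z‖ - K * (1 - ‖z‖) := by
      have ht : Tendsto (fun z : ℂ => ‖z‖ - K * (1 - ‖z‖)) (𝓝 e) (𝓝 (1 - K * (1 - 1))) :=
        hnorm.sub ((tendsto_const_nhds.sub hnorm).const_mul K)
      rw [sub_self, mul_zero, sub_zero] at ht
      exact ht.eventually (lt_mem_nhds hρ1)
    filter_upwards [self_mem_nhdsWithin, hev.filter_mono nhdsWithin_le_nhds] with z hzT hzρ
    obtain ⟨hz1, hz2⟩ := hzT
    have hδ0 : 0 < 1 - ‖z‖ := by linarith
    set z' : ℂ := circleMap 0 ‖z‖ θ with hz'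
    have hnz' : ‖z'‖ = ‖z‖ := by rw [hz', norm_circleMap_zero, abs_of_nonneg (norm_nonneg z)]
    have hez' : ‖e - z'‖ = 1 - ‖z‖ := by
      have : e - z' = ((1 - ‖z‖ : ℝ) : ℂ) * Complex.exp (θ * Complex.I) := by
        rw [he, hz', circleMap, circleMap]
        push_cast
        ring
      rw [this, norm_mul, Complex.norm_exp_ofReal_mul_I, mul_one, Complex.norm_real,
        Real.norm_of_nonneg hδ0.le]
    have hzz' : ‖z - z'‖ ≤ K * (1 - ‖z‖) := by
      calc ‖z - z'‖ = ‖(z - e) + (e - z')‖ := by congr 1; ring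
        _ ≤ ‖z - e‖ + ‖e - z'‖ := norm_add_le _ _
        _ ≤ M * (1 - ‖z‖) + (1 - ‖z‖) := by rw [hez']; linarith
        _ ≤ |M| * (1 - ‖z‖) + (1 - ‖z‖) := by
            gcongr
            exact le_abs_self M
        _ = K * (1 - ‖z‖) := by rw [hK]; ring
    have hseg : ∀ u ∈ segment ℝ z' z, ρ < ‖u‖ ∧ ‖u‖ ≤ ‖z‖ := by
      intro u hu
      constructor
      · have h1 : ‖u - z‖ ≤ ‖z' - z‖ := by
          have := mem_closedBall.mp ((convex_closedBall z ‖z' - z‖).segment_subset
            (mem_closedBall.mpr (by rw [dist_eq_norm])) (mem_closedBall.mpr (by simp)) hu)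
          rwa [dist_eq_norm] at this
        have h2 : ‖z‖ ≤ ‖u‖ + ‖u - z‖ := by
          calc ‖z‖ = ‖u - (u - z)‖ := by congr 1; ring
            _ ≤ _ := norm_sub_le _ _
        rw [norm_sub_rev z' z] at h1
        linarith
      · have := mem_closedBall.mp ((convex_closedBall (0:ℂ) ‖z‖).segment_subset
            (mem_closedBall.mpr (by rw [dist_zero_right, hnz'])) (mem_closedBall.mpr (by simp)) hu)
        rwa [dist_zero_right] at this
    have hbd : ∀ u ∈ segment ℝ z' z, ‖deriv f u‖ ≤ η / (2 * K) / (1 - ‖z‖) := by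
      intro u hu
      obtain ⟨h1, h2⟩ := hseg u hu
      have h3 := hρ u h1 (by linarith)
      rw [le_div_iff₀ hδ0]
      calc ‖deriv f u‖ * (1 - ‖z‖) ≤ ‖deriv f u‖ * (1 - ‖u‖) := by gcongr
        _ = (1 - ‖u‖) * ‖deriv f u‖ := mul_comm _ _
        _ ≤ _ := h3
    have hdf : ∀ u ∈ segment ℝ z' z, DifferentiableAt ℂ f u := by
      intro u hu
      obtain ⟨h1, h2⟩ := hseg u hu
      exact hf.differentiableAt (isOpen_ball.mem_nhds (mem_ball_zero_iff.mpr (by linarith)))
    have hmv := (convex_segment z' z).norm_image_sub_le_of_norm_deriv_le (f := f) hdf hbd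
      (left_mem_segment ℝ z' z) (right_mem_segment ℝ z' z)
    rw [dist_zero_right]
    calc ‖f z - f z'‖ ≤ η / (2 * K) / (1 - ‖z‖) * ‖z - z'‖ := hmv
      _ ≤ η / (2 * K) / (1 - ‖z‖) * (K * (1 - ‖z‖)) := by gcongr
      _ = η / 2 := by field_simp
      _ < η := by linarith
  have := hdiff.add hrad
  simpa using this

end J1924

alias little_bloch := J1924.little_bloch
alias nontangential_of_radial := J1924.nontangential_of_radial

end CM
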