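import Mathlib
import Pool.Agent.Helper714.CM.Defs
import Pool.Agent.Helper714.CM.J1923

open MeasureTheory Complex Filter Topology Set Metric
open scoped ComplexConjugate Real

noncomputable section

namespace CM

namespace J1933

section aux

lemma tc_zero (F : ℂ → ℂ) : tc F 0 = F 0 := by simp [tc]

lemma analyticAt_zero {F : ℂ → ℂ} {R : ℝ} (hR : 0 < R) (hF : DifferentiableOn ℂ F (ball 0 R)) :
    AnalyticAt ℂ F 0 := hF.analyticAt (isOpen_ball.mem_nhds (mem_ball_self hR))

lemma hasSum_tc {F : ℂ → ℂ} {R : ℝ} (hF : DifferentiableOn ℂ F (ball 0 R)) {z : ℂ}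
    (hz : z ∈ ball (0 : ℂ) R) : HasSum (fun n : ℕ => tc F n * z ^ n) (F z) := by
  have h := Complex.hasSum_taylorSeries_on_ball hF hz
  have e : (fun n : ℕ => tc F n * z ^ n) =
      fun n : ℕ => ((n.factorial : ℂ))⁻¹ • (z - 0) ^ n • iteratedDeriv n F 0 := by
    funext n
    simp only [tc, sub_zero, smul_eq_mul]
    ring
  rw [e]
  exact h

lemma tc_zmul {G : ℂ → ℂ} {R : ℝ} (hR : 0 < R) (hG : DifferentiableOn ℂ G (ball 0 R)) (k : ℕ) :
    tc (fun z => z * G z) (k + 1) = tc G k := by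
  unfold tc
  rw [iteratedDeriv_fun_mul (f := fun a : ℂ => a) contDiffAt_id
    (analyticAt_zero hR hG).contDiffAt]
  rw [Finset.sum_eq_single 1]
  · rw [iteratedDeriv_fun_id_zero]
    simp only [Nat.choose_one_right, if_true, mul_one, Nat.add_sub_cancel]
    rw [Nat.factorial_succ]
    have h1 : ((k.factorial : ℕ) : ℂ) ≠ 0 := by exact_mod_cast Nat.factorial_ne_zero k
    have h2 : ((k : ℂ) + 1) ≠ 0 := by exact_mod_cast Nat.succ_ne_zero k
    push_cast
    field_simp
  · intro i _ hi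
    rw [iteratedDeriv_fun_id_zero, if_neg hi]; ring
  · intro h
    exact absurd (Finset.mem_range.mpr (by omega)) h

lemma diff_pow_mul {G : ℂ → ℂ} {R : ℝ} (hG : DifferentiableOn ℂ G (ball 0 R)) (n : ℕ) :
    DifferentiableOn ℂ (fun z => z ^ n * G z) (ball 0 R) :=
  (differentiable_pow n).differentiableOn.mul hG

lemma tc_powmul {G : ℂ → ℂ} {R : ℝ} (hR : 0 < R) (hG : DifferentiableOn ℂ G (ball 0 R)) (n : ℕ) :
    ∀ k, tc (fun z => z ^ n * G z) (k + n) = tc G k := by
  induction n with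
  | zero => intro k; simp
  | succ n ih =>
    intro k
    have h1 : (fun z : ℂ => z ^ (n + 1) * G z) = fun z => z * (z ^ n * G z) := by
      funext z; ring
    rw [h1, show k + (n + 1) = (k + n) + 1 by ring, tc_zmul hR (diff_pow_mul hG n), ih]

lemma tc_powmul_lt {G : ℂ → ℂ} {R : ℝ} (hR : 0 < R) (hG : DifferentiableOn ℂ G (ball 0 R)) (n : ℕ) :
    ∀ k, k < n → tc (fun z => z ^ n * G z) k = 0 := by
  induction n with
  | zero => intro k hk; omega
  | succ n ih =>
    intro k hk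
    have h1 : (fun z : ℂ => z ^ (n + 1) * G z) = fun z => z * (z ^ n * G z) := by
      funext z; ring
    rw [h1]
    rcases k with _ | k
    · rw [tc_zero]; simp
    · rw [tc_zmul hR (diff_pow_mul hG n), ih k (by omega)]

lemma tc_zderiv {f : ℂ → ℂ} {R : ℝ} (hR : 0 < R) (hf : DifferentiableOn ℂ f (ball 0 R)) (k : ℕ) :
    tc (fun z => z * deriv f z) k = k * tc f k := by
  rcases k with _ | k
  · rw [tc_zero]; simp
  · rw [tc_zmul hR (hf.deriv isOpen_ball)]
    unfold tc
    rw [iteratedDeriv_succ', Nat.factorial_succ]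
    have h1 : ((k.factorial : ℕ) : ℂ) ≠ 0 := by exact_mod_cast Nat.factorial_ne_zero k
    have h2 : ((k : ℂ) + 1) ≠ 0 := by exact_mod_cast Nat.succ_ne_zero k
    push_cast
    field_simp

lemma tc_one (k : ℕ) : tc (fun _ => 1) k = if k = 0 then 1 else 0 := by
  unfold tc
  rw [iteratedDeriv_const]
  split_ifs with h
  · rw [h]; simp
  · simp

lemma tc_pow (n k : ℕ) : tc (fun z => z ^ n) k = if k = n then 1 else 0 := by
  unfold tc
  rw [iteratedDeriv_fun_pow_zero]
  split_ifs with h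
  · rw [h]
    have h1 : ((n.factorial : ℕ) : ℂ) ≠ 0 := by exact_mod_cast Nat.factorial_ne_zero n
    field_simp
  · simp

lemma coeff_zero (c : ℕ → ℂ) (ρ : ℝ) (hρ : 0 < ρ)
    (h : ∀ x : ℝ, 0 < x → x < ρ → HasSum (fun j => c j * (x : ℂ) ^ j) 0) : ∀ j, c j = 0 := by
  classical
  by_contra hne
  push Not at hne
  set m := Nat.find hne with hm
  have hcm : c m ≠ 0 := Nat.find_spec hne
  have hlt : ∀ j < m, c j = 0 := fun j hj => by
    by_contra hcon
    exact Nat.find_min hne hj hcon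
  set x0 := ρ / 2 with hx0
  have hx0p : 0 < x0 := by positivity
  have hs := (h x0 hx0p (by rw [hx0]; linarith)).summable.norm
  set B := ∑' j, ‖c j * (x0 : ℂ) ^ j‖ with hB
  have hBj : ∀ j, ‖c j‖ * x0 ^ j ≤ B := by
    intro j
    have h1 := hs.le_tsum j (fun i _ => norm_nonneg _)
    rw [norm_mul, norm_pow, Complex.norm_real, Real.norm_eq_abs, abs_of_pos hx0p] at h1
    exact h1
  have hB0 : 0 ≤ B := tsum_nonneg fun j => norm_nonneg _
  have hδ : 0 < ‖c m‖ * x0 ^ m := mul_pos (norm_pos_iff.mpr hcm) (pow_pos hx0p m)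
  have key : ∀ t : ℝ, 0 < t → t ≤ 1 / 2 → ‖c m‖ * x0 ^ m ≤ 2 * B * t := by
    intro t ht0 ht1
    have h1 := h (t * x0) (mul_pos ht0 hx0p) (by rw [hx0]; nlinarith)
    rw [← hasSum_nat_add_iff' (m + 1)] at h1
    have h2 : ∑ i ∈ Finset.range (m + 1), c i * ((t * x0 : ℝ) : ℂ) ^ i
        = c m * ((t * x0 : ℝ) : ℂ) ^ m := by
      rw [Finset.sum_range_succ, Finset.sum_eq_zero, zero_add]
      intro i hi
      rw [hlt i (Finset.mem_range.mp hi), zero_mul]
    rw [h2, zero_sub] at h1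
    have h3 : HasSum (fun j : ℕ => (B * t ^ (m + 1)) * t ^ j) ((B * t ^ (m + 1)) * (1 - t)⁻¹) :=
      (hasSum_geometric_of_lt_one ht0.le (by linarith)).mul_left _
    have h4 := h1.norm_le_of_bounded h3 (fun j => by
      rw [norm_mul, norm_pow, Complex.norm_real, Real.norm_eq_abs,
        abs_of_pos (mul_pos ht0 hx0p), mul_pow]
      calc ‖c (j + (m + 1))‖ * (t ^ (j + (m + 1)) * x0 ^ (j + (m + 1)))
          = (‖c (j + (m + 1))‖ * x0 ^ (j + (m + 1))) * t ^ (j + (m + 1)) := by ring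
        _ ≤ B * t ^ (j + (m + 1)) := mul_le_mul_of_nonneg_right (hBj _) (by positivity)
        _ = B * t ^ (m + 1) * t ^ j := by rw [pow_add]; ring)
    rw [norm_neg, norm_mul, norm_pow, Complex.norm_real, Real.norm_eq_abs,
        abs_of_pos (mul_pos ht0 hx0p), mul_pow] at h4
    have h5 : (1 - t)⁻¹ ≤ 2 := by
      rw [inv_le_comm₀ (by linarith) (by norm_num)]
      linarith
    have h6 : ‖c m‖ * (t ^ m * x0 ^ m) ≤ B * t ^ (m + 1) * 2 :=
      h4.trans (mul_le_mul_of_nonneg_left h5 (by positivity))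
    have htm : 0 < t ^ m := pow_pos ht0 m
    have h7 : t ^ m * (‖c m‖ * x0 ^ m) ≤ t ^ m * (2 * B * t) := by
      calc t ^ m * (‖c m‖ * x0 ^ m) = ‖c m‖ * (t ^ m * x0 ^ m) := by ring
        _ ≤ B * t ^ (m + 1) * 2 := h6
        _ = t ^ m * (2 * B * t) := by rw [pow_succ]; ring
    exact le_of_mul_le_mul_left h7 htm
  set δ := ‖c m‖ * x0 ^ m with hδdef
  have h8 := key (min (1 / 2) (δ / (4 * (B + 1)))) (lt_min (by norm_num) (by positivity))
    (min_le_left _ _)
  have h9 : 2 * B * min (1 / 2) (δ / (4 * (B + 1))) ≤ 2 * B * (δ / (4 * (B + 1))) :=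
    mul_le_mul_of_nonneg_left (min_le_right _ _) (by positivity)
  have h10 : 2 * B * (δ / (4 * (B + 1))) < δ := by
    rw [← mul_div_assoc, div_lt_iff₀ (by positivity)]
    nlinarith
  linarith

/-- the normalised circle pairing -/
def II (F H : ℂ → ℂ) (r : ℝ) : ℂ :=
  (1 / (2 * π) : ℝ) • ∫ θ in (0:ℝ)..(2 * π), F (circleMap 0 r θ) * conj (H (circleMap 0 r θ))

lemma cont_circ {F : ℂ → ℂ} {R r : ℝ} (hF : DifferentiableOn ℂ F (ball 0 R)) (hr : 0 < r)
    (hrR : r < R) : Continuous (fun θ => F (circleMap 0 r θ)) := by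
  refine hF.continuousOn.comp_continuous (continuous_circleMap 0 r) ?_
  intro θ
  have := circleMap_mem_sphere (0 : ℂ) hr.le θ
  rw [mem_sphere_zero_iff_norm] at this
  rw [mem_ball_zero_iff, this]; exact hrR

lemma cont_pair {F H : ℂ → ℂ} {R r : ℝ} (hF : DifferentiableOn ℂ F (ball 0 R))
    (hH : DifferentiableOn ℂ H (ball 0 R)) (hr : 0 < r) (hrR : r < R) :
    Continuous (fun θ => F (circleMap 0 r θ) * conj (H (circleMap 0 r θ))) :=
  (cont_circ hF hr hrR).mul (Complex.continuous_conj.comp (cont_circ hH hr hrR))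

lemma norm_circ {r : ℝ} (hr : 0 < r) (θ : ℝ) : ‖circleMap 0 r θ‖ = r := by
  have := circleMap_mem_sphere (0 : ℂ) hr.le θ
  rwa [mem_sphere_zero_iff_norm] at this

/-- energy as a power series -/
lemma energy_series {f : ℂ → ℂ} {R : ℝ} (hR : 0 < R) (hf : DifferentiableOn ℂ f (ball 0 R)) {r : ℝ}
    (hr : 0 < r) (hrR : r < R) :
    HasSum (fun k : ℕ => (k : ℂ) * (tc f k * conj (tc f k)) * (r : ℂ) ^ (2 * k)) (Ef f r : ℂ) := by
  have hzf : DifferentiableOn ℂ (fun z => z * deriv f z) (ball 0 R) :=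
    differentiableOn_id.mul (hf.deriv isOpen_ball)
  have h1 := parseval_circle (fun z => z * deriv f z) f R hzf hf r hr hrR
  have hterm : ∀ k : ℕ, tc (fun z => z * deriv f z) k * conj (tc f k) * (r : ℂ) ^ (2 * k)
      = (((k : ℝ) * Complex.normSq (tc f k) * r ^ (2 * k) : ℝ) : ℂ) := by
    intro k
    rw [tc_zderiv hR hf, mul_assoc (k : ℂ), Complex.mul_conj]
    push_cast; ring
  simp only [hterm] at h1
  have h2 := h1.mapL Complex.reCLM
  simp only [Complex.reCLM_apply, Complex.ofReal_re] at h2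
  have h3 : ((1 / (2 * π) : ℝ) • ∫ θ in (0:ℝ)..(2 * π),
        (circleMap 0 r θ * deriv f (circleMap 0 r θ)) * conj (f (circleMap 0 r θ))).re = Ef f r := by
    have hint : IntervalIntegrable (fun θ => (circleMap 0 r θ * deriv f (circleMap 0 r θ)) *
        conj (f (circleMap 0 r θ))) volume 0 (2 * π) :=
      (cont_pair hzf hf hr hrR).intervalIntegrable _ _
    have h4 := Complex.reCLM.intervalIntegral_comp_comm hint
    rw [Complex.real_smul, Complex.re_ofReal_mul]
    unfold Ef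
    congr 1
    rw [← Complex.reCLM_apply, ← h4]
    refine intervalIntegral.integral_congr fun θ _ => ?_
    simp only [Complex.reCLM_apply, Wf]
    rw [mul_comm]
  rw [h3] at h2
  have h5 := Complex.hasSum_ofReal.mpr h2
  convert h5 using 2 with k
  rw [Complex.mul_conj]
  push_cast; ring

lemma II_L {L : ℂ → ℂ} {R : ℝ} (hL : DifferentiableOn ℂ L (ball 0 R)) (n : ℕ) {r : ℝ}
    (hr : 0 < r) (hrR : r < R) : II L (fun z => z ^ n) r = tc L n * (r : ℂ) ^ (2 * n) := by
  have h1 := parseval_circle L (fun z => z ^ n) R hL (differentiable_pow n).differentiableOn r hr hrR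
  have h2 : HasSum (fun k : ℕ => tc L k * conj (tc (fun z => z ^ n) k) * (r : ℂ) ^ (2 * k))
      (tc L n * (r : ℂ) ^ (2 * n)) := by
    have h3 := hasSum_ite_eq n (tc L n * (r : ℂ) ^ (2 * n))
    convert h3 using 2 with k
    rw [tc_pow]
    split_ifs with h
    · rw [h]; simp
    · simp
  exact h1.unique h2

lemma II_one {H : ℂ → ℂ} {R : ℝ} (hH : DifferentiableOn ℂ H (ball 0 R)) (h0 : H 0 = 0) {r : ℝ}
    (hr : 0 < r) (hrR : r < R) : II (fun _ => 1) H r = 0 := by
  have h1 := parseval_circle (fun _ => 1) H R (differentiableOn_const _) hH r hr hrR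
  have h2 : HasSum (fun k : ℕ => tc (fun _ => 1) k * conj (tc H k) * (r : ℂ) ^ (2 * k)) 0 := by
    convert hasSum_zero (α := ℂ) (β := ℕ) using 2 with k
    rw [tc_one]
    split_ifs with h
    · rw [h, tc_zero, h0]; simp
    · simp
  exact h1.unique h2

end aux

/-- TARGET 1 -/
theorem coeff_identity (f : ℂ → ℂ) (hf : DifferentiableOn ℂ f (ball 0 1)) (h0 : f 0 = 0)
    (h1 : deriv f 0 ≠ 0)
    (hE : ∀ r ∈ Ioo (0:ℝ) 1, 0 < Ef f r)
    (hC : ∀ r ∈ Ioo (0:ℝ) 1, ∃ C : ℝ, ∀ θ : ℝ,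
      ‖circleMap 0 r θ * deriv f (circleMap 0 r θ)‖ =
        C * (‖f (circleMap 0 r θ)‖ * Real.exp (‖f (circleMap 0 r θ)‖ ^ 2 / (2 * Ef f r))))
    (n : ℕ) (hn : 1 ≤ n) :
    ∃ l : ℂ, ∀ k : ℕ, 1 ≤ k →
      tc f (k + n) * conj (tc f k) = l * (k : ℂ) * (tc f k * conj (tc f k)) := by
  -- the local quotient
  have hnb : ball (0 : ℂ) 1 ∈ 𝓝 (0 : ℂ) := isOpen_ball.mem_nhds (mem_ball_self one_pos)
  set g : ℂ → ℂ := dslope f 0 with hg
  have hgd : DifferentiableOn ℂ g (ball 0 1) := (Complex.differentiableOn_dslope hnb).mpr hf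
  have hg0 : g 0 = deriv f 0 := dslope_same f 0
  have hfg : ∀ z, z ≠ 0 → f z = z * g z := by
    intro z hz
    have h2 : g z = (f z - f 0) / (z - 0) := by
      rw [hg, dslope_of_ne f hz, slope_def_field]
    rw [h2, h0, sub_zero, sub_zero, mul_div_cancel₀ _ hz]
  have hdd : DifferentiableOn ℂ (deriv f) (ball 0 1) := hf.deriv isOpen_ball
  set q : ℂ → ℂ := fun z => deriv f z / g z with hq
  have hgc : ContinuousAt g 0 := (hgd.differentiableAt hnb).continuousAt
  have hdc : ContinuousAt (deriv f) 0 := (hdd.differentiableAt hnb).continuousAt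
  have hg0' : g 0 ≠ 0 := by rw [hg0]; exact h1
  have hqc : ContinuousAt q 0 := hdc.div hgc hg0'
  have hq0 : q 0 = 1 := by
    simp only [hq]
    rw [hg0, div_self h1]
  obtain ⟨r1, hr1p, hr1le, hr1⟩ : ∃ r1 : ℝ, 0 < r1 ∧ r1 ≤ 1 ∧ ∀ z ∈ ball (0 : ℂ) r1,
      g z ≠ 0 ∧ ‖q z - 1‖ < 1 := by
    have e1 : ∀ᶠ z in 𝓝 (0 : ℂ), g z ≠ 0 := hgc.eventually_ne hg0'
    have e2 : ∀ᶠ z in 𝓝 (0 : ℂ), ‖q z - 1‖ < 1 := by
      have h3 : ContinuousAt (fun z => ‖q z - 1‖) 0 := (hqc.sub continuousAt_const).norm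
      have h4 : ‖q 0 - 1‖ < 1 := by rw [hq0]; simp
      exact h3.eventually (gt_mem_nhds h4)
    obtain ⟨ε, hε, hball⟩ := Metric.eventually_nhds_iff_ball.mp (e1.and e2)
    refine ⟨min ε 1, lt_min hε one_pos, min_le_right _ _, fun z hz => hball z ?_⟩
    exact ball_subset_ball (min_le_left _ _) hz
  have hsub : ball (0 : ℂ) r1 ⊆ ball 0 1 := ball_subset_ball hr1le
  set L : ℂ → ℂ := fun z => Complex.log (q z) with hL
  have hslit : ∀ z ∈ ball (0 : ℂ) r1, q z ∈ slitPlane := by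
    intro z hz
    have := Complex.mem_slitPlane_of_norm_lt_one (hr1 z hz).2
    rwa [add_sub_cancel] at this
  have hLd : DifferentiableOn ℂ L (ball 0 r1) := by
    have hqd : DifferentiableOn ℂ q (ball 0 r1) :=
      (hdd.mono hsub).div (hgd.mono hsub) (fun z hz => (hr1 z hz).1)
    exact hqd.clog hslit
  have hfd : DifferentiableOn ℂ f (ball 0 r1) := hf.mono hsub
  have hzn : DifferentiableOn ℂ (fun z : ℂ => z ^ n) (ball 0 r1) :=
    (differentiable_pow n).differentiableOn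
  have hLzn : DifferentiableOn ℂ (fun z => L z * z ^ n) (ball 0 r1) := hLd.mul hzn
  have hznf : DifferentiableOn ℂ (fun z => z ^ n * f z) (ball 0 r1) := diff_pow_mul hfd n
  have h1d : DifferentiableOn ℂ (fun _ : ℂ => (1 : ℂ)) (ball 0 r1) := differentiableOn_const _
  have hn0 : n ≠ 0 := by omega
  refine ⟨tc L n, ?_⟩
  -- main identity for each radius
  have hmain : ∀ r : ℝ, 0 < r → r < r1 →
      II f (fun z => z ^ n * f z) r = (Ef f r : ℂ) * (tc L n * (r : ℂ) ^ (2 * n)) := by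
    intro r hr hrr
    have hrI : r ∈ Ioo (0:ℝ) 1 := ⟨hr, by linarith⟩
    obtain ⟨C, hCr⟩ := hC r hrI
    have hEr := hE r hrI
    set Er := Ef f r with hEr'
    -- pointwise real part of L
    have hre : ∀ θ : ℝ, (L (circleMap 0 r θ)).re =
        Real.log C + ‖f (circleMap 0 r θ)‖ ^ 2 / (2 * Er) := by
      intro θ
      set z := circleMap 0 r θ with hz
      have hzn : ‖z‖ = r := norm_circ hr θ
      have hz0 : z ≠ 0 := by rw [← norm_pos_iff, hzn]; exact hr
      have hzb : z ∈ ball (0 : ℂ) r1 := by rw [mem_ball_zero_iff, hzn]; exact hrr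
      have hfz : f z ≠ 0 := by rw [hfg z hz0]; exact mul_ne_zero hz0 (hr1 z hzb).1
      have hqz : q z = z * deriv f z / f z := by
        simp only [hq]
        rw [hfg z hz0, mul_div_mul_left _ _ hz0]
      have hqn : ‖q z‖ = C * Real.exp (‖f z‖ ^ 2 / (2 * Er)) := by
        rw [hqz, norm_div, hCr θ, ← hz]
        have : ‖f z‖ ≠ 0 := norm_ne_zero_iff.mpr hfz
        field_simp
      have hqz0 : q z ≠ 0 := slitPlane_ne_zero (hslit z hzb)
      have hCpos : 0 < C := by
        have h5 : 0 < C * Real.exp (‖f z‖ ^ 2 / (2 * Er)) := by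
          rw [← hqn]; exact norm_pos_iff.mpr hqz0
        exact pos_of_mul_pos_left h5 (Real.exp_pos _).le
      show (Complex.log (q z)).re = _
      rw [Complex.log_re, hqn, Real.log_mul hCpos.ne' (Real.exp_pos _).ne', Real.log_exp]
    -- pointwise identity
    have hpt : ∀ θ : ℝ,
        L (circleMap 0 r θ) * conj ((circleMap 0 r θ) ^ n) +
          1 * conj (L (circleMap 0 r θ) * (circleMap 0 r θ) ^ n) =
        (2 * Real.log C : ℂ) * (1 * conj ((circleMap 0 r θ) ^ n)) +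
          (1 / Er : ℂ) * (f (circleMap 0 r θ) * conj ((circleMap 0 r θ) ^ n * f (circleMap 0 r θ))) := by
      intro θ
      have h5 := hre θ
      set z := circleMap 0 r θ with hz
      have h6 : L z + conj (L z) = ((2 * (L z).re : ℝ) : ℂ) := by
        rw [Complex.add_conj]
      have h7 : f z * conj (f z) = ((‖f z‖ ^ 2 : ℝ) : ℂ) := by
        rw [Complex.mul_conj, Complex.normSq_eq_norm_sq]
      have hErc : (Er : ℂ) ≠ 0 := by exact_mod_cast hEr.ne'
      rw [map_mul, map_mul]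
      have h8 : (1 / Er : ℂ) * (f z * (conj (z ^ n) * conj (f z))) =
          (1 / Er : ℂ) * ((‖f z‖ ^ 2 : ℝ) : ℂ) * conj (z ^ n) := by
        rw [← h7]; ring
      have h9 : L z * conj (z ^ n) + 1 * (conj (L z) * conj (z ^ n)) =
          ((2 * (L z).re : ℝ) : ℂ) * conj (z ^ n) := by
        rw [← h6]; ring
      rw [h8, h9, h5]
      push_cast
      field_simp
    have i1 := (cont_pair hLd hzn hr hrr).intervalIntegrable (μ := volume) 0 (2 * π)
    have i2 := (cont_pair h1d hLzn hr hrr).intervalIntegrable (μ := volume) 0 (2 * π)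
    have i3 := (cont_pair h1d hzn hr hrr).intervalIntegrable (μ := volume) 0 (2 * π)
    have i4 := (cont_pair hfd hznf hr hrr).intervalIntegrable (μ := volume) 0 (2 * π)
    have hsum : II L (fun z => z ^ n) r + II (fun _ => 1) (fun z => L z * z ^ n) r =
        (2 * Real.log C : ℂ) * II (fun _ => 1) (fun z => z ^ n) r +
          (1 / Er : ℂ) * II f (fun z => z ^ n * f z) r := by
      unfold II
      rw [← smul_add, ← intervalIntegral.integral_add i1 i2, mul_smul_comm, mul_smul_comm,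
        ← smul_add, ← intervalIntegral.integral_const_mul, ← intervalIntegral.integral_const_mul,
        ← intervalIntegral.integral_add (i3.const_mul _) (i4.const_mul _)]
      congr 1
      exact intervalIntegral.integral_congr fun θ _ => hpt θ
    rw [II_L hLd n hr hrr, II_one hLzn (by simp [hn0]) hr hrr,
      II_one hzn (by simp [hn0]) hr hrr, add_zero, mul_zero, zero_add] at hsum
    have hErc : (Er : ℂ) ≠ 0 := by exact_mod_cast hEr.ne'
    rw [hsum]
    field_simp
  -- series identity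
  have hser : ∀ r : ℝ, 0 < r → r < r1 →
      HasSum (fun j : ℕ => (tc f (j + n) * conj (tc f j) -
        tc L n * ((j : ℂ) * (tc f j * conj (tc f j)))) * (((r ^ 2 : ℝ)) : ℂ) ^ j) 0 := by
    intro r hr hrr
    have hrc : (r : ℂ) ≠ 0 := by exact_mod_cast hr.ne'
    have p1 := parseval_circle f (fun z => z ^ n * f z) r1 hfd hznf r hr hrr
    have p2 : HasSum (fun k : ℕ => tc f k * conj (tc (fun z => z ^ n * f z) k) * (r : ℂ) ^ (2 * k))
        ((Ef f r : ℂ) * (tc L n * (r : ℂ) ^ (2 * n))) := by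
      rw [← hmain r hr hrr]; exact p1
    rw [← hasSum_nat_add_iff' n] at p2
    have p3 : ∑ i ∈ Finset.range n,
        tc f i * conj (tc (fun z => z ^ n * f z) i) * (r : ℂ) ^ (2 * i) = 0 := by
      refine Finset.sum_eq_zero fun i hi => ?_
      rw [tc_powmul_lt hr1p hfd n i (Finset.mem_range.mp hi)]; simp
    rw [p3, sub_zero] at p2
    have p4 := (p2.mul_left ((r : ℂ) ^ (2 * n))⁻¹).sub
      ((energy_series hr1p hfd hr hrr).mul_left (tc L n))
    have hpn : (r : ℂ) ^ (2 * n) ≠ 0 := pow_ne_zero _ hrc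
    have p5 : ((r : ℂ) ^ (2 * n))⁻¹ * ((Ef f r : ℂ) * (tc L n * (r : ℂ) ^ (2 * n))) -
        tc L n * (Ef f r : ℂ) = 0 := by
      field_simp
      ring
    rw [p5] at p4
    have e : (fun j : ℕ => (tc f (j + n) * conj (tc f j) -
        tc L n * ((j : ℂ) * (tc f j * conj (tc f j)))) * (((r ^ 2 : ℝ)) : ℂ) ^ j) =
        fun b : ℕ => ((r : ℂ) ^ (2 * n))⁻¹ * (tc f (b + n) *
          conj (tc (fun z => z ^ n * f z) (b + n)) * (r : ℂ) ^ (2 * (b + n))) -
        tc L n * ((b : ℂ) * (tc f b * conj (tc f b)) * (r : ℂ) ^ (2 * b)) := by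
      funext j
      rw [tc_powmul hr1p hfd n j]
      have e2 : (r : ℂ) ^ (2 * (j + n)) = (r : ℂ) ^ (2 * j) * (r : ℂ) ^ (2 * n) := by ring
      have e3 : (((r ^ 2 : ℝ)) : ℂ) ^ j = (r : ℂ) ^ (2 * j) := by
        push_cast; rw [← pow_mul]
      rw [e2, e3]
      field_simp
    rw [e]
    exact p4
  have hco := coeff_zero (fun j : ℕ => tc f (j + n) * conj (tc f j) -
        tc L n * ((j : ℂ) * (tc f j * conj (tc f j)))) (r1 ^ 2) (by positivity) (by
    intro x hx hxr
    have hs : √x < r1 := by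
      rw [Real.sqrt_lt' hr1p]; exact hxr
    have := hser (√x) (Real.sqrt_pos.mpr hx) hs
    rwa [Real.sq_sqrt hx.le] at this)
  intro k _
  have := hco k
  linear_combination this

/-- TARGET 2 -/
theorem rigidity (f : ℂ → ℂ) (hf : DifferentiableOn ℂ f (ball 0 1)) (h0 : f 0 = 0)
    (h1 : deriv f 0 ≠ 0)
    (hE : ∀ r ∈ Ioo (0:ℝ) 1, 0 < Ef f r)
    (hC : ∀ r ∈ Ioo (0:ℝ) 1, ∃ C : ℝ, ∀ θ : ℝ,
      ‖circleMap 0 r θ * deriv f (circleMap 0 r θ)‖ =
        C * (‖f (circleMap 0 r θ)‖ * Real.exp (‖f (circleMap 0 r θ)‖ ^ 2 / (2 * Ef f r)))) :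
    ∀ z ∈ ball (0:ℂ) 1, f z = deriv f 0 * z := by
  have h1' : tc f 1 ≠ 0 := by
    have : tc f 1 = deriv f 0 := by simp [tc, iteratedDeriv_one]
    rw [this]; exact h1
  have hid := fun n hn => coeff_identity f hf h0 h1 hE hC n hn
  have hexl : ∀ n : ℕ, ∃ l : ℂ, 1 ≤ n → ∀ k : ℕ, 1 ≤ k → tc f k ≠ 0 →
      tc f (k + n) = l * k * tc f k := by
    intro n
    by_cases hn : 1 ≤ n
    · obtain ⟨l, hl⟩ := hid n hn
      refine ⟨l, fun _ k hk hne => ?_⟩
      have h2 := hl k hk
      have h3 : conj (tc f k) ≠ 0 := by simpa using hne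
      apply mul_right_cancel₀ h3
      linear_combination h2
    · exact ⟨0, fun h => absurd h hn⟩
  choose l hl using hexl
  have hvan : ∀ k : ℕ, 2 ≤ k → tc f k = 0 := by
    intro k hk
    by_contra hne
    have a1 : tc f k = l (k - 1) * tc f 1 := by
      have := hl (k - 1) (by omega) 1 le_rfl h1'
      rw [show 1 + (k - 1) = k by omega] at this
      rw [this]; push_cast; ring
    have a2 : tc f (2 * k - 1) = l (k - 1) * k * tc f k := by
      have := hl (k - 1) (by omega) k (by omega) hne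
      rwa [show k + (k - 1) = 2 * k - 1 by omega] at this
    have a3 : tc f (2 * k - 1) = l (2 * k - 2) * tc f 1 := by
      have := hl (2 * k - 2) (by omega) 1 le_rfl h1'
      rw [show 1 + (2 * k - 2) = 2 * k - 1 by omega] at this
      rw [this]; push_cast; ring
    have a4 : tc f (3 * k - 2) = l (2 * k - 2) * k * tc f k := by
      have := hl (2 * k - 2) (by omega) k (by omega) hne
      rwa [show k + (2 * k - 2) = 3 * k - 2 by omega] at this
    have hl1 : l (k - 1) ≠ 0 := by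
      intro h
      rw [h, zero_mul] at a1
      exact hne a1
    have hk0 : (k : ℂ) ≠ 0 := by
      have : k ≠ 0 := by omega
      exact_mod_cast this
    have hne2 : tc f (2 * k - 1) ≠ 0 := by
      rw [a2]; exact mul_ne_zero (mul_ne_zero hl1 hk0) hne
    have a5 : tc f (3 * k - 2) = l (k - 1) * ((2 * k - 1 : ℕ) : ℂ) * tc f (2 * k - 1) := by
      have := hl (k - 1) (by omega) (2 * k - 1) (by omega) hne2
      rwa [show 2 * k - 1 + (k - 1) = 3 * k - 2 by omega] at this
    have a6 : (k : ℂ) * (tc f (2 * k - 1) * tc f k) =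
        ((2 * k - 1 : ℕ) : ℂ) * (tc f (2 * k - 1) * tc f k) := by
      have e1 : tc f (3 * k - 2) * tc f 1 = (k : ℂ) * (tc f (2 * k - 1) * tc f k) := by
        rw [a4]
        linear_combination (-(k : ℂ) * tc f k) * a3
      have e2 : tc f (3 * k - 2) * tc f 1 =
          ((2 * k - 1 : ℕ) : ℂ) * (tc f (2 * k - 1) * tc f k) := by
        rw [a5]
        linear_combination (-((2 * k - 1 : ℕ) : ℂ) * tc f (2 * k - 1)) * a1
      rw [← e1, e2]
    have a7 := mul_right_cancel₀ (mul_ne_zero hne2 hne) a6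
    have a8 : k = 2 * k - 1 := by exact_mod_cast a7
    omega
  intro z hz
  have hs := hasSum_tc hf hz
  have hs2 : HasSum (fun n : ℕ => tc f n * z ^ n) (tc f 1 * z ^ 1) := by
    refine hasSum_single 1 fun n hn => ?_
    rcases Nat.lt_or_ge n 1 with h | h
    · have : n = 0 := by omega
      rw [this, tc_zero, h0, zero_mul]
    · rw [hvan n (by omega), zero_mul]
  have h3 := hs.unique hs2
  have : tc f 1 = deriv f 0 := by simp [tc, iteratedDeriv_one]
  rw [h3, this, pow_one]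

end J1933

alias coeff_identity := J1933.coeff_identity
alias rigidity := J1933.rigidity

end CM
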