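import Mathlib
import Pool.Agent.Helper714.CM.Defs
import Pool.Agent.Helper714.CM.J1905
import Pool.Agent.Helper714.CM.J1906
import Pool.Agent.Helper714.CM.J1908
import Pool.Agent.Helper714.CM.J1909
import Pool.Agent.Helper714.CM.J1921
import Pool.Agent.Helper714.CM.J1922
import Pool.Agent.Helper714.CM.J1924
import Pool.Agent.Helper714.CM.J1933

/-! Sharp Chang–Marshall inequality: the monotone quantity `Psi`, the sharp bound and the
equality case. -/

open MeasureTheory Complex Filter Topology Set Metric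
open scoped ComplexConjugate Real

noncomputable section

namespace CM

/-! ### Main part -/

section main
variable {f : ℂ → ℂ}

lemma circleMap_mem {r θ : ℝ} (hr : 0 < r) (hr1 : r < 1) : circleMap 0 r θ ∈ ball (0:ℂ) 1 := by
  simp [circleMap, abs_of_pos hr, hr1]

lemma hasDeriv_circ (hf : DifferentiableOn ℂ f (ball 0 1)) {r : ℝ} (hr : 0 < r) (hr1 : r < 1)
    (s : ℝ) : HasDerivAt (fun θ => f (circleMap 0 r θ))
      (Complex.I * (circleMap 0 r s * deriv f (circleMap 0 r s))) s := by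
  have h1 : HasDerivAt f (deriv f (circleMap 0 r s)) (circleMap 0 r s) :=
    ((hf _ (circleMap_mem hr hr1)).differentiableAt
      (isOpen_ball.mem_nhds (circleMap_mem hr hr1))).hasDerivAt
  have h2 := hasDerivAt_circleMap 0 r s
  have h3 := h1.comp_of_eq s h2 rfl
  have h4 : Complex.I * (circleMap 0 r s * deriv f (circleMap 0 r s)) =
      deriv f (circleMap 0 r s) * (circleMap 0 r s * Complex.I) := by ring
  rw [h4]
  exact h3

lemma contK (hf : DifferentiableOn ℂ f (ball 0 1)) {r : ℝ} (hr : 0 < r) (hr1 : r < 1) :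
    Continuous (fun s => circleMap 0 r s * deriv f (circleMap 0 r s)) := by
  have h1 : ContinuousOn (deriv f) (ball 0 1) := (hf.deriv isOpen_ball).continuousOn
  exact (continuous_circleMap 0 r).mul
    (h1.comp_continuous (continuous_circleMap 0 r) (fun s => circleMap_mem hr hr1))

lemma contF (hf : DifferentiableOn ℂ f (ball 0 1)) {r : ℝ} (hr : 0 < r) (hr1 : r < 1) :
    Continuous (fun s => f (circleMap 0 r s)) :=
  hf.continuousOn.comp_continuous (continuous_circleMap 0 r) (fun s => circleMap_mem hr hr1)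

lemma hEK_aux (f : ℂ → ℂ) (r : ℝ) : ∫ s in (0:ℝ)..(2 * π),
    (conj (f (circleMap 0 r s)) * (circleMap 0 r s * deriv f (circleMap 0 r s))).re
      = 2 * π * Ef f r := by
  have : (π:ℝ) ≠ 0 := Real.pi_ne_zero
  unfold Ef Wf
  field_simp

lemma G_aux (f : ℂ → ℂ) (r : ℝ) : ∫ s in (0:ℝ)..(2 * π),
    ‖circleMap 0 r s * deriv f (circleMap 0 r s)‖ ^ 2 = 2 * π * Gf f r := by
  have : (π:ℝ) ≠ 0 := Real.pi_ne_zero
  unfold Gf
  field_simp

lemma perF (f : ℂ → ℂ) (r : ℝ) : Function.Periodic (fun s => f (circleMap 0 r s)) (2 * π) := by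
  intro s
  simp only [periodic_circleMap 0 r s]

lemma perK (f : ℂ → ℂ) (r : ℝ) : Function.Periodic
    (fun s => circleMap 0 r s * deriv f (circleMap 0 r s)) (2 * π) := by
  intro s
  simp only [periodic_circleMap 0 r s]

/-- the integral appearing in `Psi'` -/
def Iint (f : ℂ → ℂ) (r : ℝ) : ℝ := ∫ θ in (0:ℝ)..(2 * π),
  Real.exp (‖f (circleMap 0 r θ)‖ ^ 2 / Ef f r) *
        ((Wf f r θ).re * Ef f r - ‖f (circleMap 0 r θ)‖ ^ 2 * Gf f r)

lemma Iint_eq (hf : DifferentiableOn ℂ f (ball 0 1)) {r : ℝ} (hr : 0 < r) (hr1 : r < 1) :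
    Iint f r = (∫ θ in (0:ℝ)..(2 * π), Real.exp (‖f (circleMap 0 r θ)‖ ^ 2 / Ef f r) *
        (conj (f (circleMap 0 r θ)) * (circleMap 0 r θ * deriv f (circleMap 0 r θ))).re) * Ef f r
      - Gf f r * ∫ θ in (0:ℝ)..(2 * π), Real.exp (‖f (circleMap 0 r θ)‖ ^ 2 / Ef f r) *
        ‖f (circleMap 0 r θ)‖ ^ 2 := by
  have cF := contF hf hr hr1
  have cK := contK hf hr hr1
  have c1 : Continuous (fun θ => Real.exp (‖f (circleMap 0 r θ)‖ ^ 2 / Ef f r)) :=
    Real.continuous_exp.comp ((cF.norm.pow 2).div_const _)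
  have c2 : Continuous (fun θ => (conj (f (circleMap 0 r θ)) *
      (circleMap 0 r θ * deriv f (circleMap 0 r θ))).re) :=
    Complex.continuous_re.comp ((Complex.continuous_conj.comp cF).mul cK)
  rw [← intervalIntegral.integral_mul_const, ← intervalIntegral.integral_const_mul,
    ← intervalIntegral.integral_sub]
  · unfold Iint Wf
    congr 1
    ext θ
    ring
  · exact (Continuous.intervalIntegrable ((c1.mul c2).mul continuous_const) _ _)
  · exact (Continuous.intervalIntegrable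
      (continuous_const.mul (c1.mul (cF.norm.pow 2))) _ _)

lemma Iint_nonpos (hf : DifferentiableOn ℂ f (ball 0 1)) {r : ℝ} (hr : 0 < r) (hr1 : r < 1)
    (hE : 0 < Ef f r) : Iint f r ≤ 0 := by
  have h := key_ineq (fun s => f (circleMap 0 r s))
    (fun s => circleMap 0 r s * deriv f (circleMap 0 r s)) (hasDeriv_circ hf hr hr1)
    (contK hf hr hr1) (perF f r) (perK f r) (Ef f r) hE (hEK_aux f r)
  rw [G_aux] at h
  rw [Iint_eq hf hr hr1]
  have hpi := Real.pi_pos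
  set A := ∫ θ in (0:ℝ)..(2 * π), Real.exp (‖f (circleMap 0 r θ)‖ ^ 2 / Ef f r) *
        (conj (f (circleMap 0 r θ)) * (circleMap 0 r θ * deriv f (circleMap 0 r θ))).re
  set B := ∫ θ in (0:ℝ)..(2 * π), Real.exp (‖f (circleMap 0 r θ)‖ ^ 2 / Ef f r) *
        ‖f (circleMap 0 r θ)‖ ^ 2
  have h2 : (2 * π) * (A * Ef f r) ≤ (2 * π) * (Gf f r * B) := by nlinarith
  have h3 := le_of_mul_le_mul_left h2 (by positivity)
  linarith

lemma Iint_eq_zero (hf : DifferentiableOn ℂ f (ball 0 1)) {r : ℝ} (hr : 0 < r) (hr1 : r < 1)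
    (hE : 0 < Ef f r) (h0 : Iint f r = 0) : ∃ C : ℝ, ∀ θ : ℝ,
      ‖circleMap 0 r θ * deriv f (circleMap 0 r θ)‖ =
        C * (‖f (circleMap 0 r θ)‖ * Real.exp (‖f (circleMap 0 r θ)‖ ^ 2 / (2 * Ef f r))) := by
  apply key_ineq_eq (fun s => f (circleMap 0 r s))
    (fun s => circleMap 0 r s * deriv f (circleMap 0 r s)) (hasDeriv_circ hf hr hr1)
    (contK hf hr hr1) (perF f r) (perK f r) (Ef f r) hE (hEK_aux f r)
  rw [G_aux]
  rw [Iint_eq hf hr hr1] at h0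
  linear_combination (2 * π) * h0

lemma Psi_deriv (hf : DifferentiableOn ℂ f (ball 0 1)) {r : ℝ} (hr : 0 < r) (hr1 : r < 1)
    (hE : 0 < Ef f r) :
    HasDerivAt (Psi f) ((1 / (2 * π)) * (2 / (r * Ef f r ^ 2)) * Iint f r) r :=
  Psi_hasDerivAt f hf r hr hr1 hE

/-- `Psi` is nonincreasing on `(0,1)`. -/
lemma Psi_antitone (hf : DifferentiableOn ℂ f (ball 0 1)) (h0 : f 0 = 0)
    (hne : ∃ z ∈ ball (0:ℂ) 1, f z ≠ 0) : AntitoneOn (Psi f) (Ioo 0 1) := by
  have hE : ∀ r ∈ Ioo (0:ℝ) 1, 0 < Ef f r := fun r hr => Ef_pos f hf h0 hne r hr.1 hr.2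
  apply antitoneOn_of_deriv_nonpos (convex_Ioo 0 1)
  · intro r hr
    exact (Psi_deriv hf hr.1 hr.2 (hE r hr)).continuousAt.continuousWithinAt
  · intro r hr
    rw [interior_Ioo] at hr
    exact (Psi_deriv hf hr.1 hr.2 (hE r hr)).differentiableAt.differentiableWithinAt
  · intro r hr
    rw [interior_Ioo] at hr
    rw [(Psi_deriv hf hr.1 hr.2 (hE r hr)).deriv]
    have h1 := Iint_nonpos hf hr.1 hr.2 (hE r hr)
    have h2 : 0 < Ef f r := hE r hr
    have h3 : 0 < r := hr.1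
    have hpi := Real.pi_pos
    exact mul_nonpos_of_nonneg_of_nonpos (by positivity) h1

lemma Psi_le_limit (hf : DifferentiableOn ℂ f (ball 0 1)) (h0 : f 0 = 0)
    (hne : ∃ z ∈ ball (0:ℂ) 1, f z ≠ 0) {L : ℝ} (hL : Tendsto (Psi f) (𝓝[>] 0) (𝓝 L))
    {r : ℝ} (hr : r ∈ Ioo (0:ℝ) 1) : Psi f r ≤ L := by
  apply ge_of_tendsto hL
  have : Ioo (0:ℝ) r ∈ 𝓝[>] (0:ℝ) := Ioo_mem_nhdsGT hr.1
  filter_upwards [this] with s hs
  exact Psi_antitone hf h0 hne ⟨hs.1, hs.2.trans hr.2⟩ hr hs.2.le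

lemma Psi_le_e (hf : DifferentiableOn ℂ f (ball 0 1)) (h0 : f 0 = 0)
    (hne : ∃ z ∈ ball (0:ℂ) 1, f z ≠ 0)
    {r : ℝ} (hr : r ∈ Ioo (0:ℝ) 1) : Psi f r ≤ Real.exp 1 := by
  obtain ⟨m, hm, hL, -⟩ := Psi_tendsto f hf h0 hne
  refine (Psi_le_limit hf h0 hne hL hr).trans ?_
  apply Real.exp_le_exp.mpr
  have : (1:ℝ) ≤ m := by exact_mod_cast hm
  rw [div_le_one (by linarith)]
  exact this

lemma Ef_le_one (hf : DifferentiableOn ℂ f (ball 0 1))
    (hD : ∫⁻ z in ball (0:ℂ) 1, ENNReal.ofReal (‖deriv f z‖ ^ 2) ≤ ENNReal.ofReal π)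
    {r : ℝ} (hr : r ∈ Ioo (0:ℝ) 1) : Ef f r ≤ 1 := by
  have h := (Ef_le_dirichlet f hf r hr.1 hr.2).trans hD
  have hpi := Real.pi_pos
  rw [ENNReal.ofReal_le_ofReal_iff hpi.le] at h
  nlinarith

/-- comparison of the plain exponential integral with `Psi` -/
lemma int_exp_le (hf : DifferentiableOn ℂ f (ball 0 1)) (h0 : f 0 = 0)
    (hne : ∃ z ∈ ball (0:ℂ) 1, f z ≠ 0)
    (hD : ∫⁻ z in ball (0:ℂ) 1, ENNReal.ofReal (‖deriv f z‖ ^ 2) ≤ ENNReal.ofReal π)
    {r : ℝ} (hr : r ∈ Ioo (0:ℝ) 1) :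
    ∫ θ in (0:ℝ)..(2 * π), Real.exp (‖f (circleMap 0 r θ)‖ ^ 2) ≤ 2 * π * Psi f r := by
  have hE := Ef_pos f hf h0 hne r hr.1 hr.2
  have hE1 := Ef_le_one hf hD hr
  have hpi := Real.pi_pos
  have cF := contF hf hr.1 hr.2
  have : 2 * π * Psi f r =
      ∫ θ in (0:ℝ)..(2 * π), Real.exp (‖f (circleMap 0 r θ)‖ ^ 2 / Ef f r) := by
    unfold Psi
    field_simp
  rw [this]
  apply intervalIntegral.integral_mono_on (by positivity)
  · exact Continuous.intervalIntegrable (Real.continuous_exp.comp (cF.norm.pow 2)) _ _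
  · exact Continuous.intervalIntegrable
      (Real.continuous_exp.comp ((cF.norm.pow 2).div_const _)) _ _
  · intro θ _
    apply Real.exp_le_exp.mpr
    rw [le_div_iff₀ hE]
    have : 0 ≤ ‖f (circleMap 0 r θ)‖ ^ 2 := by positivity
    nlinarith

end main

/-- Admissible functions: holomorphic in the unit disc, `f 0 = 0`, Dirichlet integral
`∬ |f'|² dx dy ≤ π`, i.e. `𝕁(f) ≤ 1`. -/
def Adm (f : ℂ → ℂ) : Prop :=
  DifferentiableOn ℂ f (ball 0 1) ∧ f 0 = 0 ∧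
    ∫⁻ z in ball (0:ℂ) 1, ENNReal.ofReal (‖deriv f z‖ ^ 2) ≤ ENNReal.ofReal π

/-- The boundary value of `f` at `e^{iθ}`: the radial limit. -/
def bv (f : ℂ → ℂ) (θ : ℝ) : ℂ := limUnder (𝓝[<] (1:ℝ)) (fun r : ℝ => f (circleMap 0 r θ))

/-- `∫_0^{2π} exp(|f(e^{iθ})|²) dθ` -/
def CMint (f : ℂ → ℂ) : ENNReal :=
  ∫⁻ θ in Ioc 0 (2 * π), ENNReal.ofReal (Real.exp (‖bv f θ‖ ^ 2))

lemma bv_ae {f : ℂ → ℂ} (hf : Adm f) : ∀ᵐ θ ∂(volume.restrict (Ioc 0 (2 * π))),
      Tendsto (fun r : ℝ => f (circleMap 0 r θ)) (𝓝[<] 1) (𝓝 (bv f θ)) := by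
  filter_upwards [radial_limit_ae f hf.1 (hf.2.2.trans_lt ENNReal.ofReal_lt_top)] with θ hθ
  exact tendsto_nhds_limUnder hθ

lemma exp_const_integral (c : ℂ) (b : ℝ → ℂ)
    (hb : ∀ᵐ θ ∂(volume.restrict (Ioc 0 (2 * π))), ‖b θ‖ = ‖c‖) :
    ∫⁻ θ in Ioc 0 (2 * π), ENNReal.ofReal (Real.exp (‖b θ‖ ^ 2)) =
      ENNReal.ofReal (2 * π * Real.exp (‖c‖ ^ 2)) := by
  have : ∫⁻ θ in Ioc 0 (2 * π), ENNReal.ofReal (Real.exp (‖b θ‖ ^ 2)) =
      ∫⁻ θ in Ioc 0 (2 * π), ENNReal.ofReal (Real.exp (‖c‖ ^ 2)) := by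
    apply lintegral_congr_ae
    filter_upwards [hb] with θ hθ
    rw [hθ]
  rw [this, setLIntegral_const, Real.volume_Ioc, mul_comm (2 * π),
    ENNReal.ofReal_mul (Real.exp_pos _).le]
  simp

/-- boundary values of `c z` -/
lemma bv_linear {f : ℂ → ℂ} {c : ℂ} (h : ∀ z ∈ ball (0:ℂ) 1, f z = c * z) (θ : ℝ) :
    Tendsto (fun r : ℝ => f (circleMap 0 r θ)) (𝓝[<] 1) (𝓝 (c * circleMap 0 1 θ)) := by
  have h1 : Tendsto (fun r : ℝ => c * circleMap 0 r θ) (𝓝[<] 1) (𝓝 (c * circleMap 0 1 θ)) := by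
    have : Continuous (fun r : ℝ => c * circleMap 0 r θ) := by
      unfold circleMap
      fun_prop
    exact (this.tendsto 1).mono_left nhdsWithin_le_nhds
  apply h1.congr'
  have : Ioo (0:ℝ) 1 ∈ 𝓝[<] (1:ℝ) := Ioo_mem_nhdsLT zero_lt_one
  filter_upwards [this] with r hr
  exact (h _ (circleMap_mem hr.1 hr.2)).symm

lemma CMint_linear {f : ℂ → ℂ} {c : ℂ} (h : ∀ z ∈ ball (0:ℂ) 1, f z = c * z) :
    CMint f = ENNReal.ofReal (2 * π * Real.exp (‖c‖ ^ 2)) := by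
  apply exp_const_integral c
  refine Eventually.of_forall (fun θ => ?_)
  have := (bv_linear h θ).limUnder_eq
  unfold bv
  rw [this]
  simp [circleMap, Complex.norm_exp]

lemma CMint_le {f : ℂ → ℂ} (hf : Adm f) (hne : ∃ z ∈ ball (0:ℂ) 1, f z ≠ 0)
    {c : ℝ} {r₀ : ℝ} (hr₀ : r₀ < 1) (hc : ∀ r ∈ Ioo r₀ 1, 0 < r → Psi f r ≤ c) :
    CMint f ≤ ENNReal.ofReal (2 * π * c) := by
  have hpi := Real.pi_pos
  apply fatou_bv f hf.1 (bv f) (bv_ae hf) (2 * π * c) r₀ hr₀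
  intro r hr hr0
  refine (int_exp_le hf.1 hf.2.1 hne hf.2.2 ⟨hr0, hr.2⟩).trans ?_
  have := hc r hr hr0
  nlinarith

lemma CMint_upper {f : ℂ → ℂ} (hf : Adm f) : CMint f ≤ ENNReal.ofReal (2 * π * Real.exp 1) := by
  by_cases hne : ∃ z ∈ ball (0:ℂ) 1, f z ≠ 0
  · exact CMint_le hf hne zero_lt_one
      (fun r hr _ => Psi_le_e hf.1 hf.2.1 hne hr)
  · push Not at hne
    rw [CMint_linear (c := 0) (by simpa using hne)]
    apply ENNReal.ofReal_le_ofReal
    have := Real.pi_pos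
    have h2 : Real.exp (‖(0:ℂ)‖ ^ 2) ≤ Real.exp 1 := Real.exp_le_exp.mpr (by simp)
    nlinarith

lemma extremal {f : ℂ → ℂ} (hf : Adm f) (h : CMint f = ENNReal.ofReal (2 * π * Real.exp 1)) :
    ∃ c : ℂ, ‖c‖ = 1 ∧ ∀ z ∈ ball (0:ℂ) 1, f z = c * z := by
  have hpi := Real.pi_pos
  have hne : ∃ z ∈ ball (0:ℂ) 1, f z ≠ 0 := by
    by_contra hne
    push Not at hne
    rw [CMint_linear (c := 0) (by simpa using hne)] at h
    rw [ENNReal.ofReal_eq_ofReal_iff (by positivity) (by positivity)] at h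
    have h3 : Real.exp (‖(0:ℂ)‖ ^ 2) = Real.exp 1 := by
      have := mul_left_cancel₀ (by positivity : (2 * π) ≠ 0) h
      exact this
    simp at h3
    have := Real.add_one_lt_exp (x := 1) one_ne_zero
    linarith
  obtain ⟨m, hm, hL, hm1⟩ := Psi_tendsto f hf.1 hf.2.1 hne
  -- Psi ≥ e on (0,1)
  have hge : ∀ r ∈ Ioo (0:ℝ) 1, Real.exp 1 ≤ Psi f r := by
    intro r hr
    have h1 := CMint_le hf hne (c := Psi f r) (r₀ := r) hr.2
      (fun s hs hs0 => Psi_antitone hf.1 hf.2.1 hne hr ⟨hs0, hs.2⟩ hs.1.le)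
    rw [h] at h1
    have hE := Ef_pos f hf.1 hf.2.1 hne r hr.1 hr.2
    have hpos : 0 ≤ Psi f r := by
      unfold Psi
      apply mul_nonneg (by positivity)
      apply intervalIntegral.integral_nonneg (by positivity)
      intro θ _
      positivity
    rw [ENNReal.ofReal_le_ofReal_iff (by positivity)] at h1
    exact le_of_mul_le_mul_left h1 (by positivity)
  have hm' : m = 1 := by
    by_contra hmne
    have hm2 : 2 ≤ m := by omega
    have h1 : Psi f (1/2) ≤ Real.exp (1 / m) :=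
      Psi_le_limit hf.1 hf.2.1 hne hL (by norm_num)
    have h2 := hge (1/2) (by norm_num)
    have h3 : Real.exp 1 ≤ Real.exp (1 / m) := h2.trans h1
    rw [Real.exp_le_exp] at h3
    have h4 : (2:ℝ) ≤ m := by exact_mod_cast hm2
    rw [le_div_iff₀ (by linarith)] at h3
    linarith
  have hd := hm1 hm'
  have hE : ∀ r ∈ Ioo (0:ℝ) 1, 0 < Ef f r := fun r hr => Ef_pos f hf.1 hf.2.1 hne r hr.1 hr.2
  have hconst : ∀ r ∈ Ioo (0:ℝ) 1, Psi f r = Real.exp 1 := fun r hr =>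
    le_antisymm (Psi_le_e hf.1 hf.2.1 hne hr) (hge r hr)
  have hlin := rigidity f hf.1 hf.2.1 hd hE (fun r hr => by
    apply Iint_eq_zero hf.1 hr.1 hr.2 (hE r hr)
    have h1 := Psi_deriv hf.1 hr.1 hr.2 (hE r hr)
    have h2 : HasDerivAt (Psi f) 0 r := by
      have : (Psi f) =ᶠ[𝓝 r] (fun _ => Real.exp 1) := by
        filter_upwards [isOpen_Ioo.mem_nhds hr] with s hs
        exact hconst s hs
      exact (hasDerivAt_const r (Real.exp 1)).congr_of_eventuallyEq this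
    have h3 := h1.unique h2
    have h4 : (1 / (2 * π)) * (2 / (r * Ef f r ^ 2)) ≠ 0 := by
      have := hE r hr
      have := hr.1
      positivity
    exact (mul_eq_zero.mp h3).resolve_left h4)
  refine ⟨deriv f 0, ?_, hlin⟩
  rw [CMint_linear hlin, ENNReal.ofReal_eq_ofReal_iff (by positivity) (by positivity)] at h
  have h3 : Real.exp (‖deriv f 0‖ ^ 2) = Real.exp 1 :=
    mul_left_cancel₀ (by positivity : (2 * π) ≠ 0) h
  rw [Real.exp_eq_exp] at h3
  nlinarith [norm_nonneg (deriv f 0)]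

lemma adm_linear {f : ℂ → ℂ} {c : ℂ} (hc : ‖c‖ = 1) (h : ∀ z ∈ ball (0:ℂ) 1, f z = c * z) :
    Adm f := by
  have hd : DifferentiableOn ℂ f (ball 0 1) :=
    (differentiableOn_id.const_mul c).congr h
  refine ⟨hd, by simpa using h 0 (by simp), ?_⟩
  have hder : ∀ z ∈ ball (0:ℂ) 1, deriv f z = c := by
    intro z hz
    have : f =ᶠ[𝓝 z] (fun z => c * z) := by
      filter_upwards [isOpen_ball.mem_nhds hz] with w hw
      exact h w hw
    rw [this.deriv_eq]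
    simp
  rw [setLIntegral_congr_fun (g := fun _ => 1) measurableSet_ball
    (fun z hz => by simp [hder z hz, hc])]
  have hv : (volume (ball (0:ℂ) 1) : ENNReal) = ENNReal.ofReal π := by
    rw [Complex.volume_ball]
    simp
    rw [← NNReal.coe_real_pi, ENNReal.ofReal_coe_nnreal]
  rw [setLIntegral_const, one_mul, hv]

theorem nontangential_ae {f : ℂ → ℂ} (hf : Adm f) :
    ∀ᵐ θ ∂(volume.restrict (Ioc 0 (2 * π))), ∀ M : ℝ,
      Tendsto f (𝓝[{z : ℂ | ‖z‖ < 1 ∧ ‖z - circleMap 0 1 θ‖ ≤ M * (1 - ‖z‖)}] (circleMap 0 1 θ))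
        (𝓝 (bv f θ)) := by
  filter_upwards [bv_ae hf] with θ hθ M
  exact nontangential_of_radial f hf.1 (hf.2.2.trans_lt ENNReal.ofReal_lt_top) θ _ hθ M

theorem extremal_iff (f : ℂ → ℂ) : (Adm f ∧ CMint f = ENNReal.ofReal (2 * π * Real.exp 1)) ↔
      ∃ c : ℂ, ‖c‖ = 1 ∧ ∀ z ∈ ball (0:ℂ) 1, f z = c * z := by
  constructor
  · rintro ⟨hf, h⟩
    exact extremal hf h
  · rintro ⟨c, hc, h⟩
    refine ⟨adm_linear hc h, ?_⟩
    rw [CMint_linear h, hc]
    norm_num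

end CM
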